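import Pool.Agent.Work.MP_8f87b2_h26.L1f
import Pool.Agent.Work.MP_8f87b2_h26.L1h
import Pool.Agent.Work.MP_8f87b2_h40.H3a

/-!
# MP_8f87b2_co: the class `(n + 2, 2^a, 1)`, one soliton, one bead, `a ≥ 2`

One T-cycle for every rotation class of `G : ZMod (2 n + 1) → ℕ`, `∑ G = a` (`Ov n G w`). `edge_form`: a hop of two different
reduced T-cycles is `Φ + δ_(-1)`, `Φ + δ_0`. `cls_m1`: the class is cut into pairs of hops, the edge `{a δ_0, (a-1) δ_0 + δ_(-1)}`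
is not used; odd class: one guest.
-/

set_option autoImplicit false

namespace Pool.OddHC

open Finset Equiv BinaryTree Multiset Pool.OddHop Pool.Agent.Work.MP_8f87b2_co

variable {k n a j : ℕ}

namespace L1

variable {G G' Φ : ZMod (2 * n + 1) → ℕ}

/-- one pile -/
def pil {N : ℕ} (c : ℕ) (y : ZMod N) : ZMod N → ℕ := fun z => if z = y then c else 0

/-- every function has a word with one bead -/
theorem exists_Ov (hn : 1 ≤ n) (G : ZMod (2 * n + 1) → ℕ) (hk : n + 3 + 2 * ∑ x, G x = k) : ∃ w : X k, Ov n G w.1 := by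
  have h := (Wd.inf (rr n G)).app Wd.leaf
  have h2 : pkn (rr n G) = 1 + ∑ x, G x := (Ring1.in_num hn G).2
  have hnum : (app (inf (rr n G)) (.nil △ .nil) : BinaryTree Unit).numNodes = k := by
    rw [num_app', Ring1.inf_num, rr_num hn, h2]
    change _ + (0 + 0 + 1) = k
    omega
  have h3 : app (rr n G) .nil = rr n G := H1.app_nil _
  rw [h3] at h
  exact ⟨⟨_, mem_treesOfNumNodesEq.2 hnum⟩, 0 + 2 * (rr n G).numNodes,
    h.cast rfl (by rw [zero_add, Multiset.map_singleton]) rfl⟩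

/-- the reduced T-cycle of a word with one bead -/
theorem ov_rdw (hn : 1 ≤ n) {w : X k} (h : Ov n G w.1) (hj : n + pkn (pwX n).1 + ∑ x, G x = j) :
    Rd (cyc w) = ⟨j, cyc (phi (pwX n) G hj)⟩ := by
  obtain ⟨p, e⟩ := h.phi hn hj
  exact Rd_ins (lf_length _) e

/-- one bead -/
theorem one_of_sum {N : ℕ} [NeZero N] {b : ZMod N → ℕ} (h : ∑ x, b x = 1) : ∃ p, b = fun x => if x = p then 1 else 0 := by
  obtain ⟨p, hp⟩ : ∃ p, 1 ≤ b p := by
    by_contra hcon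
    push Not at hcon
    have : ∑ x, b x = 0 := Finset.sum_eq_zero fun x _ => by have := hcon x; omega
    omega
  have h1 := Finset.add_sum_erase univ b (mem_univ p)
  rw [h] at h1
  have h2 : ∑ x ∈ univ.erase p, b x = 0 := by omega
  rw [Finset.sum_eq_zero_iff] at h2
  refine ⟨p, ?_⟩
  funext x
  by_cases hx : x = p
  · subst hx
    rw [if_pos rfl]
    omega
  · rw [if_neg hx]
    exact h2 x (Finset.mem_erase.2 ⟨hx, mem_univ x⟩)

/-- a word over `rr n G` with one bead -/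
theorem ov_of_phi (hn : 1 ≤ n) {w : X k} (hj : n + pkn (pwX n).1 + ∑ x, G x = j) {p : ZMod (2 * j + 1)}
    (h : w.1 = ins (phi (pwX n) G hj).1 (lf fun x : ZMod (2 * j + 1) => if x = p then 1 else 0)) : Ov n G w.1 := by
  have hj' := Ring1.hj_of hn G
  obtain rfl : j = n + 1 + ∑ x, G x := by rw [← hj, hj']
  have h1 : p.val ≤ 2 * (n + 1 + ∑ x, G x) := by
    have := ZMod.val_lt p
    omega
  refine ⟨p.val, ⟨?_, ?_⟩⟩
  · intro y hy
    rw [Multiset.mem_singleton] at hy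
    rw [hy, rr_num hn]
    exact h1
  · rw [h, phi_rr, rr_num hn, cl_one h1, ZMod.natCast_zmod_val]

/-- one T-cycle over `rr n G` -/
theorem ov_uniq (hn : 1 ≤ n) {w : X k} (h : Ov n G w.1) (hj : n + pkn (pwX n).1 + ∑ x, G x = j) {c : Cyc k}
    (hc : Rd c = ⟨j, cyc (phi (pwX n) G hj)⟩) : c = cyc w := by
  obtain ⟨b, hb, rfl, _⟩ := exists_phi (phi (pwX n) G hj) hc
  obtain ⟨p, e⟩ := h.phi hn hj
  have h1 : j + pkn (phi (pwX n) G hj).1 + 1 = k := by
    have h2 := word_phi e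
    have h3 : ∑ x : ZMod (2 * j + 1), (if x = p then 1 else 0) = 1 := by simp
    rwa [h3] at h2
  have h2 : ∑ x, b x = 1 := by omega
  obtain ⟨p', rfl⟩ := one_of_sum h2
  have h3 : Ov n G (phi (phi (pwX n) G hj) (fun x => if x = p' then 1 else 0) hb).1 := ov_of_phi hn hj rfl
  exact (h3.cyc_iff hn h).2 ⟨0, by funext x; rw [add_zero]⟩

/-- rotations -/
theorem cyc_rot (hn : 1 ≤ n) (h : Rot G G') (hj : n + pkn (pwX n).1 + ∑ x, G x = j)
    (hj' : n + pkn (pwX n).1 + ∑ x, G' x = j) : cyc (phi (pwX n) G hj) = cyc (phi (pwX n) G' hj') := by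
  obtain ⟨c, rfl⟩ := h
  rw [cyc_eq, same_iff]
  refine ⟨(-2 * c : ZMod (2 * n + 1)).val, (sp_pw n hn _).2, ?_⟩
  funext x
  rw [(sp_pw n hn _).1, ZMod.natCast_zmod_val]
  congr 1
  have h2 := Ring1.two_n n
  push_cast at h2
  linear_combination (c : ZMod (2 * n + 1)) * h2

/-- **the form of a hop of reduced T-cycles** -/
theorem edge_form (hn : 1 ≤ n) {U U₂ : Cyc j} (hU : Rd U = ⟨n, cyc (pwX n)⟩) (h : HopC U U₂) :
    ∃ (Φ : ZMod (2 * n + 1) → ℕ) (h1 : n + pkn (pwX n).1 + ∑ x, adj Φ (-1) x = j)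
      (h2 : n + pkn (pwX n).1 + ∑ x, adj Φ 0 x = j),
      (U = cyc (phi (pwX n) (adj Φ (-1)) h1) ∧ U₂ = cyc (phi (pwX n) (adj Φ 0) h2)) ∨
      (U₂ = cyc (phi (pwX n) (adj Φ (-1)) h1) ∧ U = cyc (phi (pwX n) (adj Φ 0) h2)) := by
  obtain ⟨j', hj', u0, b, b', hb, hb', hop, rfl, rfl⟩ := h
  have h3 : Rd (cyc (phi u0 b hb)) = ⟨j', cyc u0⟩ := Rd_ins (e := lf b) (lf_length b) rfl
  rw [h3] at hU
  obtain rfl : j' = n := congrArg Sigma.fst hU
  have h4 : cyc u0 = cyc (pwX j') := eq_of_heq (Sigma.mk.inj_iff.1 hU).2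
  obtain ⟨i, hi⟩ := sameCycle_nat (cyc_eq.1 h4.symm)
  rw [(sp_pw j' hn i).2] at hi
  subst hi
  obtain ⟨f, x, h5⟩ := hop_form hj' hop
  have e1 : ∀ y : ZMod (2 * j' + 1), Rot (fun z => f z + if z = x + 1 + y then 1 else 0)
      (adj (fun z => f (z + (x + 1))) y) := by
    intro y
    refine ⟨x + 1, ?_⟩
    funext z
    change f (z + (x + 1)) + (if z = y then 1 else 0) = f (z + (x + 1)) + (if z + (x + 1) = x + 1 + y then 1 else 0)
    have : z = y ↔ z + (x + 1) = x + 1 + y := by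
      constructor
      · rintro rfl; ring
      · intro h; linear_combination h
    simp only [this]
  have e2 := e1 (-1)
  have e3 := e1 0
  rw [show x + 1 + -1 = x by ring] at e2
  rw [add_zero] at e3
  rcases h5 with ⟨rfl, rfl⟩ | ⟨rfl, rfl⟩
  · exact ⟨_, by rw [← e2.sum]; exact hb, by rw [← e3.sum]; exact hb', Or.inl ⟨cyc_rot hn e2 _ _, cyc_rot hn e3 _ _⟩⟩
  · exact ⟨_, by rw [← e2.sum]; exact hb', by rw [← e3.sum]; exact hb, Or.inr ⟨cyc_rot hn e2 _ _, cyc_rot hn e3 _ _⟩⟩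

theorem sum_adj (Φ : ZMod (2 * n + 1) → ℕ) (x : ZMod (2 * n + 1)) : ∑ z, adj Φ x z = ∑ z, Φ z + 1 := by
  unfold adj
  rw [Finset.sum_add_distrib]
  simp

theorem sum_pil (c : ℕ) (y : ZMod (2 * n + 1)) : ∑ z, pil c y z = c := by
  unfold pil
  simp

/-- the edges with a gadget: `a = 2`: `Φ = δ_(-1-d)`, `d < n`; `a ≥ 3`: `Φ` is not `c δ_0` -/
def Al (n : ℕ) (Φ : ZMod (2 * n + 1) → ℕ) : Prop :=
  (∃ d : ℕ, d + 1 ≤ n ∧ Φ = pil 1 (-1 - (d : ZMod (2 * n + 1)))) ∨ (2 ≤ ∑ x, Φ x ∧ ¬ ∃ c, Φ = pil c 0)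

/-- the edge which is not used -/
def Fb (n : ℕ) (U U₂ : Cyc j) : Prop :=
  ∃ (c : ℕ) (h1 : n + pkn (pwX n).1 + ∑ x : ZMod (2 * n + 1), adj (pil c 0) (-1) x = j)
    (h2 : n + pkn (pwX n).1 + ∑ x : ZMod (2 * n + 1), adj (pil c 0) 0 x = j),
    U = cyc (phi (pwX n) (adj (pil c 0) (-1)) h1) ∧ U₂ = cyc (phi (pwX n) (adj (pil c 0) 0) h2)

/-- the pairs of the class are typed -/
def ExL1 (k n : ℕ) (T : Set (Cyc k) → Prop) : Prop :=
  ∀ Φ : ZMod (2 * n + 1) → ℕ, 1 ≤ ∑ x, Φ x → n + 5 + 2 * ∑ x, Φ x = k → ¬ Rot (adj Φ (-1)) (adj Φ 0) → Al n Φ →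
    ∀ z z' : X k, Ov n (adj Φ (-1)) z.1 → Ov n (adj Φ 0) z'.1 → T {cyc z, cyc z'}

/-- reflection, `a = 2` -/
theorem refl2 (y : ZMod (2 * n + 1)) : Rot (adj (pil 1 y) 0) (adj (pil 1 (-1 - y)) (-1)) ∧
    Rot (adj (pil 1 y) (-1)) (adj (pil 1 (-1 - y)) 0) := by
  constructor
  · refine ⟨y + 1, ?_⟩
    funext x
    change (if x = -1 - y then 1 else 0) + (if x = -1 then 1 else 0) =
      (if x + (y + 1) = y then 1 else 0) + (if x + (y + 1) = 0 then 1 else 0)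
    have e1 : x = -1 - y ↔ x + (y + 1) = 0 := by
      constructor
      · rintro rfl; ring
      · intro h; linear_combination h
    have e2 : x = -1 ↔ x + (y + 1) = y := by
      constructor
      · rintro rfl; ring
      · intro h; linear_combination h
    simp only [e1, e2]
    omega
  · refine ⟨y, ?_⟩
    funext x
    change (if x = -1 - y then 1 else 0) + (if x = 0 then 1 else 0) =
      (if x + y = y then 1 else 0) + (if x + y = -1 then 1 else 0)
    have e1 : x = -1 - y ↔ x + y = -1 := by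
      constructor
      · rintro rfl; ring
      · intro h; linear_combination h
    have e2 : x = 0 ↔ x + y = y := by
      constructor
      · rintro rfl; ring
      · intro h; linear_combination h
    simp only [e1, e2]
    omega

/-- **the pairs over the hops are typed** -/
theorem edge_ty (hn : 1 ≤ n) (ha : 2 ≤ a) (hk : n + 3 + 2 * a = k) {T : Set (Cyc k) → Prop} (hEx : ExL1 k n T)
    {U U₂ : Cyc (n + 1 + a)} (hU : Rd U = ⟨n, cyc (pwX n)⟩) (hne : U ≠ U₂) (hop : HopC U U₂)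
    (hnf : 3 ≤ a → ¬ Fb n U U₂ ∧ ¬ Fb n U₂ U) :
    ∃ p q : Cyc k, Rd p = ⟨n + 1 + a, U⟩ ∧ Rd q = ⟨n + 1 + a, U₂⟩ ∧ T {p, q} := by
  obtain ⟨Φ, h1, h2, hform⟩ := edge_form hn hU hop
  have hpw := Ring1.pk_pwX hn
  have hs : ∑ x, Φ x + 1 = a := by
    have := sum_adj Φ 0
    omega
  -- the main construction
  have main : ∀ (Ψ : ZMod (2 * n + 1) → ℕ), ∑ x, Ψ x + 1 = a → Al n Ψ →
      ∀ (g1 : n + pkn (pwX n).1 + ∑ x, adj Ψ (-1) x = n + 1 + a) (g2 : n + pkn (pwX n).1 + ∑ x, adj Ψ 0 x = n + 1 + a)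
        (V V₂ : Cyc (n + 1 + a)), V ≠ V₂ → V = cyc (phi (pwX n) (adj Ψ (-1)) g1) → V₂ = cyc (phi (pwX n) (adj Ψ 0) g2) →
      ∃ p q : Cyc k, Rd p = ⟨n + 1 + a, V⟩ ∧ Rd q = ⟨n + 1 + a, V₂⟩ ∧ T {p, q} := by
    intro Ψ hsΨ hAl g1 g2 V V₂ hV e1 e2
    have s1 := sum_adj Ψ (-1)
    have s2 := sum_adj Ψ 0
    obtain ⟨z, hz⟩ := exists_Ov (k := k) hn (adj Ψ (-1)) (by omega)
    obtain ⟨z', hz'⟩ := exists_Ov (k := k) hn (adj Ψ 0) (by omega)
    refine ⟨cyc z, cyc z', by rw [ov_rdw hn hz g1, e1], by rw [ov_rdw hn hz' g2, e2], ?_⟩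
    refine hEx Ψ (by omega) (by omega) (fun hr => hV ?_) hAl z z' hz hz'
    rw [e1, e2]
    exact cyc_rot hn hr g1 g2
  have swap : (∃ p q : Cyc k, Rd p = ⟨n + 1 + a, U₂⟩ ∧ Rd q = ⟨n + 1 + a, U⟩ ∧ T {p, q}) →
      ∃ p q : Cyc k, Rd p = ⟨n + 1 + a, U⟩ ∧ Rd q = ⟨n + 1 + a, U₂⟩ ∧ T {p, q} := by
    rintro ⟨p, q, hp, hq, ht⟩
    exact ⟨q, p, hq, hp, by rw [Set.pair_comm]; exact ht⟩
  rcases Nat.lt_or_ge 2 a with ha3 | ha3
  · -- `a ≥ 3`
    have hAl : Al n Φ := by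
      right
      refine ⟨by omega, ?_⟩
      rintro ⟨c, rfl⟩
      rcases hform with ⟨e1, e2⟩ | ⟨e1, e2⟩
      · exact (hnf ha3).1 ⟨c, h1, h2, e1, e2⟩
      · exact (hnf ha3).2 ⟨c, h1, h2, e1, e2⟩
    rcases hform with ⟨e1, e2⟩ | ⟨e1, e2⟩
    · exact main Φ hs hAl h1 h2 U U₂ hne e1 e2
    · exact swap (main Φ hs hAl h1 h2 U₂ U hne.symm e1 e2)
  · -- `a = 2`
    obtain rfl : a = 2 := by omega
    obtain ⟨y, hy⟩ := one_of_sum (show ∑ x, Φ x = 1 by omega)
    have hy' : Φ = pil 1 y := hy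
    subst hy'
    set d := (-1 - y : ZMod (2 * n + 1)).val with hd
    have hdl : d < 2 * n + 1 := ZMod.val_lt _
    have hyd : y = -1 - (d : ZMod (2 * n + 1)) := by
      rw [hd, ZMod.natCast_zmod_val]; ring
    by_cases hdn : d + 1 ≤ n
    · have hAl : Al n (pil 1 y) := Or.inl ⟨d, hdn, by rw [← hyd]⟩
      rcases hform with ⟨e1, e2⟩ | ⟨e1, e2⟩
      · exact main _ hs hAl h1 h2 U U₂ hne e1 e2
      · exact swap (main _ hs hAl h1 h2 U₂ U hne.symm e1 e2)
    · -- reflect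
      obtain ⟨r1, r2⟩ := refl2 y
      have hL : ((2 * n + 1 : ℕ) : ZMod (2 * n + 1)) = 0 := ZMod.natCast_self _
      have g1 : n + pkn (pwX n).1 + ∑ x, adj (pil 1 (-1 - y)) (-1) x = n + 1 + 2 := by rw [← r1.sum]; exact h2
      have g2 : n + pkn (pwX n).1 + ∑ x, adj (pil 1 (-1 - y)) 0 x = n + 1 + 2 := by rw [← r2.sum]; exact h1
      have c1 := cyc_rot hn r1 h2 g1
      have c2 := cyc_rot hn r2 h1 g2
      have hd' : (-1 - y : ZMod (2 * n + 1)) = -1 - ((2 * n - d : ℕ) : ZMod (2 * n + 1)) := by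
        rw [Nat.cast_sub (by omega), hyd]
        push_cast at hL ⊢
        linear_combination hL
      by_cases hdn' : d = n
      · -- the two T-cycles are equal
        exfalso
        have hyy : -1 - y = y := by
          rw [hyd, hdn']
          push_cast at hL ⊢
          linear_combination hL
        apply hne
        have c3 : cyc (phi (pwX n) (adj (pil 1 y) 0) h2) = cyc (phi (pwX n) (adj (pil 1 y) (-1)) h1) := by
          refine cyc_rot hn ?_ h2 h1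
          have := r1
          rwa [hyy] at this
        rcases hform with ⟨e1, e2⟩ | ⟨e1, e2⟩
        · rw [e1, e2, c3]
        · rw [e1, e2, c3]
      · have hAl : Al n (pil 1 (-1 - y)) := Or.inl ⟨2 * n - d, by omega, by rw [hd']⟩
        have hs' : ∑ x, pil 1 (-1 - y) x + 1 = 2 := by rw [sum_pil]
        rcases hform with ⟨e1, e2⟩ | ⟨e1, e2⟩
        · exact swap (main _ hs' hAl g1 g2 U₂ U hne.symm (by rw [e2, c1]) (by rw [e1, c2]))
        · exact main _ hs' hAl g1 g2 U U₂ hne (by rw [e2, c1]) (by rw [e1, c2])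

/-- equal T-cycles are rotations -/
theorem rot_of_cyc {hj : n + pkn (pwX n).1 + ∑ x, G x = j} {hj' : n + pkn (pwX n).1 + ∑ x, G' x = j}
    (h : cyc (phi (pwX n) G hj) = cyc (phi (pwX n) G' hj')) : Rot G G' := by
  rw [cyc_eq, same_iff] at h
  obtain ⟨i, _, h2⟩ := h
  exact ⟨_, h2⟩

/-- pile or the near pile on its left -/
def NP (n : ℕ) (U : Cyc j) : Prop :=
  ∃ (G : ZMod (2 * n + 1) → ℕ) (hj : n + pkn (pwX n).1 + ∑ x, G x = j) (c : ℕ) (y : ZMod (2 * n + 1)),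
    (G = pil c y ∨ G = adj (pil c y) (y - 1)) ∧ U = cyc (phi (pwX n) G hj)

/-- a guest `pile` or `near pile` is an end of the unused edge -/
theorem Fb.np (hn : 1 ≤ n) {V W U0 : Cyc j} (h : Fb n V W) (h0 : NP n U0) : V = U0 ∨ W = U0 := by
  obtain ⟨c, h1, h2, rfl, rfl⟩ := h
  obtain ⟨G, hj, c', y, hG, rfl⟩ := h0
  have hpw := Ring1.pk_pwX hn
  have s1 := sum_adj (pil c (0 : ZMod (2 * n + 1))) (-1)
  rw [sum_pil] at s1
  rcases hG with rfl | rfl
  · right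
    have s2 := sum_pil c' y
    obtain rfl : c' = c + 1 := by omega
    refine (cyc_rot hn ⟨y, ?_⟩ hj h2).symm
    funext x
    change (if x = 0 then c else 0) + (if x = 0 then 1 else 0) = if x + y = y then c + 1 else 0
    have e : x + y = y ↔ x = 0 := add_eq_right
    simp only [e]
    split_ifs <;> omega
  · left
    have s2 := sum_adj (pil c' y) (y - 1)
    rw [sum_pil] at s2
    obtain rfl : c' = c := by omega
    refine (cyc_rot hn ⟨y, ?_⟩ hj h1).symm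
    funext x
    change (if x = 0 then c' else 0) + (if x = -1 then 1 else 0) =
      (if x + y = y then c' else 0) + (if x + y = y - 1 then 1 else 0)
    have e : x + y = y ↔ x = 0 := add_eq_right
    have e2 : x + y = y - 1 ↔ x = -1 := by
      constructor
      · intro h; linear_combination h
      · rintro rfl; ring
    simp only [e, e2]

theorem count_over (hn : 1 ≤ n) {U : Cyc (n + 1 + a)} (hU : Rd U = ⟨n, cyc (pwX n)⟩) : (contc U).count 1 = a := by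
  obtain ⟨F, hF, rfl⟩ := Hole2.exists_F U hU
  have hpw := Ring1.pk_pwX hn
  have h1 : ∑ x, F x = a := by omega
  rw [contc_cyc]
  change (cont (ins (pwX n).1 (lf F))).count 1 = a
  rw [count_one_ins _ _ (by rw [lf_length, X_num]), lf_sum, h1]

/-- odd class: one guest -/
theorem inv_odd (hn : 1 ≤ n) {U0 : Cyc (n + 1 + a)} (hU0 : Rd U0 = ⟨n, cyc (pwX n)⟩) (ho : oddF n a)
    (h2 : a = 2 → IsTwo U0) (h3 : 3 ≤ a → NP n U0) :
    ∃ I : Cyc (n + 1 + a) → Cyc (n + 1 + a), ∀ U, Rd U = ⟨n, cyc (pwX n)⟩ → Rd (I U) = ⟨n, cyc (pwX n)⟩ ∧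
      I (I U) = U ∧ (I U = U ∨ HopC U (I U)) ∧ (I U = U ↔ U = U0) ∧
      (3 ≤ a → I U ≠ U → ¬ Fb n U (I U) ∧ ¬ Fb n (I U) U) := by
  have hc := count_over hn hU0
  obtain ⟨I, hI⟩ := remOK_lo ⟨n, cyc (pwX n)⟩ U0 hU0 (fun h _ => h2 (by rw [← hc, h]))
  have hfix : ∀ U, Rd U = ⟨n, cyc (pwX n)⟩ → (I U = U ↔ U = U0) := by
    intro U hU
    rw [(hI U hU).2.2.2]
    change U = U0 ∧ oddF n ((contc U0).count 1) ↔ U = U0
    rw [hc]
    exact ⟨fun h => h.1, fun h => ⟨h, ho⟩⟩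
  refine ⟨I, fun U hU => ⟨(hI U hU).1, (hI U hU).2.1, (hI U hU).2.2.1, hfix U hU, fun h4 h5 => ?_⟩⟩
  have key : U ≠ U0 ∧ I U ≠ U0 := by
    refine ⟨fun h => h5 ((hfix U hU).2 h), fun h => h5 ?_⟩
    have h6 := (hfix (I U) (hI U hU).1).2 h
    rw [(hI U hU).2.1] at h6
    exact h6.symm
  constructor
  · intro h
    rcases h.np hn (h3 h4) with h | h
    · exact key.1 h
    · exact key.2 h
  · intro h
    rcases h.np hn (h3 h4) with h | h
    · exact key.2 h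
    · exact key.1 h

/-- even class -/
theorem inv_even (hn : 1 ≤ n) (ha : 2 ≤ a) (ho : ¬ oddF n a) :
    ∃ I : Cyc (n + 1 + a) → Cyc (n + 1 + a), ∀ U, Rd U = ⟨n, cyc (pwX n)⟩ → Rd (I U) = ⟨n, cyc (pwX n)⟩ ∧
      I (I U) = U ∧ (I U = U ∨ HopC U (I U)) ∧ I U ≠ U ∧
      (3 ≤ a → I U ≠ U → ¬ Fb n U (I U) ∧ ¬ Fb n (I U) U) := by
  classical
  have hpw := Ring1.pk_pwX hn
  rcases Nat.lt_or_ge 2 a with ha3 | ha3
  · have hs0 := sum_pil a (0 : ZMod (2 * n + 1))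
    have hs1 := sum_adj (pil (a - 1) (0 : ZMod (2 * n + 1))) 1
    rw [sum_pil] at hs1
    have g0 : n + pkn (pwX n).1 + ∑ x, pil a (0 : ZMod (2 * n + 1)) x = n + 1 + a := by omega
    have g1 : n + pkn (pwX n).1 + ∑ x, adj (pil (a - 1) (0 : ZMod (2 * n + 1))) 1 x = n + 1 + a := by omega
    set P0 : Cyc (n + 1 + a) := cyc (phi (pwX n) (pil a 0) g0) with hP0
    set P1 : Cyc (n + 1 + a) := cyc (phi (pwX n) (adj (pil (a - 1) 0) 1) g1) with hP1
    obtain ⟨I, hI⟩ := remOK_py (k := n + 1 + a) hn (u := pwX n) (m := a) ha3 (x := 0) (y := 1) (Or.inl (zero_add 1).symm)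
      (p := phi (pwX n) (pil a 0) g0) (q := phi (pwX n) (adj (pil (a - 1) 0) 1) g1) rfl rfl ho
    have rd0 : Rd P0 = ⟨n, cyc (pwX n)⟩ := Rd_ins (e := lf _) (lf_length _) rfl
    have rd1 : Rd P1 = ⟨n, cyc (pwX n)⟩ := Rd_ins (e := lf _) (lf_length _) rfl
    have hLne : (1 : ZMod (2 * n + 1)) ≠ 0 := by
      have : Fact (1 < 2 * n + 1) := ⟨by omega⟩
      exact one_ne_zero
    have h2ne : (-1 : ZMod (2 * n + 1)) ≠ 1 := by
      intro h
      have h4 : ((2 : ℕ) : ZMod (2 * n + 1)) = 0 := by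
        push_cast
        linear_combination -h
      rw [ZMod.natCast_eq_zero_iff] at h4
      have := Nat.le_of_dvd (by norm_num) h4
      omega
    have h10 : P0 ≠ P1 := by
      intro h
      obtain ⟨t, ht⟩ := rot_of_cyc h
      have h4 := congrFun ht 1
      change (if (1 : ZMod (2 * n + 1)) = 0 then a - 1 else 0) + (if (1 : ZMod (2 * n + 1)) = 1 then 1 else 0) =
        if 1 + t = 0 then a else 0 at h4
      rw [if_neg hLne, if_pos rfl] at h4
      split_ifs at h4 <;> omega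
    have hm : ∀ U, Rd U = ⟨n, cyc (pwX n)⟩ → (I U = U ↔ U = P0 ∨ U = P1) := by
      intro U hU
      rw [(hI U hU).2.2.2]
      rfl
    have hhop : HopC P0 P1 := by
      refine ⟨n, hn, pwX n, pil a 0, adj (pil (a - 1) 0) 1, g0, g1, ⟨0, 1, Or.inl (zero_add 1).symm, fun z => ?_⟩, rfl, rfl⟩
      change (if z = 0 then a else 0) + (if 1 = z then 1 else 0) =
        ((if z = 0 then a - 1 else 0) + (if z = 1 then 1 else 0)) + (if 0 = z then 1 else 0)
      by_cases hz : z = 0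
      · subst hz
        rw [if_pos rfl, if_pos rfl, if_pos rfl, if_neg hLne, if_neg hLne.symm]
        omega
      · have hz' : ¬ (0 : ZMod (2 * n + 1)) = z := fun h => hz h.symm
        by_cases h1z : z = 1
        · simp only [if_neg hz, if_neg hz', if_pos h1z, if_pos h1z.symm]
        · have h1z' : ¬ (1 : ZMod (2 * n + 1)) = z := fun h => h1z h.symm
          simp only [if_neg hz, if_neg hz', if_neg h1z, if_neg h1z']
    let J : Cyc (n + 1 + a) → Cyc (n + 1 + a) := fun U => if U = P0 then P1 else if U = P1 then P0 else I U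
    have J0 : J P0 = P1 := by simp only [J, if_true]
    have J1 : J P1 = P0 := by simp only [J, h10.symm, if_false, if_true]
    have J2 : ∀ U, U ≠ P0 → U ≠ P1 → J U = I U := by
      intro U h1 h2
      simp only [J, h1, h2, if_false]
    have hIn : ∀ U, Rd U = ⟨n, cyc (pwX n)⟩ → U ≠ P0 → U ≠ P1 → I U ≠ P0 ∧ I U ≠ P1 := by
      intro U hU h1 h2
      constructor
      · intro h
        have h3 := (hm P0 rd0).2 (Or.inl rfl)
        rw [← h, (hI U hU).2.1, h] at h3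
        exact h1 h3
      · intro h
        have h3 := (hm P1 rd1).2 (Or.inr rfl)
        rw [← h, (hI U hU).2.1, h] at h3
        exact h2 h3
    have hJ : ∀ U, Rd U = ⟨n, cyc (pwX n)⟩ → Rd (J U) = ⟨n, cyc (pwX n)⟩ ∧ J (J U) = U ∧ HopC U (J U) ∧ J U ≠ U := by
      intro U hU
      by_cases h1 : U = P0
      · subst h1
        rw [J0, J1]
        exact ⟨rd1, rfl, hhop, h10.symm⟩
      · by_cases h2 : U = P1
        · subst h2
          rw [J1, J0]
          exact ⟨rd0, rfl, hhop.symm', h10⟩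
        · obtain ⟨h3, h4⟩ := hIn U hU h1 h2
          rw [J2 U h1 h2, J2 _ h3 h4]
          have h5 : I U ≠ U := fun h => ((hm U hU).1 h).elim h1 h2
          exact ⟨(hI U hU).1, (hI U hU).2.1, (hI U hU).2.2.1.resolve_left h5, h5⟩
    have hFb : ∀ U, Rd U = ⟨n, cyc (pwX n)⟩ → ∀ V, J V = U → Rd V = ⟨n, cyc (pwX n)⟩ → ¬ Fb n V U := by
      intro U hU V hV hVr h
      obtain ⟨c, e1, e2, e3, e4⟩ := h
      have s1 := sum_adj (pil c (0 : ZMod (2 * n + 1))) 0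
      rw [sum_pil] at s1
      have hc : c + 1 = a := by omega
      have h5 : U = P0 := by
        rw [e4, hP0]
        apply cyc_rot hn
        refine ⟨0, ?_⟩
        funext x
        rw [add_zero]
        change (if x = 0 then a else 0) = (if x = 0 then c else 0) + (if x = 0 then 1 else 0)
        split_ifs <;> omega
      have h6 : V = P1 := by
        have h7 := (hJ V hVr).2.1
        rw [hV, h5, J0] at h7
        exact h7.symm
      rw [e3, hP1] at h6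
      obtain ⟨t, ht⟩ := rot_of_cyc h6
      have h8 := congrFun ht 0
      change (if (0 : ZMod (2 * n + 1)) = 0 then a - 1 else 0) + (if (0 : ZMod (2 * n + 1)) = 1 then 1 else 0) =
        (if 0 + t = 0 then c else 0) + (if 0 + t = -1 then 1 else 0) at h8
      rw [if_pos rfl, if_neg hLne.symm, zero_add] at h8
      have ht0 : t = 0 := by
        by_contra hne
        rw [if_neg hne] at h8
        split_ifs at h8 <;> omega
      subst ht0
      have h9 := congrFun ht 1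
      change (if (1 : ZMod (2 * n + 1)) = 0 then a - 1 else 0) + (if (1 : ZMod (2 * n + 1)) = 1 then 1 else 0) =
        (if 1 + (0 : ZMod (2 * n + 1)) = 0 then c else 0) + (if 1 + (0 : ZMod (2 * n + 1)) = -1 then 1 else 0) at h9
      rw [add_zero, if_neg hLne, if_pos rfl, if_neg hLne, if_neg h2ne.symm] at h9
      omega
    refine ⟨J, fun U hU => ⟨(hJ U hU).1, (hJ U hU).2.1, Or.inr (hJ U hU).2.2.1, (hJ U hU).2.2.2, fun _ _ => ⟨?_, ?_⟩⟩⟩
    · exact hFb (J U) (hJ U hU).1 U rfl hU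
    · exact hFb U hU (J U) (hJ U hU).2.1 (hJ U hU).1
  · obtain rfl : a = 2 := by omega
    obtain ⟨I, hI⟩ := remOK_even (k := n + 1 + 2) ⟨n, cyc (pwX n)⟩ 2 (fun p hp => count_over hn hp) ho
    refine ⟨I, fun U hU => ⟨(hI U hU).1, (hI U hU).2.1, (hI U hU).2.2.1, ?_, fun h => absurd h (by norm_num)⟩⟩
    intro h
    exact absurd ((hI U hU).2.2.2.1 h) (Set.notMem_empty _)

end L1

namespace Hole2

variable {τp τw : Type} {Pp : τp → Set (Cyc k) → DG k → Prop} {Pw : τw → Set (Cyc k) → DG k → Prop}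
  {AE : Cyc k → Cyc k → Prop}

open L1

/-- **THE CLASS `(n + 2, 2^a, 1)`**, `a ≥ 2` -/
theorem cls_m1 (hn : 1 ≤ n) (ha : 2 ≤ a) {p0 : Cyc k}
    (hp0 : contc p0 = ({n + 2} + Multiset.replicate a 2) + Multiset.replicate 1 1)
    (hEx : ExL1 k n (Typd Pp Pw)) (X D : Set (Cyc k)) (hX : ∀ c, cl c = cl p0 → (c ∈ X ↔ c ∈ D))
    (hD : (D = ∅ ∧ ¬ oddF n a) ∨ ∃ z, D = {z} ∧ oddF n a ∧ cl z = cl p0 ∧
      (a = 2 → ∀ U : Cyc (n + 1 + a), Rd z = ⟨n + 1 + a, U⟩ → IsTwo U) ∧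
      (3 ≤ a → ∀ U : Cyc (n + 1 + a), Rd z = ⟨n + 1 + a, U⟩ → NP n U)) :
    ∃ Gp Gw, ClsOK AE (cl p0) X Gp Gw Pp Pw := by
  obtain ⟨hk0, U1, hp1, hU1, hcU1⟩ := cls_dataM hn hp0
  have hpw := Ring1.pk_pwX hn
  -- one T-cycle over every reduced T-cycle
  have uq : ∀ U : Cyc (n + 1 + a), Rd U = Rd U1 → ∀ c c' : Cyc k, Rd c = ⟨n + 1 + a, U⟩ → Rd c' = ⟨n + 1 + a, U⟩ →
      c = c' := by
    intro U hU c c' hc hc'
    obtain ⟨F, hF, rfl⟩ := Hole2.exists_F U (hU.trans hU1)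
    obtain ⟨w, hw⟩ := exists_Ov (k := k) hn F (by omega)
    rw [ov_uniq hn hw hF hc, ov_uniq hn hw hF hc']
  have main : ∀ I : Cyc (n + 1 + a) → Cyc (n + 1 + a),
      (∀ U, Rd U = ⟨n, cyc (pwX n)⟩ → Rd (I U) = ⟨n, cyc (pwX n)⟩ ∧ I (I U) = U ∧ (I U = U ∨ HopC U (I U)) ∧
        (3 ≤ a → I U ≠ U → ¬ Fb n U (I U) ∧ ¬ Fb n (I U) U)) →
      (∀ U, Rd U = ⟨n, cyc (pwX n)⟩ → I U ≠ U → ∀ c : Cyc k, Rd c = ⟨n + 1 + a, U⟩ → c ∉ D) →
      (∀ U, Rd U = ⟨n, cyc (pwX n)⟩ → I U = U → ∀ c : Cyc k, Rd c = ⟨n + 1 + a, U⟩ → c ∈ D) →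
      ∃ Gp Gw, ClsOK AE (cl p0) X Gp Gw Pp Pw := by
    intro I hI h1 h2
    refine cls_of_inv' hp1 X I (fun U hU => ?_) ?_ ?_
    · obtain ⟨e1, e2, _⟩ := hI U (hU.trans hU1)
      exact ⟨e1.trans hU1.symm, e2⟩
    · intro U hU hne
      right
      obtain ⟨e1, e2, e3, e4⟩ := hI U (hU.trans hU1)
      have hne' : I (I U) ≠ I U := by
        rw [e2]; exact fun h => hne h.symm
      obtain ⟨p, q, hp, hq, ht⟩ := edge_ty (k := k) hn ha (by omega) hEx (hU.trans hU1) (fun h => hne h.symm)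
        (e3.resolve_left hne) (fun h => e4 h hne)
      have hpX : p ∉ X := fun h => h1 U (hU.trans hU1) hne p hp ((hX p (cl_same hp1 hp hU)).1 h)
      have hqX : q ∉ X := fun h => h1 (I U) e1 hne' q hq ((hX q (cl_same hp1 hq (e1.trans hU1.symm))).1 h)
      refine ⟨p, q, hp, hq, hpX, hqX, ht, ?_, ?_⟩
      · exact remA_all AE _ _ fun c hc => Or.inl (uq U hU c p hc hp)
      · exact remA_all AE _ _ fun c hc => Or.inl (uq (I U) (e1.trans hU1.symm) c q hc hq)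
    · intro U hU hf
      refine ⟨∅, fun F h => absurd h (Set.notMem_empty _), fun F h => absurd h (Set.notMem_empty _), ?_⟩
      exact remA_all AE _ _ fun c hc => Or.inr ((hX c (cl_same hp1 hc hU)).2 (h2 U (hU.trans hU1) hf c hc))
  rcases hD with ⟨rfl, ho⟩ | ⟨z, rfl, ho, hz, hz2, hz3⟩
  · obtain ⟨I, hI⟩ := inv_even hn ha ho
    refine main I (fun U hU => ?_) (fun _ _ _ _ _ => Set.notMem_empty _) (fun U hU h => absurd h (hI U hU).2.2.2.1)
    obtain ⟨e1, e2, e3, _, e5⟩ := hI U hU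
    exact ⟨e1, e2, e3, e5⟩
  · obtain ⟨h1, h2⟩ := cl_iff.1 hz
    rw [hp1] at h1 h2
    obtain ⟨U0, hU0⟩ : ∃ U0 : Cyc (n + 1 + a), Rd z = ⟨n + 1 + a, U0⟩ := by
      revert h1
      generalize Rd z = dz
      intro h1
      obtain ⟨i, U⟩ := dz
      change i = n + 1 + a at h1
      subst h1
      exact ⟨U, rfl⟩
    rw [hU0] at h2
    change Rd U0 = Rd U1 at h2
    obtain ⟨I, hI⟩ := inv_odd hn (h2.trans hU1) ho (fun h => hz2 h U0 hU0) (fun h => hz3 h U0 hU0)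
    refine main I (fun U hU => ?_) ?_ ?_
    · obtain ⟨e1, e2, e3, _, e5⟩ := hI U hU
      exact ⟨e1, e2, e3, e5⟩
    · intro U hU hne c hc h
      rw [Set.mem_singleton_iff] at h
      subst h
      rw [hU0] at hc
      exact hne ((hI U hU).2.2.2.1.2 (eq_of_heq (Sigma.mk.inj_iff.1 hc).2).symm)
    · intro U hU hf c hc
      rw [Set.mem_singleton_iff]
      have h3 := (hI U hU).2.2.2.1.1 hf
      subst h3
      exact uq U h2 c z hc hU0

end Hole2

end Pool.OddHC
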