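import Pool.Agent.Work.MP_8f87b2_h26.TyL1
import Pool.Agent.Work.MP_8f87b2_h86.ClsL1

/-!
# MP_8f87b2_co: the class `(n + 2, 2^a, 1)` with the type L1

`rule_two`: the rule for `a = 2`. `exL1_all`: every edge of `Al` has a gadget of type L1. `cls_L1`: the class.
-/

set_option autoImplicit false

namespace Pool.OddHC

open Finset Equiv BinaryTree Multiset Pool.OddHop Pool.Agent.Work.MP_8f87b2_co

variable {k n a j : ℕ}

namespace L1

/-- two squares at the distance `d` -/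
def s2 (n d : ℕ) : ℕ := Sq (adj (pil 1 (0 : ZMod (2 * n + 1))) (d : ZMod (2 * n + 1)))

theorem rot_s2 (n : ℕ) (d : ZMod (2 * n + 1)) (y : ZMod (2 * n + 1)) : Rot (adj (pil 1 y) (y + d)) (adj (pil 1 0) d) := by
  refine ⟨y, ?_⟩
  funext x
  change (if x = 0 then 1 else 0) + (if x = d then 1 else 0) = (if x + y = y then 1 else 0) + (if x + y = y + d then 1 else 0)
  have e1 : x + y = y ↔ x = 0 := add_eq_right
  have e2 : x + y = y + d ↔ x = d := by
    rw [add_comm x y]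
    exact add_left_cancel_iff
  simp only [e1, e2]

theorem s2_symm (hn : 1 ≤ n) : s2 n (n + 1) = s2 n n := by
  unfold s2
  have h1 : Rot (adj (pil 1 (0 : ZMod (2 * n + 1))) ((n : ℕ) : ZMod (2 * n + 1)))
      (adj (pil 1 (0 : ZMod (2 * n + 1))) (-((n : ℕ) : ZMod (2 * n + 1)))) := by
    refine ⟨(n : ZMod (2 * n + 1)), ?_⟩
    funext x
    change (if x = 0 then 1 else 0) + (if x = -(n : ZMod (2 * n + 1)) then 1 else 0) =
      (if x + n = 0 then 1 else 0) + (if x + n = (n : ZMod (2 * n + 1)) then 1 else 0)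
    have e1 : x + n = 0 ↔ x = -(n : ZMod (2 * n + 1)) := add_eq_zero_iff_eq_neg
    have e2 : x + n = (n : ZMod (2 * n + 1)) ↔ x = 0 := add_eq_right
    simp only [e1, e2]
    omega
  have h2 : ((n + 1 : ℕ) : ZMod (2 * n + 1)) = -((n : ℕ) : ZMod (2 * n + 1)) := by
    have hL : ((2 * n + 1 : ℕ) : ZMod (2 * n + 1)) = 0 := ZMod.natCast_self _
    push_cast at hL ⊢
    linear_combination hL
  rw [h2, h1.Sq]

theorem cast_ne {d : ℕ} (h0 : 1 ≤ d) (h1 : d < 2 * n + 1) : (d : ZMod (2 * n + 1)) ≠ 0 := by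
  intro h
  rw [ZMod.natCast_eq_zero_iff] at h
  have := Nat.le_of_dvd h0 h
  omega

theorem s2_le (hn : 1 ≤ n) : ∀ i d : ℕ, d + i = n → s2 n (d + 1) ≤ s2 n d := by
  intro i
  induction i with
  | zero =>
    intro d hd
    obtain rfl : d = n := by omega
    exact (s2_symm hn).le
  | succ i ih =>
    intro d hd
    have h1 := ih (d + 1) (by omega)
    have h2 := convex (pil 1 (0 : ZMod (2 * n + 1))) ((d + 1 : ℕ) : ZMod (2 * n + 1))
      (if_neg (cast_ne (by omega) (by omega))) (by rw [sum_pil])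
    have e1 : ((d + 1 : ℕ) : ZMod (2 * n + 1)) - 1 = (d : ZMod (2 * n + 1)) := by push_cast; ring
    have e2 : ((d + 1 : ℕ) : ZMod (2 * n + 1)) + 1 = ((d + 1 + 1 : ℕ) : ZMod (2 * n + 1)) := by push_cast; ring
    rw [e1, e2] at h2
    change 2 * s2 n (d + 1) < s2 n d + s2 n (d + 1 + 1) at h2
    omega

/-- **the rule for `a = 2`** -/
theorem rule_two {d : ℕ} (hd : d + 1 ≤ n) : RuR n (pil 1 (-1 - (d : ZMod (2 * n + 1)))) := by
  rcases Nat.eq_zero_or_pos d with h0 | h0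
  · subst h0
    left
    change 1 ≤ if (-1 : ZMod (2 * n + 1)) = -1 - ((0 : ℕ) : ZMod (2 * n + 1)) then 1 else 0
    rw [if_pos (by push_cast; ring)]
  · right
    refine ⟨?_, ?_, ?_⟩
    · apply if_neg
      intro h
      exact cast_ne (n := n) h0 (by omega) (by linear_combination h)
    · apply if_neg
      intro h
      apply cast_ne (n := n) (d := d + 1) (by omega) (by omega)
      push_cast
      linear_combination h
    · have h1 := rot_s2 n (d : ZMod (2 * n + 1)) (-1 - (d : ZMod (2 * n + 1)))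
      have h2 := rot_s2 n ((d + 1 : ℕ) : ZMod (2 * n + 1)) (-1 - (d : ZMod (2 * n + 1)))
      have e1 : -1 - (d : ZMod (2 * n + 1)) + (d : ZMod (2 * n + 1)) = -1 := by ring
      have e2 : -1 - (d : ZMod (2 * n + 1)) + ((d + 1 : ℕ) : ZMod (2 * n + 1)) = 0 := by push_cast; ring
      rw [e1] at h1
      rw [e2] at h2
      rw [h1.Sq, h2.Sq]
      exact s2_le (by omega) (n - d) d (by omega)

/-- **every edge of `Al` has a gadget of type L1** -/
theorem exL1_all (hn : 1 ≤ n) {T : Set (Cyc k) → Prop} (hT : ∀ F g, TyL1 F g → T F) : ExL1 k n T := by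
  intro Φ h1 h2 h3 hAl z z' hz hz'
  have hb : Ba k n Φ := ⟨hn, h1, h2, h3⟩
  have hx : RuR n Φ ∨ RuM n Φ := by
    rcases hAl with ⟨d, hd, rfl⟩ | ⟨h4, h5⟩
    · exact Or.inl (rule_two hd)
    · refine rules h4 ?_
      by_contra hcon
      push Not at hcon
      apply h5
      refine ⟨Φ 0, ?_⟩
      funext x
      change Φ x = if x = 0 then Φ 0 else 0
      split_ifs with hx
      · rw [hx]
      · have := hcon x hx
        omega
  obtain ⟨g, hg⟩ := exL1 hb hx hz hz'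
  exact hT _ g hg

end L1

namespace Hole2

variable {τp τw : Type} {Pp : τp → Set (Cyc k) → DG k → Prop} {Pw : τw → Set (Cyc k) → DG k → Prop}
  {AE : Cyc k → Cyc k → Prop}

open L1

/-- **THE CLASS `(n + 2, 2^a, 1)` WITH TYPE L1**, `a ≥ 2` -/
theorem cls_L1 (hn : 1 ≤ n) (ha : 2 ≤ a) {p0 : Cyc k}
    (hp0 : contc p0 = ({n + 2} + Multiset.replicate a 2) + Multiset.replicate 1 1)
    (hT : ∀ F g, TyL1 F g → Typd Pp Pw F) (X D : Set (Cyc k)) (hX : ∀ c, cl c = cl p0 → (c ∈ X ↔ c ∈ D))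
    (hD : (D = ∅ ∧ ¬ oddF n a) ∨ ∃ z, D = {z} ∧ oddF n a ∧ cl z = cl p0 ∧
      (a = 2 → ∀ U : Cyc (n + 1 + a), Rd z = ⟨n + 1 + a, U⟩ → IsTwo U) ∧
      (3 ≤ a → ∀ U : Cyc (n + 1 + a), Rd z = ⟨n + 1 + a, U⟩ → NP n U)) :
    ∃ Gp Gw, ClsOK AE (cl p0) X Gp Gw Pp Pw :=
  cls_m1 hn ha hp0 (exL1_all hn hT) X D hX hD

end Hole2

end Pool.OddHC
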