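import Pool.Agent.Work.MP_8f87b2_h86.EEx
import Pool.Agent.Work.MP_8f87b2_h32.L1L

/-!
# MP_8f87b2_co: the existence side of type L, with the phase choice against type L1

`TyLG`: type L, no representation is bad (`L1.BadL`, h32/L1L). `tyLG_top`: existence (middle gap). `r1_genL`, `Hole2.cls_m2L`:
the general step and the class `(n + 2, 2^b, 1, 1)` with L pairs of type `TyLG` only. `TyL.dis_L1`: the row `L - L1`.
-/

set_option autoImplicit false

namespace Pool.OddHC

open Finset Equiv BinaryTree Multiset Pool.OddHop Pool.Agent.Work.MP_8f87b2_co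

variable {k n b j : ℕ}

/-- the word `Z` of an L triple is determined by the gadget -/
theorem IsTri.Z_inj {F : Set (Cyc k)} {g : DG k} {Z Z' : BinaryTree Unit} (h : IsTri (lp 1) Z (lp 1) F g)
    (h' : IsTri (lp 1) Z' (lp 1) F g) : Z = Z' := by
  have hw := h'.words
  obtain ⟨a, b, c, ha, hb, hc, h1, h2, h3, rfl, rfl⟩ := h
  have haF : cyc a ∉ ({cyc b, cyc c} : Set (Cyc k)) := by
    rintro (e | e)
    · rw [e] at h3; exact lt_irrefl _ h3
    · rw [e, h2] at h3; exact lt_irrefl _ h3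
  rcases hw a (by simp [pDG]) with e | ⟨e, _⟩
  · rw [ha] at e
    have e' : (.nil △ (Z △ (.nil △ .nil)) : BinaryTree Unit) = .nil △ (Z' △ (.nil △ .nil)) := e
    injection e' with _ _ e2
    injection e2
  · exact absurd e haF

/-- TYPE L, no representation is bad -/
def TyLG (F : Set (Cyc k)) (g : DG k) : Prop :=
  TyL F g ∧ ∀ Z, IsTri (lp 1) Z (lp 1) F g → ¬ L1.BadL Z

/-- the middle gap is not bad -/
theorem L1.mid_not_bad {R : BinaryTree Unit} {m : ℕ} (h3 : m = 2 → 3 ≤ R.numNodes) :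
    ¬ L1.BadL (ins R (midL R.numNodes (m - 1))) := by
  have hl := midL_length R.numNodes (m - 1)
  rintro ⟨n, b, hn, hb, hc, hp⟩
  have h1 : (cont (ins R (midL R.numNodes (m - 1)))).count 1 = m - 1 := by
    rw [count_one_ins R _ hl, midL_sum]
  rw [hc, Multiset.count_add, Multiset.count_add, Multiset.count_singleton, Multiset.count_replicate,
    Multiset.count_singleton, if_neg (by omega), if_neg (by omega), if_pos rfl] at h1
  have hm : m = 2 := by omega
  have h5 := h3 hm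
  subst hm
  rw [L1.ln_ins hl] at hp
  have h6 : (Ft.ps (ins R (midL R.numNodes (2 - 1)))).count R.numNodes = 1 := by
    rw [L1.ps_ins hl, L1.count_psl, if_pos (Nat.zero_le _), Nat.sub_zero, midL_getD, if_pos rfl]
  rcases hp with hp | hp | hp | hp
  all_goals
    rw [hp, List.count_cons, List.count_nil] at h6
    simp only [beq_iff_eq] at h6
    split_ifs at h6 <;> omega

/-- **TYPE LG EXISTS**, both members in the top row for `m = 2` -/
theorem tyLG_top {U U₂ : Cyc j} (hne : U ≠ U₂) (h : HopC U U₂) {m : ℕ} (hm : 1 ≤ m)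
    (hk : j + pkc U + m = k) (h4 : m = 2 → 4 ≤ j) : ∃ (p q : Cyc k) (g : DG k), Rd p = ⟨j, U⟩ ∧ Rd q = ⟨j, U₂⟩ ∧
      (m = 2 → j % 2 = 0 → TopTwo p ∧ TopTwo q) ∧ TyLG {p, q} g := by
  obtain ⟨i, r, f, hE, -⟩ := h.edata'
  obtain ⟨p, q, g, h1, h2, h3, h5⟩ := hE.l_pair_top hne hk (e := midL (ins r.1 (lf f)).numNodes (m - 1))
    (midL_length _ _) (by rw [midL_sum]; omega) (by rintro rfl; rfl)
  have hnum : (ins r.1 (lf f)).numNodes + 1 = j := by
    have h1 := (ins_num r.1 (lf f) (by rw [lf_length, X_num])).1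
    rw [lf_sum, X_num] at h1
    have := hE.size
    omega
  have hRn : ins r.1 (lf f) ≠ .nil := by
    rintro h0
    rw [h0] at hnum
    have h1 := hE.size
    have h2 := hE.hj
    change 0 + 1 = j at hnum
    omega
  obtain ⟨n, hn⟩ : ∃ n, (ins r.1 (lf f)).numNodes = n + 1 := by
    have h1 := hE.size
    have h2 := hE.hj
    exact ⟨(ins r.1 (lf f)).numNodes - 1, by omega⟩
  refine ⟨p, q, g, h1, h2, h3, ⟨_, _, hRn, midL_length _ _, ?_, ?_, h5⟩, ?_⟩
  · apply H1.fb_lv0 hRn (midL_length _ _)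
    rw [hn]
    rfl
  · apply H1.lastB_ins hRn (midL_length _ _)
    rw [hn]
    unfold midL
    rw [List.replicate_succ' (n := n)]
    rw [← List.cons_append, ← List.append_assoc, List.getLastD_concat]
  · intro Z hZ
    rw [hZ.Z_inj h5]
    exact L1.mid_not_bad fun hm => by have := h4 hm; omega

/-- **W-L-L1** with the side condition -/
theorem TyL.dis_L1 {F F' : Set (Cyc k)} {g g' : DG k} (h : TyL F g)
    (hb : ∀ Z, IsTri (lp 1) Z (lp 1) F g → ¬ L1.BadL Z) (h' : TyL1 F' g') : ∀ w ∈ g.B, w ∉ g'.B := by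
  obtain ⟨R', e, h1, h2, h3, h4, h5⟩ := h
  intro w hw hw'
  have hZ : ins R' e ≠ .nil := by
    intro h6
    have h7 := congrArg BinaryTree.numNodes h6
    rw [(ins_num R' e h2).1] at h7
    change _ = 0 at h7
    cases R' with
    | nil => exact h1 rfl
    | node _ A B =>
      change (A.numNodes + B.numNodes + 1) + _ + _ = 0 at h7
      omega
  exact hb _ h5 (h'.badL hZ h3 h4 h5 hw' hw)

variable {τp τw : Type} {Pp : τp → Set (Cyc k) → DG k → Prop} {Pw : τw → Set (Cyc k) → DG k → Prop}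
  {AE : Cyc k → Cyc k → Prop}

/-- **THE CLASS OF A NODE, GENERAL STEP**, L pairs of type `TyLG` -/
theorem r1_genL {p0 : Cyc k} {U1 : Cyc j} (hp0 : Rd p0 = ⟨j, U1⟩) (X : Set (Cyc k)) {m : ℕ}
    (hm : 1 ≤ m) (hk : j + pkc U1 + m = k)
    (h4 : m = 2 → 4 ≤ j)
    (hL : ∀ p q g, cl p = cl p0 → cl q = cl p0 → TyLG {p, q} g → Typd Pp Pw {p, q})
    (U0 : Cyc j) (hU0 : Rd U0 = Rd U1)
    (h2 : (contc U0).count 1 = 2 → oddF (Rd U0).1 2 → IsTwo U0)
    (hX : ∀ U, Rd U = Rd U1 → ¬ (U = U0 ∧ oddF (Rd U0).1 ((contc U0).count 1)) →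
      (¬ oddF j m → RemA AE ⟨j, U⟩ X) ∧
      (oddF j m → ∀ p, Rd p = ⟨j, U⟩ → (m = 2 → TopTwo p) → p ∉ X ∧ RemA AE ⟨j, U⟩ ({p} ∪ X)))
    (h0 : oddF (Rd U0).1 ((contc U0).count 1) → ∃ G : Set (Set (Cyc k)), (∀ F ∈ G, F.Nonempty ∧
      Typd Pp Pw F ∧ ∀ c ∈ F, Rd c = ⟨j, U0⟩ ∧ c ∉ X) ∧
      (∀ F ∈ G, ∀ F' ∈ G, ∀ c, c ∈ F → c ∈ F' → F = F') ∧ RemA AE ⟨j, U0⟩ (inG G ∪ X)) :
    ∃ Gp Gw, ClsOK AE (cl p0) X Gp Gw Pp Pw := by
  obtain ⟨I, hI⟩ := remOK_lo (Rd U0) U0 rfl h2
  rw [hU0] at hI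
  have hmem : ∀ U, Rd U = Rd U1 → I U ≠ U → ¬ (U = U0 ∧ oddF (Rd U0).1 ((contc U0).count 1)) := by
    intro U hU hne h
    apply hne
    rw [(hI U hU).2.2.2]
    change U = U0 ∧ _
    rw [← hU0]
    exact h
  refine cls_of_inv' hp0 X I (fun U hU => ⟨(hI U hU).1, (hI U hU).2.1⟩) ?_ ?_
  · intro U hU hne
    obtain ⟨e1, e2, e3, e4⟩ := hI U hU
    have hne' : I (I U) ≠ I U := by
      rw [e2]
      exact fun h => hne h.symm
    have f1 := hX U hU (hmem U hU hne)
    have f2 := hX (I U) e1 (hmem (I U) e1 hne')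
    by_cases ho : oddF j m
    · right
      have hhop : HopC U (I U) := by
        rcases e3 with e3 | e3
        · exact absurd e3 hne
        · exact e3
      obtain ⟨p, q, g, hp, hq, ht, hLg⟩ := tyLG_top (k := k) (fun h => hne h.symm) hhop hm
        (by rw [pkc_Rd hU]; exact hk) h4
      have htt : m = 2 → TopTwo p ∧ TopTwo q := by
        intro h3
        apply ht h3
        rw [h3] at ho
        exact oddF_two_even ho
      obtain ⟨a1, a2⟩ := f1.2 ho p hp (fun h => (htt h).1)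
      obtain ⟨b1, b2⟩ := f2.2 ho q hq (fun h => (htt h).2)
      exact ⟨p, q, hp, hq, a1, b1, hL p q g (cl_same hp0 hp hU) (cl_same hp0 hq e1) hLg, a2, b2⟩
    · exact Or.inl ⟨f1.1 ho, f2.1 ho⟩
  · intro U hU hf
    have h3 := (hI U hU).2.2.2.1 hf
    change U = U0 ∧ _ at h3
    rw [← hU0] at h3
    obtain ⟨rfl, h5⟩ := h3
    exact h0 h5


theorem rem_of_e {p0 : Cyc k} {U1 : Cyc j}
    (he : ∀ p q : Cyc k, cl p = cl p0 → cl q = cl p0 → p ≠ q → HopC p q → AE p q) (hp0 : Rd p0 = ⟨j, U1⟩)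
    {U : Cyc j} (hU : Rd U = Rd U1) {D : Set (Cyc k)} (h : RemOK ⟨j, U⟩ D) : RemA AE ⟨j, U⟩ D :=
  h.remA.mono fun p q hp hq hne hop => he p q (cl_same hp0 hp hU) (cl_same hp0 hq hU) hne hop

namespace Hole2

open J Runs Ring1

/-- **THE CLASS `(n + 2, 2^b, 1, 1)`**, L pairs of type `TyLG` (middle gap) -/
theorem cls_m2L (hn : 1 ≤ n) (hb : 1 ≤ b) {p0 : Cyc k}
    (hp0 : contc p0 = ({n + 2} + Multiset.replicate b 2) + {1, 1})
    (h4 : 4 ≤ n + 1 + b) (he : ∀ p q : Cyc k, cl p = cl p0 → cl q = cl p0 → p ≠ q → HopC p q → AE p q)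
    (hl : ∀ p q g, cl p = cl p0 → cl q = cl p0 → TyLG {p, q} g → Typd Pp Pw {p, q}) (X D : Set (Cyc k))
    (hX : ∀ c, cl c = cl p0 → (c ∈ X ↔ (∃ S g, TyH S g ∧ c ∈ S) ∨ c ∈ D))
    (hD : (D = ∅ ∧ ¬ (oddF n b ∧ oddF (n + 1 + b) 2)) ∨
      ∃ z, D = {z} ∧ (oddF n b ∧ oddF (n + 1 + b) 2) ∧ cl z = cl p0 ∧ LevTwo z) :
    ∃ Gp Gw, ClsOK AE (cl p0) X Gp Gw Pp Pw := by
  obtain ⟨hk0, U1, hp1, hU1, hcU1⟩ := cls_data hn hp0
  obtain ⟨j, hjd⟩ : ∃ j, j = n + 1 + b := ⟨_, rfl⟩
  rw [← hjd] at hD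
  subst hjd
  have hpk : pkc U1 = b + 1 := by
    unfold pkc
    rw [hcU1, Multiset.card_add, Multiset.card_singleton, Multiset.card_replicate, add_comm]
  have hkU : n + 1 + b + pkc U1 + 2 = k := by omega
  have hpw := pk_pwX hn
  -- the families
  have fam : ∀ U : Cyc (n + 1 + b), Rd U = Rd U1 → ∃ (F : ZMod (2 * n + 1) → ℕ) (_ : ∑ x, F x = b)
      (hj : n + pkn (pwX n).1 + ∑ x, F x = n + 1 + b)
      (_ : n + 1 + b + pkn (phi (pwX n) F hj).1 + 2 = k), U = cyc (phi (pwX n) F hj) := by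
    intro U hU
    obtain ⟨F, hj, rfl⟩ := exists_F U (hU.trans hU1)
    have hF : ∑ x, F x = b := by omega
    exact ⟨F, hF, hj, k_of' hn F hj (by omega), rfl⟩
  have hcount : ∀ U : Cyc (n + 1 + b), Rd U = Rd U1 → (contc U).count 1 = b := by
    intro U hU
    rw [Rd_contc hU, hcU1, Multiset.count_add, Multiset.count_singleton, if_neg (by omega),
      Multiset.count_replicate, if_pos rfl, zero_add]
  have hRd1 : ∀ U : Cyc (n + 1 + b), Rd U = Rd U1 → (Rd U).1 = n := by
    intro U hU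
    rw [hU, hU1]
  have hXU : ∀ U : Cyc (n + 1 + b), Rd U = Rd U1 → ∀ c : Cyc k, Rd c = ⟨n + 1 + b, U⟩ →
      (c ∈ X ↔ c ∈ TYH k ∨ c ∈ D) := fun U hU c hc => hX c (cl_same hp1 hc hU)
  by_cases ho : oddF (n + 1 + b) 2
  · -- all families are odd
    have hj2 := (oddF_two_iffH _).1 ho
    have top : ∀ U : Cyc (n + 1 + b), Rd U = Rd U1 → (∀ c : Cyc k, Rd c = ⟨n + 1 + b, U⟩ → c ∉ D) →
        ∀ p, Rd p = ⟨n + 1 + b, U⟩ → TopTwo p → p ∉ X ∧ RemA AE ⟨n + 1 + b, U⟩ ({p} ∪ X) := by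
      intro U hU hDU p hp hT
      obtain ⟨F, hF, hj, hk, rfl⟩ := fam U hU
      obtain ⟨_, x, rfl⟩ := top_tc hk hp hT
      refine ⟨?_, ?_⟩
      · rw [hXU _ hU _ hp]
        rintro (h | h)
        · exact lev_mem hn F hF hj hk x (by omega) le_rfl h
        · exact hDU _ hp h
      · refine (rem_of_e he hp1 hU (rem_even hn F hF hj hk hj2 x (by omega) le_rfl hj2)).congr
          fun c hc => ?_
        have := hXU _ hU c hc
        constructor
        · rintro (h | h)
          · exact Or.inl h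
          · exact Or.inr (this.2 (Or.inl h))
        · rintro (h | h)
          · exact Or.inl h
          · rcases this.1 h with h | h
            · exact Or.inr h
            · exact absurd h (hDU c hc)
    by_cases hb2 : oddF n b
    · -- both odd: one guest
      rcases hD with ⟨_, h⟩ | ⟨z, rfl, _, hz, hL⟩
      · exact absurd ⟨hb2, ho⟩ h
      obtain ⟨h1, h2⟩ := cl_iff.1 hz
      rw [hp1] at h1 h2
      obtain ⟨U0, hU0⟩ : ∃ U0 : Cyc (n + 1 + b), Rd z = ⟨n + 1 + b, U0⟩ := by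
        revert h1
        generalize Rd z = dz
        intro h1
        obtain ⟨i, U⟩ := dz
        change i = n + 1 + b at h1
        subst h1
        exact ⟨U, rfl⟩
      rw [hU0] at h2
      change Rd U0 = Rd U1 at h2
      have hbne : b ≠ 2 := by
        rintro rfl
        have := (oddF_two_iffH n).1 hb2
        omega
      refine r1_genL hp1 X (m := 2) (by omega) hkU (fun _ => h4) hl U0 h2 ?_ ?_ ?_
      · intro h3
        rw [hcount U0 h2] at h3
        exact absurd h3 hbne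
      · intro U hU hne
        have hUne : U ≠ U0 := by
          rintro rfl
          exact hne ⟨rfl, by rw [hRd1 U h2, hcount U h2]; exact hb2⟩
        refine ⟨fun h => absurd ho h, fun _ p hp hT => top U hU ?_ p hp (hT rfl)⟩
        rintro c hc h
        rw [Set.mem_singleton_iff] at h
        subst h
        rw [hU0] at hc
        exact hUne (eq_of_heq (Sigma.mk.inj_iff.1 hc).2).symm
      · intro _
        refine ⟨∅, fun F h => absurd h (Set.notMem_empty _), fun F h => absurd h (Set.notMem_empty _), ?_⟩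
        rw [inG_empty', Set.empty_union]
        obtain ⟨F, hF, hj, hk, rfl⟩ := fam U0 h2
        obtain ⟨j', u', x, d, w, hd, hdj, hd2, hw, hw'⟩ := hL
        obtain ⟨rfl, x', hz'⟩ := lev_over hk hU0 hw hw'
        refine (rem_of_e he hp1 h2 (rem_even hn F hF hj hk hj2 x' hd hdj hd2)).congr fun c hc => ?_
        rw [← hz']
        have := hXU _ h2 c hc
        constructor
        · rintro (h | h)
          · exact this.2 (Or.inr h)
          · exact this.2 (Or.inl h)
        · intro h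
          rcases this.1 h with h | h
          · exact Or.inr h
          · exact Or.inl h
    · -- the second level is even
      have hD0 : D = ∅ := by
        rcases hD with ⟨h, _⟩ | ⟨z, _, h, _⟩
        · exact h
        · exact absurd h.1 hb2
      subst hD0
      refine r1_genL hp1 X (m := 2) (by omega) hkU (fun _ => h4) hl U1 rfl ?_ ?_ ?_
      · intro h3 h4
        rw [hcount U1 rfl] at h3
        rw [hRd1 U1 rfl] at h4
        rw [h3] at hb2
        exact absurd h4 hb2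
      · intro U hU _
        exact ⟨fun h => absurd ho h, fun _ p hp hT =>
          top U hU (fun _ _ => Set.notMem_empty _) p hp (hT rfl)⟩
      · intro h
        rw [hRd1 U1 rfl, hcount U1 rfl] at h
        exact absurd h hb2
  · -- all families are even
    have hj2 : (n + 1 + b) % 2 = 1 := by
      rw [oddF_two_iffH] at ho
      omega
    have hD0 : D = ∅ := by
      rcases hD with ⟨h, _⟩ | ⟨z, _, h, _⟩
      · exact h
      · exact absurd h.2 ho
    subst hD0
    have all : ∀ U : Cyc (n + 1 + b), Rd U = Rd U1 → RemA AE ⟨n + 1 + b, U⟩ X := by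
      intro U hU
      obtain ⟨F, hF, hj, hk, rfl⟩ := fam U hU
      refine (rem_of_e he hp1 hU (rem_odd hn F hF hj hk hj2)).congr fun c hc => ?_
      have := hXU _ hU c hc
      constructor
      · intro h
        exact this.2 (Or.inl h)
      · intro h
        rcases this.1 h with h | h
        · exact h
        · exact absurd h (Set.notMem_empty _)
    obtain ⟨U0, hU0, h2⟩ : ∃ U0 : Cyc (n + 1 + b), Rd U0 = Rd U1 ∧ (b = 2 → IsTwo U0) := by
      by_cases hb2 : b = 2
      · have hk2 : n + pkn (pwX n).1 + 2 = n + 1 + b := by omega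
        obtain ⟨w, hw, hw'⟩ := tc_exists (pwX n) hk2 0 0
        refine ⟨cyc w, ?_, fun _ => ⟨n, pwX n, 0, 0, w, by omega, rfl, rfl, hw'⟩⟩
        rw [hw, Rd_tc, hU1]
      · exact ⟨U1, rfl, fun h => absurd h hb2⟩
    refine r1_genL hp1 X (m := 2) (by omega) hkU (fun _ => h4) hl U0 hU0 ?_ ?_ ?_
    · intro h3 _
      rw [hcount U0 hU0] at h3
      exact h2 h3
    · intro U hU _
      exact ⟨fun _ => all U hU, fun h => absurd h ho⟩
    · intro _
      refine ⟨∅, fun F h => absurd h (Set.notMem_empty _), fun F h => absurd h (Set.notMem_empty _), ?_⟩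
      rw [inG_empty', Set.empty_union]
      exact all U0 hU0

end Hole2

end Pool.OddHC
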