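import Pool.Agent.Work.MP_8f87b2_h86.EEx
import Pool.Agent.Work.MP_8f87b2_h61.JsE
import Pool.Agent.Work.MP_8f87b2_h63.J4Pl
import Pool.Agent.Work.MP_8f87b2_h63.J4C

/-!
# MP_8f87b2_co: type E, one predicate for all phase conditions against L1, J1, J4

`EfX k X`: no bad form (`L1.BadE`; `[s][4]`, `k = s + 5`, for J1; the five words of `CrY` for J4). `TyEf`: type `En` or `Ed`, every
representation is `EfX`. `TyEG.toEf`: outside the contents `(s,4,1)`, `(s,4,1,1)`, `(s,5,1)` nothing is to be proved.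
`TyEf.dis_J1`, `TyEf.dis_J4`, `TyEf.dis_L1`: the rows. `tyEf_B`: the pair `([s-1][4])()`, `()([s-1][4])`.
-/

set_option autoImplicit false

namespace Pool.OddHC

open Finset Equiv BinaryTree Multiset Pool.OddHop Pool.Agent.Work.MP_8f87b2_co

variable {k n j : ℕ} {F F' : Set (Cyc k)} {g g' : DG k}

/-- no bad form of the word `X` of an E triple -/
structure EfX (k : ℕ) (X : BinaryTree Unit) : Prop where
  l1 : ¬ L1.BadE X
  j1 : ∀ n, 3 ≤ n → n + 6 = k → X ≠ app (H1.ch (n + 1)) (H1.ch 4)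
  j4 : ∀ n, 4 ≤ n → n + 7 = k → ¬ J1.CrY n (Tsq.mir X)

/-- TYPE Ef: the final type E -/
def TyEf (F : Set (Cyc k)) (g : DG k) : Prop :=
  (TyEn F g ∨ TyEd F g) ∧ ∀ Y, IsTri .nil Y .nil F g → EfX k Y

theorem TyEf.toE (h : TyEf F g) : TyE F g := by
  rcases h.1 with h1 | h1
  · exact h1.toE
  · exact h1.toE

theorem TyEf.toEG (h : TyEf F g) : TyEG F g := ⟨h.1, fun Y hY => (h.2 Y hY).l1⟩

/-- **the row `E - J1`**, general form -/
theorem TyE.dis_J1 (h : TyE F g) (h' : J1.TyJs F' g') (hd : ∀ c ∈ F, c ∉ F')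
    (hx : ∀ X, IsTri .nil X .nil F g → ∀ n, 3 ≤ n → n + 6 = k → X ≠ app (H1.ch (n + 1)) (H1.ch 4)) :
    ∀ w ∈ g.B, w ∉ g'.B := by
  obtain ⟨j, r, f, hj, hL, ht⟩ := h
  have he : (lf f).length = 2 * r.1.numNodes + 1 := by rw [lf_length, X_num]
  obtain ⟨l1, l2⟩ := H1.low_fh he hL
  refine J1.js_E' ht h' hd ?_
  intro n hn hk hX
  rcases J1.crX_low hn hX with ⟨h1, h2, h3⟩ | h5
  · exact h1 (l2 h2 h3)
  · exact hx _ ht n hn hk (comps_inj (h5.trans rfl))

theorem TyEf.dis_J1 (h : TyEf F g) (h' : J1.TyJs F' g') (hd : ∀ c ∈ F, c ∉ F') : ∀ w ∈ g.B, w ∉ g'.B :=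
  h.toE.dis_J1 h' hd fun X hX => (h.2 X hX).j1

/-- **the row `E - J4`** -/
theorem TyEf.dis_J4 (h : TyEf F g) (h' : J1.TyJt F' g') (hd : ∀ c ∈ F, c ∉ F') : ∀ w ∈ g.B, w ∉ g'.B := by
  obtain ⟨j, r, f, hj, hL, ht⟩ := h.toE
  exact J1.jt_E' ht h' hd (h.2 _ ht).j4

theorem TyEf.dis_L1 (h10 : 10 ≤ k) (h : TyEf F g) (h' : TyL1 F' g') : ∀ w ∈ g.B, w ∉ g'.B :=
  h.toE.dis_L1 h10 (fun Y hY => (h.2 Y hY).l1) h'

/-- the contents of a pair from the word `X` -/
theorem IsTri.contX {X : BinaryTree Unit} (h : IsTri .nil X .nil F g) : ∀ d ∈ F, contc d = cont X + {1} := by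
  obtain ⟨a, b, c, ha, hb, hc', e1, e2, e3, rfl, rfl⟩ := h
  rintro d (rfl | rfl)
  · change OddHC.cont b.1 = _
    rw [hb]
    change OddHC.cont (app X (.nil △ .nil)) = _
    rw [cont_app]
    rfl
  · change OddHC.cont c.1 = _
    rw [hc']
    change OddHC.cont (.nil △ X) = _
    rw [cont_node, cont_nil, add_comm]
    rfl

theorem IsTri.neF {X : BinaryTree Unit} (h : IsTri .nil X .nil F g) : F.Nonempty := by
  obtain ⟨a, b, c, ha, hb, hc', e1, e2, e3, rfl, rfl⟩ := h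
  exact ⟨cyc b, Or.inl rfl⟩

/-- contents of the critical words -/
theorem crY_cont' {n : ℕ} (hn : 4 ≤ n) {X : BinaryTree Unit} (h : J1.CrY n X) :
    OddHC.cont X = {n + 1} + {4} + {1} ∨ OddHC.cont X = {n + 2} + {4} ∨ OddHC.cont X = {n + 1} + {5} := by
  rcases h with h | h | h | h | h
  · left
    have e : X = app (H1.ch (n + 1)) (app (H1.ch 4) (H1.ch 1)) := comps_inj (h.trans rfl)
    rw [e, cont_app, cont_app, H1.ch_cont, H1.ch_cont, H1.ch_cont, add_assoc]
  · left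
    have e : X = app (H1.ch 1) (app (H1.ch (n + 1)) (H1.ch 4)) := comps_inj (h.trans rfl)
    rw [e, cont_app, cont_app, H1.ch_cont, H1.ch_cont, H1.ch_cont]
    abel
  · right; left
    have e : X = J1.RS n △ .nil := comps_inj (h.trans rfl)
    have hc : OddHC.cont (J1.RS n) = {n + 1} + {4} := by
      rw [← J1.RS_eq, cont_app, H1.ch_cont, H1.ch_cont]
    rw [e, cont_node, cont_nil, add_zero, hc]
    unfold raise
    have hs : ({n + 1} + {4} : Multiset ℕ).sup = n + 1 := by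
      rw [Multiset.sup_add, Multiset.sup_singleton, Multiset.sup_singleton]
      exact max_eq_left (by omega)
    rw [hs]
    have e2 : ({n + 1} + {4} : Multiset ℕ).erase (n + 1) = {4} := by
      rw [Multiset.singleton_add, Multiset.erase_cons_head]
    rw [e2]
    rfl
  · right; left
    have e : X = app (H1.ch (n + 2)) (H1.ch 4) := comps_inj (h.trans rfl)
    rw [e, cont_app, H1.ch_cont, H1.ch_cont]
  · right; right
    have e : X = app (H1.ch (n + 1)) (H1.ch 5) := comps_inj (h.trans rfl)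
    rw [e, cont_app, H1.ch_cont, H1.ch_cont]

/-- **outside three contents nothing is to be proved** -/
theorem TyEG.toEf (h : TyEG F g)
    (h1 : ∀ s, 4 ≤ s → s + 5 = k → ∀ c ∈ F, contc c ≠ {s} + {4} + {1})
    (h2 : ∀ s, 5 ≤ s → s + 6 = k → ∀ c ∈ F, contc c ≠ {s} + {4} + {1} + {1})
    (h3 : ∀ s, 5 ≤ s → s + 6 = k → ∀ c ∈ F, contc c ≠ {s} + {5} + {1}) : TyEf F g := by
  refine ⟨h.1, fun Y hY => ⟨h.2 Y hY, ?_, ?_⟩⟩
  · rintro n hn hk rfl
    obtain ⟨c, hc⟩ := hY.neF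
    refine h1 (n + 1) (by omega) (by omega) c hc ?_
    rw [hY.contX c hc, cont_app, H1.ch_cont, H1.ch_cont]
  · intro n hn hk hcr
    obtain ⟨c, hc⟩ := hY.neF
    have e := hY.contX c hc
    have hm := crY_cont' hn hcr
    rw [HM.cont_mir] at hm
    rcases hm with hm | hm | hm
    · exact h2 (n + 1) (by omega) (by omega) c hc (by rw [e, hm])
    · exact h1 (n + 2) (by omega) (by omega) c hc (by rw [e, hm])
    · exact h3 (n + 1) (by omega) (by omega) c hc (by rw [e, hm])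

/-- an E triple over an explicit word `X` -/
theorem ef_of_X (hj : 1 ≤ j) {r : X j} (hr : Low r.1) {f : ZMod (2 * j + 1) → ℕ} {p q : Cyc k} (hpq : p ≠ q)
    (hE : EData p q j r f) (hd : (∀ A, r.1 ≠ A △ .nil) ∨ Deep r.1) (hx : EfX k (ins r.1 (lf f))) :
    ∃ g, TyEf {p, q} g := by
  obtain ⟨g, hg⟩ := hE.tri hpq
  refine ⟨g, ?_, fun Y hY => by rw [hY.X_inj hg]; exact hx⟩
  rcases hd with h | h
  · exact Or.inl ⟨j, r, f, hj, hr, h, hg⟩
  · exact Or.inr ⟨j, r, f, hj, h, hg⟩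

theorem inf1_ch {m : ℕ} (h : 1 ≤ m) : inf1 (H1.ch m) = H1.ch (m + 1) := by
  obtain ⟨m, rfl⟩ : ∃ m', m = m' + 1 := ⟨m - 1, by omega⟩
  induction m with
  | zero => rfl
  | succ m ih =>
    have e : inf1 (H1.ch (m + 1 + 1)) = inf (H1.ch (m + 1 + 1)) := rfl
    rw [e]
    change inf (H1.ch (m + 1) △ .nil) = _
    rw [inf_node, ih (by omega)]
    rfl

theorem inf_ch {m : ℕ} (h : 1 ≤ m) : inf (H1.ch m) = H1.ch (m + 1) := by
  obtain ⟨m, rfl⟩ : ∃ m', m = m' + 1 := ⟨m - 1, by omega⟩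
  change inf (H1.ch m △ .nil) = _
  rw [inf_node]
  rcases Nat.eq_zero_or_pos m with h0 | h0
  · subst h0; rfl
  · rw [inf1_ch h0]
    rfl

/-- the word `([n][4])` -/
def XB (n : ℕ) : BinaryTree Unit := (app (H1.ch n) (H1.ch 4)) △ .nil

theorem XB_inf {n : ℕ} (hn : 4 ≤ n) : XB n = inf ((app (H1.ch (n - 1)) (H1.ch 3)) △ .nil) := by
  obtain ⟨n, rfl⟩ : ∃ n', n = n' + 1 := ⟨n - 1, by omega⟩
  rw [Nat.add_sub_cancel, inf_node, inf1_eq]
  · rw [inf_app, inf_ch (by omega), inf_ch (by omega)]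
    rfl
  · obtain ⟨n, rfl⟩ : ∃ n', n = n' + 1 := ⟨n - 1, by omega⟩
    change H1.ch n △ _ ≠ .nil
    simp

theorem XB_cont {n : ℕ} (hn : 4 ≤ n) : OddHC.cont (XB n) = {n + 1} + {4} := by
  obtain ⟨n, rfl⟩ : ∃ n', n = n' + 1 := ⟨n - 1, by omega⟩
  unfold XB
  rw [cont_node, cont_nil, add_zero, cont_app, H1.ch_cont, H1.ch_cont]
  unfold raise
  have hs : ({n + 1} + {4} : Multiset ℕ).sup = n + 1 := by
    rw [Multiset.sup_add, Multiset.sup_singleton, Multiset.sup_singleton]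
    exact max_eq_left (by omega)
  rw [hs]
  have e2 : ({n + 1} + {4} : Multiset ℕ).erase (n + 1) = {4} := by
    rw [Multiset.singleton_add, Multiset.erase_cons_head]
  rw [e2]
  rfl

theorem XB_efX {n : ℕ} (hn : 5 ≤ n) (hk : n + 6 = k) : EfX k (XB n) := by
  have hc : OddHC.cont (XB n) = {n + 1} + {4} := XB_cont (by omega)
  have h1 : (OddHC.cont (XB n)).count 1 = 0 := by
    rw [hc, Multiset.count_add, Multiset.count_singleton, Multiset.count_singleton, if_neg (by omega), if_neg (by omega)]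
  refine ⟨?_, ?_, ?_⟩
  · intro hb
    cases hb with
    | m3 n' b hn' hb hc' hp =>
      rw [hc', Multiset.count_add, Multiset.count_add, Multiset.count_replicate, Multiset.count_replicate,
        if_pos rfl] at h1
      omega
    | m2 n' b hn' hb hc' hp =>
      rw [hc', Multiset.count_add, Multiset.count_add, Multiset.count_singleton (a := 1) (b := 1), if_pos rfl] at h1
      omega
  · intro n' hn' hk' e
    unfold XB at e
    have e' : (app (H1.ch n) (H1.ch 4) △ .nil : BinaryTree Unit) = H1.ch n' △ H1.ch 4 := e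
    injection e' with _ _ e2
    exact absurd e2 (by simp [H1.ch])
  · intro n' hn' hk' hcr
    obtain rfl : n = n' + 1 := by omega
    have e : comps (Tsq.mir (XB (n' + 1))) = [app (H1.ch 4) (H1.ch (n' + 1))] := by
      have e1 : Tsq.mir (XB (n' + 1)) = app (H1.ch 4) (H1.ch (n' + 1)) △ .nil := by
        unfold XB
        change app (Tsq.mir .nil) (Tsq.mir (app (H1.ch (n' + 1)) (H1.ch 4)) △ .nil) = _
        rw [Tsq.mir_app, J1.mir_ch_t, J1.mir_ch_t]
        rfl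
      rw [e1]
      rfl
    unfold J1.CrY at hcr
    rw [e] at hcr
    rcases hcr with h | h | h | h | h
    · simp at h
    · simp at h
    · rw [List.cons.injEq] at h
      have h2 := h.1
      change (H1.ch 3 △ H1.ch (n' + 1) : BinaryTree Unit) = H1.ch n' △ H1.ch 4 at h2
      injection h2 with _ _ h3
      have := H1.ch_inj h3
      omega
    · simp at h
    · simp at h

/-- **the pair `B`** of the class `(s, 4, 1)`, `s = n + 1 = k - 5` -/
theorem tyEf_B {n : ℕ} (hn : 5 ≤ n) (hk : n + 6 = k) {b c : X k} (hb : b.1 = app (XB n) (.nil △ .nil))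
    (hc : c.1 = .nil △ XB n) (hne : cyc b ≠ cyc c) : ∃ g, TyEf {cyc b, cyc c} g := by
  obtain ⟨r, hr⟩ : ∃ r : X (n + 3), r.1 = (app (H1.ch (n - 1)) (H1.ch 3)) △ .nil := by
    refine ⟨⟨_, mem_treesOfNumNodesEq.2 ?_⟩, rfl⟩
    change (app (H1.ch (n - 1)) (H1.ch 3)).numNodes + 0 + 1 = n + 3
    rw [num_app, H1.ch_num, H1.ch_num]
    omega
  have hX : XB n = ins r.1 (lf (fun _ : ZMod (2 * (n + 3) + 1) => 0)) := by
    rw [lf_zero, XB_inf (by omega), hr]
    unfold inf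
    rw [← hr, X_num]
  have hD : Deep r.1 := by
    have h2 : (OddHC.cont (XB n)).count 2 = (OddHC.cont r.1).count 1 := by
      rw [hX]
      exact H1.count_ins (by rw [lf_length, X_num]) 0
    have h3 : (OddHC.cont (XB n)).count 3 = (OddHC.cont r.1).count 2 := by
      rw [hX]
      exact H1.count_ins (by rw [lf_length, X_num]) 1
    have hc : OddHC.cont (XB n) = {n + 1} + {4} := XB_cont (by omega)
    rw [hc, Multiset.count_add, Multiset.count_singleton, Multiset.count_singleton, if_neg (by omega),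
      if_neg (by omega)] at h2 h3
    exact ⟨h2.symm, h3.symm⟩
  have hnum : (XB n).numNodes + 1 = k := by
    unfold XB
    change (app (H1.ch n) (H1.ch 4)).numNodes + 0 + 1 + 1 = k
    rw [num_app, H1.ch_num, H1.ch_num]
    omega
  obtain ⟨a, ha⟩ : ∃ a : X k, a.1 = w1 .nil (XB n) .nil := by
    refine ⟨⟨_, mem_treesOfNumNodesEq.2 ?_⟩, rfl⟩
    change (XB n).numNodes + 0 + 1 = k
    exact hnum
  have hh : ∀ Y : BinaryTree Unit, Y ≠ .nil → 1 ≤ OddHC.ht Y := by
    intro Y hY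
    cases Y with
    | nil => exact absurd rfl hY
    | node _ A B => rw [ht_node]; omega
  have hX1 : 1 ≤ OddHC.ht (XB n) := hh _ (by unfold XB; simp)
  have h0 : OddHC.ht (.nil : BinaryTree Unit) = 0 := rfl
  have ht : IsTri .nil (XB n) .nil {cyc b, cyc c} (pDG {a, b, c} (cyc b) (cyc c) ∅) := by
    refine ⟨a, b, c, ha, hb, hc, hne, ?_, ?_, rfl, rfl⟩
    · rw [htc_cyc, htc_cyc, hb, hc, ht_app, ht_node, ht_node]
      omega
    · rw [htc_cyc, htc_cyc, hb, ha, ht_app, ht_node]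
      change _ < OddHC.ht (XB n △ .nil)
      rw [ht_node]
      omega
  refine ⟨pDG {a, b, c} (cyc b) (cyc c) ∅, ⟨Or.inr ⟨n + 3, r, fun _ => 0, by omega, hD, ?_⟩, fun Y hY => ?_⟩⟩
  · rw [← hX]
    exact ht
  · rw [hY.X_inj ht]
    exact XB_efX hn hk

end Pool.OddHC
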