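import Pool.Agent.Work.MP_8f87b2_h40.H3b
import Pool.Agent.Work.MP_8f87b2_h11.Feat
import Pool.Agent.Work.MP_8f87b2_h32.L1E
import Pool.Agent.Work.MP_8f87b2_end.Mid
import Pool.Agent.Work.MP_8f87b2_h27.Ed

/-!
# MP_8f87b2_co: the existence side of type E, with the phase choice against type L1

`L1.BadE X` (h32/L1E): the phases `X` of an E triple which can meet a gadget of type L1. `edata_good`: every hop pair which is in no pair
`{C, C'}` has a Low phase which is not bad. `edata_cc`: the same for the pairs `{C, C'}`. `TyEx`: type E with a phase which is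
not bad; `TyEx.ex`, `TyEx.cc`: existence.
-/

set_option autoImplicit false

namespace Pool.OddHC

open Finset Equiv BinaryTree Multiset Pool.OddHop Pool.Agent.Work.MP_8f87b2_co Cor

variable {k n a b i j m : ℕ}

/-- the gadget of an E pair -/
theorem EData.tri {p q : Cyc k} (hpq : p ≠ q) {r : X j} {f : ZMod (2 * j + 1) → ℕ} (hE : EData p q j r f) :
    ∃ g, IsTri .nil (ins r.1 (lf f)) .nil {p, q} g := by
  obtain ⟨a, b, c, ha, hb, hc, hR, hbc, h1, h2, -⟩ := hE.gadget hpq
  refine ⟨pDG {a, b, c} (cyc b) (cyc c) ∅, a, b, c, ha, hb, hc, ?_⟩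
  rcases hbc with ⟨e1, e2⟩ | ⟨e1, e2⟩
  · exact ⟨by rw [e1, e2]; exact hpq, by rw [e1, e2]; omega, by rw [e1]; omega,
      by rw [e1, e2], rfl⟩
  · exact ⟨by rw [e1, e2]; exact hpq.symm, by rw [e1, e2]; omega, by rw [e1]; omega,
      by rw [e1, e2, Set.pair_comm], rfl⟩

/-- the word `X` of an E triple is determined by the gadget -/
theorem IsTri.X_inj {F : Set (Cyc k)} {g : DG k} {Y Y' : BinaryTree Unit} (h : IsTri .nil Y .nil F g)
    (h' : IsTri .nil Y' .nil F g) : Y = Y' := by
  have hw := h'.words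
  have hr := h.words
  obtain ⟨a, b, c, ha, hb, hc, h1, h2, h3, rfl, rfl⟩ := h
  have haF : cyc a ∉ ({cyc b, cyc c} : Set (Cyc k)) := by
    rintro (e | e)
    · rw [e] at h3; exact lt_irrefl _ h3
    · rw [e, h2] at h3; exact lt_irrefl _ h3
  rcases hw a (by simp [pDG]) with e | ⟨e, _⟩
  · rw [ha] at e
    have e' : (Y △ .nil : BinaryTree Unit) = Y' △ .nil := e
    injection e'
  · exact absurd e haF

/-- every T-cycle has a Low word -/
theorem exists_low (u : X j) : ∃ i : ℕ, Low ((TT ^ i) u).1 := by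
  by_cases c1 : 1 ≤ (cont u.1).count 1
  · obtain ⟨i, hi, r', hr'⟩ := exists_phase1 indep1_all u 0 c1
    refine ⟨i, fun _ => ⟨r', hr'⟩, fun h0 => ?_⟩
    rw [cont_pow] at h0
    omega
  · by_cases c2 : 1 ≤ (cont u.1).count 2
    · obtain ⟨i, hi, r', hr'⟩ := exists_phase2 indep2_all u 0 (by omega) c2
      refine ⟨i, fun h0 => ?_, fun _ _ => ⟨r', hr'⟩⟩
      rw [cont_pow] at h0
      omega
    · refine ⟨0, fun h0 => ?_, fun _ h0 => ?_⟩
      · rw [cont_pow] at h0
        omega
      · rw [cont_pow] at h0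
        omega

/-- one soliton: all phases and all rotations give the same T-cycle -/
theorem rot_free (hn : 1 ≤ n) {r u : X j} (hr : Rd (cyc r) = ⟨n, cyc (pwX n)⟩) (hu : cyc u = cyc r)
    {g g' : ZMod (2 * j + 1) → ℕ} (c : ZMod (2 * j + 1)) {w w₂ : X k} (hw : w.1 = ins u.1 (lf g))
    (hw₂ : w₂.1 = ins r.1 (lf g')) (hg : ∀ z, g' z = g (z + c)) : cyc w = cyc w₂ := by
  obtain rfl : g' = fun z => g (z + c) := funext hg
  obtain ⟨F, hj, e⟩ := Hole2.exists_F (cyc r) hr
  have hs := word_phi hw₂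
  have hp : pkn (phi (pwX n) F hj).1 = pkn r.1 := by
    rw [← pkc_cyc, ← pkc_cyc, e]
  let z' : X k := phi (phi (pwX n) F hj) (fun z => g (z + c)) (by rw [hp]; exact hs)
  have h1 : cyc w = cyc z' := Hole2.word_indep hn F hj (hu.trans e) hw c rfl
  have h2 : cyc w₂ = cyc z' := Hole2.word_indep hn F hj e hw₂ 0 (by
    change ins _ (lf _) = _
    simp only [add_zero])
  exact h1.trans h2.symm

namespace L1

theorem count_psl (e : List ℕ) : ∀ i x, (Ft.psl i e).count x = if i ≤ x then e.getD (x - i) 0 else 0 := by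
  induction e with
  | nil => intro i x; simp [Ft.psl]
  | cons n e ih =>
    intro i x
    rw [Ft.psl, List.count_append, ih, List.count_replicate]
    by_cases h1 : x = i
    · subst h1
      rw [if_neg (show ¬ x + 1 ≤ x by omega), if_pos (le_refl x)]
      simp
    · have h3 : (i == x) = false := by
        rw [beq_eq_false_iff_ne]
        exact fun h => h1 h.symm
      rw [h3]
      by_cases h2 : i ≤ x
      · obtain ⟨d, rfl⟩ : ∃ d, x = i + 1 + d := ⟨x - i - 1, by omega⟩
        rw [if_pos (show i + 1 ≤ i + 1 + d by omega), if_pos h2]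
        have e1 : i + 1 + d - (i + 1) = d := by omega
        have e2 : i + 1 + d - i = d + 1 := by omega
        rw [e1, e2, List.getD_cons_succ]
        simp
      · rw [if_neg (show ¬ i + 1 ≤ x by omega), if_neg h2]
        simp

theorem ps_ins {t : BinaryTree Unit} {e : List ℕ} (h : e.length = 2 * t.numNodes + 1) :
    Ft.ps (ins t e) = Ft.psl 0 e := by
  unfold Ft.ps
  rw [red_ins t e h]

theorem ln_ins {t : BinaryTree Unit} {e : List ℕ} (h : e.length = 2 * t.numNodes + 1) :
    Ft.ln (ins t e) = 2 * t.numNodes := by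
  unfold Ft.ln
  rw [red_ins t e h]

/-- the multiplicities from the list of the gaps -/
theorem count_ps (r : X j) (f : ZMod (2 * j + 1) → ℕ) (z : ZMod (2 * j + 1)) :
    (Ft.ps (ins r.1 (lf f))).count z.val = f z := by
  rw [ps_ins (by rw [lf_length, X_num]), count_psl, if_pos (Nat.zero_le _), Nat.sub_zero, lf_getD]

theorem count_ps' (r : X j) (f : ZMod (2 * j + 1) → ℕ) {a : ℕ} (ha : a < 2 * j + 1) :
    (Ft.ps (ins r.1 (lf f))).count a = f (a : ZMod (2 * j + 1)) := by
  rw [← count_ps r f, ZMod.val_natCast_of_lt ha]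

/-- two gaps -/
theorem f_two (r : X j) (f : ZMod (2 * j + 1) → ℕ) {a b : ℕ} (ha : a < 2 * j + 1) (hb : b < 2 * j + 1)
    (h : Ft.ps (ins r.1 (lf f)) = [a, b]) (z : ZMod (2 * j + 1)) :
    f z = (if (a : ZMod (2 * j + 1)) = z then 1 else 0) + (if (b : ZMod (2 * j + 1)) = z then 1 else 0) := by
  have key : ∀ x : ℕ, x < 2 * j + 1 → ((x : ZMod (2 * j + 1)) = z ↔ x = z.val) := by
    intro x hx
    constructor
    · rintro rfl
      rw [ZMod.val_natCast_of_lt hx]
    · intro h
      rw [h, ZMod.natCast_zmod_val]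
  rw [← count_ps r f, h, List.count_cons, List.count_cons, List.count_nil]
  simp only [key a ha, key b hb, beq_iff_eq]
  omega

/-- `(()())Y` has a bead in the gap `1` -/
theorem ps_pile (Y : BinaryTree Unit) : 1 ∈ Ft.ps ((.nil △ (.nil △ .nil)) △ Y) := by
  unfold Ft.ps
  rw [Ft.red_node (by simp)]
  change 1 ∈ Ft.psl 0 (0 :: ([1] ++ (red Y).2))
  simp [Ft.psl]

theorem f_pile (hj : 1 ≤ j) (r : X j) (f : ZMod (2 * j + 1) → ℕ) {Y : BinaryTree Unit}
    (h : ins r.1 (lf f) = (.nil △ (.nil △ .nil)) △ Y) : 1 ≤ f 1 := by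
  have h1 := ps_pile Y
  rw [← h] at h1
  have h2 := count_ps' r f (a := 1) (by omega)
  rw [Nat.cast_one] at h2
  rw [← h2]
  exact List.count_pos_iff.2 h1

/-- `C` or `C'` -/
theorem mem_C {r : X j} (hr : Rd (cyc r) = ⟨n, cyc (pwX n)⟩) {x : ZMod (2 * j + 1)} {w : X k}
    (hw : w.1 = ins r.1 (lf (bd3 x (x + 1) (x + 2)).1) ∨ w.1 = ins r.1 (lf (bd3 x (x + 1) (x + 3)).1)) :
    ∃ F ∈ Hole2.CCg k n, cyc w ∈ F := by
  have hk : j + pkn r.1 + 3 = k := by
    rcases hw with hw | hw
    · have h0 := word_phi hw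
      rwa [(bd3 x (x + 1) (x + 2)).2] at h0
    · have h0 := word_phi hw
      rwa [(bd3 x (x + 1) (x + 3)).2] at h0
  rcases hw with hw | hw
  · exact ⟨_, ⟨j, r, x, w, phi r (bd3 x (x + 1) (x + 3)).1 (by rw [(bd3 x (x + 1) (x + 3)).2]; exact hk),
      hr, hw, rfl, rfl⟩, Or.inl rfl⟩
  · exact ⟨_, ⟨j, r, x, phi r (bd3 x (x + 1) (x + 2)).1 (by rw [(bd3 x (x + 1) (x + 2)).2]; exact hk), w,
      hr, rfl, hw, rfl⟩, Or.inr rfl⟩

theorem sum_bead (f : ZMod (2 * j + 1) → ℕ) (x : ZMod (2 * j + 1)) :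
    ∑ z, (f z + if z = x then 1 else 0) = ∑ z, f z + 1 := by
  rw [Finset.sum_add_distrib, Finset.sum_ite_eq' Finset.univ x, if_pos (Finset.mem_univ x)]

/-- the two words of the pair -/
theorem EData.two {p q : Cyc k} {r : X j} {f : ZMod (2 * j + 1) → ℕ} (hE : EData p q j r f) :
    ∃ w w' : X k, w.1 = .nil △ ins r.1 (lf f) ∧ w'.1 = app (ins r.1 (lf f)) (.nil △ .nil) ∧
      w.1 = ins r.1 (lf (fun z => f z + if z = 0 then 1 else 0)) ∧
      w'.1 = ins r.1 (lf (fun z => f z + if z = -1 then 1 else 0)) ∧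
      ((cyc w = p ∧ cyc w' = q) ∨ (cyc w = q ∧ cyc w' = p)) := by
  have h0 : ∀ x, j + pkn r.1 + ∑ z, (f z + if z = x then 1 else 0) = k := by
    intro x
    rw [sum_bead]
    exact hE.size
  have e1 := ins_front r f
  have e2 := ins_back r f
  refine ⟨phi r _ (h0 0), phi r _ (h0 (-1)), e1, e2, rfl, rfl, ?_⟩
  rcases hE.words with h | h
  · exact Or.inl (h _ _ e1 e2)
  · exact Or.inr (h _ _ e1 e2)

theorem cast_sub_one (hj : 1 ≤ j) : ((2 * j - 1 : ℕ) : ZMod (2 * j + 1)) = -2 := by
  have hL : ((2 * j + 1 : ℕ) : ZMod (2 * j + 1)) = 0 := ZMod.natCast_self _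
  obtain ⟨i, rfl⟩ : ∃ i, j = i + 1 := ⟨j - 1, by omega⟩
  have e : 2 * (i + 1) - 1 = 2 * i + 1 := by omega
  rw [e]
  push_cast at hL ⊢
  linear_combination hL

theorem cast_two (j : ℕ) : ((2 * j : ℕ) : ZMod (2 * j + 1)) = -1 := by
  have hL : ((2 * j + 1 : ℕ) : ZMod (2 * j + 1)) = 0 := ZMod.natCast_self _
  push_cast at hL ⊢
  linear_combination hL

/-- the six bad lists: one of the two words is `C` or `C'` -/
theorem six (hj : 1 ≤ j) {r : X j} (hr : Rd (cyc r) = ⟨n, cyc (pwX n)⟩) {f : ZMod (2 * j + 1) → ℕ}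
    (hp : Ft.ps (ins r.1 (lf f)) = [2 * j - 1, 2 * j] ∨ Ft.ps (ins r.1 (lf f)) = [0, 2 * j - 1] ∨
      Ft.ps (ins r.1 (lf f)) = [0, 1] ∨ Ft.ps (ins r.1 (lf f)) = [1, 2 * j] ∨
      Ft.ps (ins r.1 (lf f)) = [0, 2] ∨ Ft.ps (ins r.1 (lf f)) = [2, 2 * j])
    {w w' : X k} (hw : w.1 = ins r.1 (lf (fun z => f z + if z = 0 then 1 else 0)))
    (hw' : w'.1 = ins r.1 (lf (fun z => f z + if z = -1 then 1 else 0))) :
    ∃ F ∈ Hole2.CCg k n, cyc w ∈ F ∨ cyc w' ∈ F := by
  have key : ∀ {x : ZMod (2 * j + 1)} {v : X k} {g : ZMod (2 * j + 1) → ℕ}, v.1 = ins r.1 (lf g) →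
      (v = w ∨ v = w') → (g = (bd3 x (x + 1) (x + 2)).1 ∨ g = (bd3 x (x + 1) (x + 3)).1) →
      ∃ F ∈ Hole2.CCg k n, cyc w ∈ F ∨ cyc w' ∈ F := by
    intro x v g hv hvw hg
    obtain ⟨F, hF, hc⟩ := mem_C (k := k) hr (x := x) (w := v) (by
      rcases hg with rfl | rfl
      · exact Or.inl hv
      · exact Or.inr hv)
    rcases hvw with rfl | rfl
    · exact ⟨F, hF, Or.inl hc⟩
    · exact ⟨F, hF, Or.inr hc⟩
  have cL := cast_two j
  have cM := cast_sub_one hj
  rcases hp with hp | hp | hp | hp | hp | hp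
  · have hf := f_two r f (by omega) (by omega) hp
    refine key (x := -2) hw (Or.inl rfl) (Or.inl ?_)
    funext z
    rw [hf, bd3_apply, cL, cM, show (-2 : ZMod (2 * j + 1)) + 1 = -1 by ring, show (-2 : ZMod (2 * j + 1)) + 2 = 0 by ring]
    simp only [eq_comm (a := z)]
  · have hf := f_two r f (by omega) (by omega) hp
    refine key (x := -2) hw' (Or.inr rfl) (Or.inl ?_)
    funext z
    rw [hf, bd3_apply, Nat.cast_zero, cM, show (-2 : ZMod (2 * j + 1)) + 1 = -1 by ring,
      show (-2 : ZMod (2 * j + 1)) + 2 = 0 by ring]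
    simp only [eq_comm (a := z)]
    omega
  · have hf := f_two r f (a := 0) (b := 1) (by omega) (by omega) hp
    refine key (x := -1) hw' (Or.inr rfl) (Or.inl ?_)
    funext z
    rw [hf, bd3_apply, Nat.cast_zero, Nat.cast_one, show (-1 : ZMod (2 * j + 1)) + 1 = 0 by ring,
      show (-1 : ZMod (2 * j + 1)) + 2 = 1 by ring]
    simp only [eq_comm (a := z)]
    omega
  · have hf := f_two r f (a := 1) (b := 2 * j) (by omega) (by omega) hp
    refine key (x := -1) hw (Or.inl rfl) (Or.inl ?_)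
    funext z
    rw [hf, bd3_apply, cL, Nat.cast_one, show (-1 : ZMod (2 * j + 1)) + 1 = 0 by ring,
      show (-1 : ZMod (2 * j + 1)) + 2 = 1 by ring]
    simp only [eq_comm (a := z)]
    omega
  · have hf := f_two r f (a := 0) (b := 2) (by omega) (by omega) hp
    refine key (x := -1) hw' (Or.inr rfl) (Or.inr ?_)
    funext z
    rw [hf, bd3_apply, Nat.cast_zero, Nat.cast_ofNat, show (-1 : ZMod (2 * j + 1)) + 1 = 0 by ring,
      show (-1 : ZMod (2 * j + 1)) + 3 = 2 by ring]
    simp only [eq_comm (a := z)]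
    omega
  · have hf := f_two r f (a := 2) (b := 2 * j) (by omega) (by omega) hp
    refine key (x := -1) hw (Or.inl rfl) (Or.inr ?_)
    funext z
    rw [hf, bd3_apply, cL, Nat.cast_ofNat, show (-1 : ZMod (2 * j + 1)) + 1 = 0 by ring,
      show (-1 : ZMod (2 * j + 1)) + 3 = 2 by ring]
    simp only [eq_comm (a := z)]
    omega

/-- the reduced T-cycle from the content -/
theorem rd_of_cont (hn : 1 ≤ n) {w : X k} {r : X j} (hR : Rd (cyc w) = ⟨j, cyc r⟩)
    (hc : cont w.1 = ({n + 2} + Multiset.replicate b 2) + Multiset.replicate m 1) :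
    j = n + 1 + b ∧ Rd (cyc r) = ⟨n, cyc (pwX n)⟩ := by
  obtain ⟨_, U, h1, h2, _⟩ := Hole2.cls_dataM hn (p := cyc w) hc
  rw [hR] at h1
  obtain ⟨rfl, h3⟩ := Sigma.mk.inj_iff.1 h1
  rw [eq_of_heq h3]
  exact ⟨rfl, h2⟩

/-- number of parts `1` of `X` -/
theorem count_X (r : X j) (f : ZMod (2 * j + 1) → ℕ) : (cont (ins r.1 (lf f))).count 1 = ∑ z, f z := by
  rw [count_one_ins r.1 _ (by rw [X_num]; exact lf_length f), lf_sum]

/-- **E EXISTS, GOOD PHASE**: every hop pair which is in no pair `{C, C'}` -/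
theorem edata_good {p q : Cyc k} (h : HopC p q) (hC : ∀ n, ∀ F ∈ Hole2.CCg k n, p ∉ F ∧ q ∉ F) :
    ∃ (j : ℕ) (r : X j) (f : ZMod (2 * j + 1) → ℕ), EData p q j r f ∧ Low r.1 ∧ ¬ BadE (ins r.1 (lf f)) := by
  obtain ⟨j, r, f, hE, hlow⟩ := h.edata'
  have hj := hE.hj
  obtain ⟨w, w', hw, hw', hv, hv', hpq⟩ := EData.two hE
  have hcw : cont w.1 = {1} + cont (ins r.1 (lf f)) := by
    rw [hw, cont_node, cont_nil]
    rfl
  have hRw : Rd (cyc w) = ⟨j, cyc r⟩ := by
    rcases hpq with ⟨e, _⟩ | ⟨e, _⟩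
    · rw [e]; exact hE.rp
    · rw [e]; exact hE.rq
  by_cases hb : BadE (ins r.1 (lf f))
  swap
  · exact ⟨j, r, f, hE, hlow, hb⟩
  cases hb with
  | m3 n b hn hb hc hp =>
    exfalso
    rw [ln_ins (by rw [lf_length, X_num]), X_num] at hp
    have hr := (rd_of_cont hn (b := b) (m := 3) hRw (by
      rw [hcw, hc]
      rw [show Multiset.replicate 3 1 = {1} + Multiset.replicate 2 1 from rfl]
      abel)).2
    obtain ⟨F, hF, h1⟩ := six hj hr hp hv hv'
    have h2 := hC n F hF
    rcases hpq with ⟨e, e'⟩ | ⟨e, e'⟩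
    · rw [e, e'] at h1
      rcases h1 with h1 | h1
      · exact h2.1 h1
      · exact h2.2 h1
    · rw [e, e'] at h1
      rcases h1 with h1 | h1
      · exact h2.2 h1
      · exact h2.1 h1
  | m2 n b hn hb hc hp =>
    obtain ⟨Y, hY⟩ := hp
    obtain ⟨hjn, hr⟩ := rd_of_cont (n := n + 1) (by omega) (b := b) (m := 2) hRw (by
      rw [hcw, hc]
      rw [show Multiset.replicate 2 1 = {1} + {1} from rfl]
      abel)
    have hf1 := f_pile hj r f hY
    have hs : ∑ z, f z = 1 := by
      rw [← count_X r f, hc, Multiset.count_add, Multiset.count_add, Multiset.count_singleton,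
        Multiset.count_replicate, Multiset.count_singleton, if_neg (by omega), if_neg (by omega), if_pos rfl]
    have hf : ∀ z, f z = if z = 1 then 1 else 0 := by
      intro z
      have h1 := Finset.add_sum_erase Finset.univ f (Finset.mem_univ (1 : ZMod (2 * j + 1)))
      rw [hs] at h1
      by_cases hz : z = 1
      · subst hz
        rw [if_pos rfl]
        omega
      · rw [if_neg hz]
        have h2 := Finset.single_le_sum (f := f) (fun _ _ => Nat.zero_le _)
          (Finset.mem_erase.2 ⟨hz, Finset.mem_univ z⟩)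
        omega
    have ne3 : (1 : ZMod (2 * j + 1)) ≠ -2 := by
      intro e
      have e1 : ((3 : ℕ) : ZMod (2 * j + 1)) = 0 := by push_cast; linear_combination e
      rw [ZMod.natCast_eq_zero_iff] at e1
      have := Nat.le_of_dvd (by omega) e1
      omega
    obtain ⟨f', hf'⟩ : ∃ f' : ZMod (2 * j + 1) → ℕ, ∀ z, f' z = if z = -2 then 1 else 0 := ⟨_, fun _ => rfl⟩
    have hs' : ∑ z, f' z = 1 := by
      simp only [hf', Finset.sum_ite_eq', Finset.mem_univ, if_true]
    refine ⟨j, r, f', ⟨hj, ?_, hE.rp, hE.rq, ?_⟩, hlow, ?_⟩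
    · have := hE.size
      omega
    · have key : ∀ v v' : X k, v.1 = .nil △ ins r.1 (lf f') → v'.1 = app (ins r.1 (lf f')) (.nil △ .nil) →
          cyc v = cyc w' ∧ cyc v' = cyc w := by
        intro v v' h1 h2
        rw [← ins_front] at h1
        rw [← ins_back] at h2
        constructor
        · refine (rot_free (n := n + 1) (by omega) hr rfl 1 hv' h1 ?_).symm
          intro z
          simp only [hf, hf']
          have e1 : z + 1 = 1 ↔ z = 0 := by
            constructor
            · intro h; linear_combination h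
            · intro h; linear_combination h
          have e2 : z + 1 = -1 ↔ z = -2 := by
            constructor
            · intro h; linear_combination h
            · intro h; linear_combination h
          simp only [e1, e2]
          omega
        · refine (rot_free (n := n + 1) (by omega) hr rfl 2 hv h2 ?_).symm
          intro z
          simp only [hf, hf']
          have e1 : z + 2 = 1 ↔ z = -1 := by
            constructor
            · intro h; linear_combination h
            · intro h; linear_combination h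
          have e2 : z + 2 = 0 ↔ z = -2 := by
            constructor
            · intro h; linear_combination h
            · intro h; linear_combination h
          simp only [e1, e2]
          omega
      rcases hpq with ⟨e, e'⟩ | ⟨e, e'⟩
      · right
        intro v v' h1 h2
        rw [← e, ← e']
        exact key v v' h1 h2
      · left
        intro v v' h1 h2
        rw [← e, ← e']
        exact key v v' h1 h2
    · intro hb'
      cases hb' with
      | m3 n' b' hn' hb' hc' hp' =>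
        have h1 := count_X r f'
        rw [hc', hs', Multiset.count_add, Multiset.count_add, Multiset.count_singleton,
          Multiset.count_replicate, Multiset.count_replicate, if_neg (by omega), if_neg (by omega), if_pos rfl] at h1
        omega
      | m2 n' b' hn' hb' hc' hp' =>
        obtain ⟨Y', hY'⟩ := hp'
        have h1 := f_pile hj r f' hY'
        rw [hf', if_neg ne3] at h1
        omega

/-- **E EXISTS, GOOD PHASE**: the pairs `{C, C'}` -/
theorem edata_cc (hn : 1 ≤ n) {F : Set (Cyc k)} (hF : F ∈ Hole2.CCg k n) (h6 : ∀ c ∈ F, 6 ≤ (Rd c).1) :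
    ∃ p q : Cyc k, p ≠ q ∧ F = {p, q} ∧ ∃ (j : ℕ) (r : X j) (f : ZMod (2 * j + 1) → ℕ), EData p q j r f ∧ Low r.1 ∧
      ¬ BadE (ins r.1 (lf f)) := by
  obtain ⟨j, u, x, w, w', hu, hw, hw', rfl⟩ := hF
  have hRw := Rd_ins (lf_length _) hw
  have hRw' := Rd_ins (lf_length _) hw'
  have hj : 6 ≤ j := by
    have := h6 (cyc w) (Or.inl rfl)
    rw [hRw] at this
    exact this
  obtain ⟨i, hlow⟩ := exists_low u
  have hcr : cyc u = cyc ((TT ^ i) u) := cyc_eq.2 ⟨(i : ℤ), by rw [zpow_natCast]⟩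
  have hr : Rd (cyc ((TT ^ i) u)) = ⟨n, cyc (pwX n)⟩ := by rw [← hcr]; exact hu
  have hk : j + pkn u.1 + 3 = k := by
    have h0 := word_phi hw
    rwa [(bd3 x (x + 1) (x + 2)).2] at h0
  have hne : cyc w' ≠ cyc w := by
    obtain ⟨G, hG, e⟩ := Hole2.exists_F (cyc u) hu
    have hp : pkn (phi (pwX n) G hG).1 = pkn u.1 := by
      rw [← pkc_cyc, ← pkc_cyc, e]
    have h0 : ∀ y : Ms (2 * j + 1) 3, j + pkn (phi (pwX n) G hG).1 + ∑ z, y.1 z = k := by
      intro y
      rw [y.2, hp]
      exact hk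
    have e1 : cyc w = cyc (phi (phi (pwX n) G hG) _ (h0 (bd3 x (x + 1) (x + 2)))) :=
      Hole2.word_indep hn G hG e hw 0 (by
        change ins _ (lf _) = _
        simp only [add_zero])
    have e2 : cyc w' = cyc (phi (phi (pwX n) G hG) _ (h0 (bd3 x (x + 1) (x + 3)))) :=
      Hole2.word_indep hn G hG e hw' 0 (by
        change ins _ (lf _) = _
        simp only [add_zero])
    rw [e1, e2]
    exact (cc_ne hj (one_rot hn G hG) (x := x) rfl rfl).symm
  have cne : ∀ d : ℕ, 1 ≤ d → d ≤ 4 → (d : ZMod (2 * j + 1)) ≠ 0 := by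
    intro d h1 h2 h
    rw [ZMod.natCast_eq_zero_iff] at h
    have := Nat.le_of_dvd (by omega) h
    omega
  obtain ⟨f, hf⟩ : ∃ f : ZMod (2 * j + 1) → ℕ, ∀ z, f z = (if z = -3 then 1 else 0) + (if z = -2 then 1 else 0) :=
    ⟨_, fun _ => rfl⟩
  have hs : ∑ z, f z = 2 := by
    simp only [hf, Finset.sum_add_distrib, Finset.sum_ite_eq', Finset.mem_univ, if_true]
  have f0 : f 0 = 0 := by
    rw [hf, if_neg, if_neg]
    · intro e; exact cne 2 (by omega) (by omega) (by push_cast; linear_combination e)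
    · intro e; exact cne 3 (by omega) (by omega) (by push_cast; linear_combination e)
  have f1 : f (-1) = 0 := by
    rw [hf, if_neg, if_neg]
    · intro e; exact cne 1 (by omega) (by omega) (by push_cast; linear_combination e)
    · intro e; exact cne 2 (by omega) (by omega) (by push_cast; linear_combination e)
  refine ⟨cyc w', cyc w, hne, Set.pair_comm _ _, j, (TT ^ i) u, f, ⟨by omega, ?_, by rw [hRw', hcr], by rw [hRw, hcr],
    Or.inl ?_⟩, hlow, ?_⟩
  · rw [pkn_pow, hs]
    exact hk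
  · intro v v' h1 h2
    rw [← ins_front] at h1
    rw [← ins_back] at h2
    constructor
    · refine (rot_free hn hr hcr (x + 3) hw' h1 ?_).symm
      intro z
      simp only [hf, bd3_apply]
      have e1 : z = -3 ↔ x = z + (x + 3) := by
        constructor
        · intro h; linear_combination -h
        · intro h; linear_combination -h
      have e2 : z = -2 ↔ x + 1 = z + (x + 3) := by
        constructor
        · intro h; linear_combination -h
        · intro h; linear_combination -h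
      have e3 : z = 0 ↔ x + 3 = z + (x + 3) := by
        constructor
        · intro h; linear_combination -h
        · intro h; linear_combination -h
      simp only [e1, e2, e3]
    · refine (rot_free hn hr hcr (x + 3) hw h2 ?_).symm
      intro z
      simp only [hf, bd3_apply]
      have e1 : z = -3 ↔ x = z + (x + 3) := by
        constructor
        · intro h; linear_combination -h
        · intro h; linear_combination -h
      have e2 : z = -2 ↔ x + 1 = z + (x + 3) := by
        constructor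
        · intro h; linear_combination -h
        · intro h; linear_combination -h
      have e3 : z = -1 ↔ x + 2 = z + (x + 3) := by
        constructor
        · intro h; linear_combination -h
        · intro h; linear_combination -h
      simp only [e1, e2, e3]
  · intro hb
    cases hb with
    | m3 n' b' hn' hb' hc' hp =>
      rw [ln_ins (by rw [lf_length, X_num]), X_num] at hp
      have c0 := count_ps' ((TT ^ i) u) f (a := 0) (by omega)
      have cL := count_ps' ((TT ^ i) u) f (a := 2 * j) (by omega)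
      rw [Nat.cast_zero, f0] at c0
      rw [cast_two, f1] at cL
      have m0 : 0 ∉ Ft.ps (ins ((TT ^ i) u).1 (lf f)) := List.count_eq_zero.1 c0
      have mL : 2 * j ∉ Ft.ps (ins ((TT ^ i) u).1 (lf f)) := List.count_eq_zero.1 cL
      rcases hp with hp | hp | hp | hp | hp | hp
      · exact mL (by rw [hp]; simp)
      · exact m0 (by rw [hp]; simp)
      · exact m0 (by rw [hp]; simp)
      · exact mL (by rw [hp]; simp)
      · exact m0 (by rw [hp]; simp)
      · exact mL (by rw [hp]; simp)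
    | m2 n' b' hn' hb' hc' hp' =>
      have h1 := count_X ((TT ^ i) u) f
      rw [hc', hs, Multiset.count_add, Multiset.count_add, Multiset.count_singleton,
        Multiset.count_replicate, Multiset.count_singleton, if_neg (by omega), if_neg (by omega), if_pos rfl] at h1
      omega

end L1

/-- TYPE Ex: an E triple with a phase which is not bad -/
def TyEx (F : Set (Cyc k)) (g : DG k) : Prop :=
  ∃ (j : ℕ) (r : X j) (f : ZMod (2 * j + 1) → ℕ), 1 ≤ j ∧ Low r.1 ∧ ¬ L1.BadE (ins r.1 (lf f)) ∧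
    IsTri .nil (ins r.1 (lf f)) .nil F g

theorem TyEx.toE {F : Set (Cyc k)} {g : DG k} (h : TyEx F g) : TyE F g := by
  obtain ⟨j, r, f, h1, h2, _, h3⟩ := h
  exact ⟨j, r, f, h1, h2, h3⟩

/-- every representation is not bad -/
theorem TyEx.not_bad {F : Set (Cyc k)} {g : DG k} (h : TyEx F g) {Y : BinaryTree Unit}
    (hY : IsTri .nil Y .nil F g) : ¬ L1.BadE Y := by
  obtain ⟨j, r, f, h1, h2, h3, h4⟩ := h
  rw [hY.X_inj h4]
  exact h3

/-- **TYPE Ex EXISTS** -/
theorem TyEx.ex {p q : Cyc k} (hpq : p ≠ q) (h : HopC p q) (hC : ∀ n, ∀ F ∈ Hole2.CCg k n, p ∉ F ∧ q ∉ F) :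
    ∃ g, TyEx {p, q} g := by
  obtain ⟨j, r, f, hE, h1, h2⟩ := L1.edata_good h hC
  obtain ⟨g, hg⟩ := hE.tri hpq
  exact ⟨g, j, r, f, hE.hj, h1, h2, hg⟩

theorem TyEx.cc (hn : 1 ≤ n) {F : Set (Cyc k)} (hF : F ∈ Hole2.CCg k n) (h6 : ∀ c ∈ F, 6 ≤ (Rd c).1) :
    ∃ g, TyEx F g := by
  obtain ⟨p, q, hpq, rfl, j, r, f, hE, h1, h2⟩ := L1.edata_cc hn hF h6
  obtain ⟨g, hg⟩ := hE.tri hpq
  exact ⟨g, j, r, f, hE.hj, h1, h2, hg⟩

/-! ### The two types of the matrix -/

/-- a low word is not prime or deep -/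
theorem Low.cases (hj : 3 ≤ j) {r : X j} (h : Low r.1) : (∀ A, r.1 ≠ A △ .nil) ∨ Deep r.1 := by
  have hr := X_num r
  by_cases h1 : 1 ≤ (cont r.1).count 1
  · obtain ⟨r', e⟩ := h.1 h1
    left
    intro A e'
    rw [e] at e' hr
    injection e' with _ e1 e2
    rw [e2] at hr
    change 0 + 0 + 1 = j at hr
    omega
  · by_cases h2 : 1 ≤ (cont r.1).count 2
    · obtain ⟨r', e⟩ := h.2 (by omega) h2
      left
      intro A e'
      rw [e] at e' hr
      injection e' with _ e1 e2
      rw [e2] at hr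
      change (0 + 0 + 1) + 0 + 1 = j at hr
      omega
    · right
      exact ⟨by omega, by omega⟩

/-- TYPE `En` or `Ed`, and no representation is bad -/
def TyEG (F : Set (Cyc k)) (g : DG k) : Prop :=
  (TyEn F g ∨ TyEd F g) ∧ ∀ Y, IsTri .nil Y .nil F g → ¬ L1.BadE Y

theorem TyEx.tyEG {F : Set (Cyc k)} {g : DG k} (h : TyEx F g) (h3 : ∀ c ∈ F, 3 ≤ (Rd c).1) : TyEG F g := by
  refine ⟨?_, fun Y hY => h.not_bad hY⟩
  obtain ⟨j, r, f, h1, h2, _, h4⟩ := h
  have hj : 3 ≤ j := by
    obtain ⟨a, b, c, ha, hb, hc, _, _, _, rfl, _⟩ := h4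
    have h5 := h3 (cyc c) (Or.inr rfl)
    have h6 : c.1 = ins r.1 (lf (fun z => f z + if z = 0 then 1 else 0)) := by
      rw [ins_front]
      exact hc
    rw [Rd_ins (lf_length _) h6] at h5
    exact h5
  rcases h2.cases hj with h6 | h6
  · exact Or.inl ⟨j, r, f, h1, h2, h6, h4⟩
  · exact Or.inr ⟨j, r, f, h1, h6, h4⟩

/-- **EXISTENCE for the matrix** -/
theorem TyEG.ex {p q : Cyc k} (hpq : p ≠ q) (h : HopC p q) (h3 : 3 ≤ (Rd p).1)
    (hC : ∀ n, ∀ F ∈ Hole2.CCg k n, p ∉ F ∧ q ∉ F) : ∃ g, TyEG {p, q} g := by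
  obtain ⟨g, hg⟩ := TyEx.ex hpq h hC
  refine ⟨g, hg.tyEG ?_⟩
  have h4 : Rd q = Rd p := by
    obtain ⟨j, r, f, hE, _⟩ := h.edata'
    rw [hE.rq, hE.rp]
  rintro c (rfl | rfl)
  · exact h3
  · rw [h4]; exact h3

theorem TyEG.cc (hn : 1 ≤ n) {F : Set (Cyc k)} (hF : F ∈ Hole2.CCg k n) (h6 : ∀ c ∈ F, 6 ≤ (Rd c).1) :
    ∃ g, TyEG F g := by
  obtain ⟨g, hg⟩ := TyEx.cc hn hF h6
  exact ⟨g, hg.tyEG fun c hc => by have := h6 c hc; omega⟩

/-! ### The row `E - L1` -/

/-- **W-Ex-L1** -/
theorem TyEx.dis_L1 (h10 : 10 ≤ k) {F F' : Set (Cyc k)} {g g' : DG k} (h : TyEx F g) (h' : TyL1 F' g') :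
    ∀ w ∈ g.B, w ∉ g'.B := by
  obtain ⟨j, r, f, _, h2, h3, h4⟩ := h
  intro w hw hw'
  exact h3 (h'.badE h10 rfl (by rw [lf_length, X_num]) h2 h4 hw' hw)

theorem TyEG.toE {F : Set (Cyc k)} {g : DG k} (h : TyEG F g) : TyE F g := by
  rcases h.1 with h1 | h1
  · exact h1.toE
  · exact h1.toE

/-- **W-E-L1** with the side condition `no representation is bad` -/
theorem TyE.dis_L1 (h10 : 10 ≤ k) {F F' : Set (Cyc k)} {g g' : DG k} (h : TyE F g)
    (hb : ∀ Y, IsTri .nil Y .nil F g → ¬ L1.BadE Y) (h' : TyL1 F' g') : ∀ w ∈ g.B, w ∉ g'.B := by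
  obtain ⟨j, r, f, _, h2, h4⟩ := h
  intro w hw hw'
  exact hb _ h4 (h'.badE h10 rfl (by rw [lf_length, X_num]) h2 h4 hw' hw)

end Pool.OddHC
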