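import Pool.Agent.Work.MP_8f87b2_h86.CornerQ
import Pool.Agent.Work.MP_8f87b2_end.Fam2
import Pool.Agent.Work.MP_8f87b2_h22.B6

/-!
# The removal lemma of the edge `C - C'` in the families `F(U, 3)`

`C = {x, x+1, x+2}`, `C' = {x, x+1, x+3}` (beads over `u`), `6 ≤ j`, all rotations (`1 ∈ rotGrp u`, one soliton: `one_rot`).
`rem_cc_even`: even family, `{C, C'}` can be removed. `rem_cc_odd`: odd family, `{t, C, C'}` for every `t ≠ C, C'`.
-/

set_option autoImplicit false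

namespace Pool.OddHC

open Finset BinaryTree Multiset Pool.OddHop Cor

variable {j k : ℕ}

/-- all rotations: `g = 1` -/
theorem g_one {u : X j} (h1 : (1 : ZMod (2 * j + 1)) ∈ rotGrp u) (hk : j + pkn u.1 + 3 = k) {g : ℕ} (hg : g ∣ 2 * j + 1)
    (F : Quotient (msSetoid 3 hg) → Cyc k) (hinj : Function.Injective F)
    (hF : ∀ a : Ms (2 * j + 1) 3, ∀ w : X k, w.1 = ins u.1 (lf a.1) → F (Quotient.mk _ a) = cyc w) : g = 1 := by
  obtain ⟨i, h2, h3⟩ := mem_rotGrp.1 h1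
  let a : Ms (2 * j + 1) 3 := bd3 0 0 0
  let b : Ms (2 * j + 1) 3 := bd3 (-1) (-1) (-1)
  have hb : b.1 = fun x => a.1 (x + sp u i) := by
    funext x
    rw [h3]
    change (bd3 (-1) (-1) (-1)).1 x = (bd3 0 0 0).1 (x + 1)
    rw [bd3_apply, bd3_apply]
    have e : (-1 = x) ↔ ((0 : ZMod (2 * j + 1)) = x + 1) := by
      constructor
      · rintro rfl; ring
      · intro h; linear_combination h
    simp only [e]
  have h4 : F (Quotient.mk _ a) = F (Quotient.mk _ b) := by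
    rw [hF a (phi u a.1 (by rw [a.2]; exact hk)) rfl, hF b (phi u b.1 (by rw [b.2]; exact hk)) rfl, cyc_eq, same_iff]
    exact ⟨i, h2, hb⟩
  have h5 : (msSetoid 3 hg) a b := Quotient.exact (hinj h4)
  obtain ⟨t, ht, h6⟩ := h5
  have h7 := h6 0
  have h8 : t = -1 := by
    by_contra hne
    rw [zero_add] at h7
    change (bd3 (-1) (-1) (-1)).1 t = (bd3 0 0 0).1 0 at h7
    rw [bd3_apply, bd3_apply, if_neg (fun h => hne h.symm), if_pos rfl] at h7
    omega
  rw [h8, map_neg, map_one, neg_eq_zero] at ht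
  have h9 : ((1 : ℕ) : ZMod g) = 0 := by rw [Nat.cast_one]; exact ht
  rw [ZMod.natCast_eq_zero_iff] at h9
  exact Nat.dvd_one.1 h9

/-- **the removal lemma**, both parities -/
theorem rem_cc (hj : 6 ≤ j) {u : X j} (h1 : (1 : ZMod (2 * j + 1)) ∈ rotGrp u) {x : ZMod (2 * j + 1)} {c c' : X k}
    (hc : c.1 = ins u.1 (lf (bd3 x (x + 1) (x + 2)).1)) (hc' : c'.1 = ins u.1 (lf (bd3 x (x + 1) (x + 3)).1))
    {t : Cyc k} (ht : Rd t = ⟨j, cyc u⟩) (h2 : oddF j 3 → t ≠ cyc c ∧ t ≠ cyc c') :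
    RemOK ⟨j, cyc u⟩ ({p | p = t ∧ oddF j 3} ∪ {cyc c, cyc c'}) := by
  classical
  have hk : j + pkn u.1 + 3 = k := by
    have h0 := word_phi hc
    rwa [(bd3 x (x + 1) (x + 2)).2] at h0
  obtain ⟨g, hg, F, hinj, hF, hR, hs, hH, hA⟩ := family_rem (by omega) u 3 hk
  obtain rfl := g_one h1 hk hg F hinj hF
  obtain ⟨t', ht'⟩ := hs t ht
  have e1 : F (vq x (2, 1)) = cyc c := by
    refine hF _ _ ?_
    rw [hc]
    simp only [Nat.cast_one, Nat.cast_ofNat]
  have e2 : F (vq x (3, 1)) = cyc c' := by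
    refine hF _ _ ?_
    rw [hc']
    simp only [Nat.cast_one, Nat.cast_ofNat]
  obtain ⟨ι, k1, k2, k3⟩ := near_prescribed (n := 2 * j + 1) (m := 3) ⟨j, rfl⟩ hg (by omega) (by omega) t'
  have hq : Odd (Nat.card (Quotient (msSetoid (n := 2 * j + 1) 3 hg))) ↔ oddF j 3 := quot_odd j 3 hg
  rw [hq] at k3
  obtain ⟨ι', m1, m2, m3, m4⟩ := near_cc (n := 2 * j + 1) (by omega) x ι k1 k2
    (fun q q' a b => ((k3 q).1 a).1.trans ((k3 q').1 b).1.symm)
    (fun h => by
      obtain ⟨a, b⟩ := (k3 _).1 h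
      exact (h2 b).1 (by rw [← ht', ← a]; exact e1))
    (fun h => by
      obtain ⟨a, b⟩ := (k3 _).1 h
      exact (h2 b).2 (by rw [← ht', ← a]; exact e2))
  have m5 : ι' (vq x (3, 1)) = vq x (2, 1) := by rw [← m4, m1]
  refine RemOK.congr (hA HopC (fun q => if q = vq x (2, 1) ∨ q = vq x (3, 1) then q else ι' q) ?_ ?_) ?_
  · intro q
    by_cases hq : q = vq x (2, 1) ∨ q = vq x (3, 1)
    · simp only [hq, if_true]
    · have hq' : ¬ (ι' q = vq x (2, 1) ∨ ι' q = vq x (3, 1)) := by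
        rintro (h | h)
        · apply hq
          right
          rw [← m1 q, h, m4]
        · apply hq
          left
          rw [← m1 q, h, m5]
      simp only [hq, if_false, hq', m1]
  · intro q
    by_cases hq : q = vq x (2, 1) ∨ q = vq x (3, 1)
    · left; simp only [hq, if_true]
    · simp only [hq, if_false]
      rcases m2 q with h | h
      · exact Or.inl h
      · exact Or.inr (hH _ _ h)
  · intro p _
    constructor
    · rintro ⟨q, rfl, hq⟩
      by_cases hq' : q = vq x (2, 1) ∨ q = vq x (3, 1)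
      · rcases hq' with rfl | rfl
        · right; rw [e1]; exact Or.inl rfl
        · right; rw [e2]; exact Or.inr rfl
      · simp only [hq', if_false] at hq
        obtain ⟨a, b⟩ := (k3 q).1 ((m3 q).1 hq)
        left
        exact ⟨by rw [a]; exact ht', b⟩
    · rintro (⟨rfl, b⟩ | h)
      · refine ⟨t', ht', ?_⟩
        by_cases hq' : t' = vq x (2, 1) ∨ t' = vq x (3, 1)
        · simp only [hq', if_true]
        · simp only [hq', if_false]
          exact (m3 t').2 ((k3 t').2 ⟨rfl, b⟩)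
      · rcases h with h | h
        · refine ⟨vq x (2, 1), by rw [e1]; exact h.symm, ?_⟩
          simp only [true_or, if_true]
        · refine ⟨vq x (3, 1), by rw [e2]; exact h.symm, ?_⟩
          simp only [or_true, if_true]

/-- even family -/
theorem rem_cc_even (hj : 6 ≤ j) {u : X j} (h1 : (1 : ZMod (2 * j + 1)) ∈ rotGrp u) {x : ZMod (2 * j + 1)} {c c' : X k}
    (hc : c.1 = ins u.1 (lf (bd3 x (x + 1) (x + 2)).1)) (hc' : c'.1 = ins u.1 (lf (bd3 x (x + 1) (x + 3)).1))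
    (hev : ¬ oddF j 3) : RemOK ⟨j, cyc u⟩ {cyc c, cyc c'} := by
  refine (rem_cc hj h1 hc hc' (t := cyc c) (Rd_ins (lf_length _) hc) (fun h => absurd h hev)).congr fun p _ => ?_
  constructor
  · rintro (h | h)
    · exact absurd h.2 hev
    · exact h
  · intro h; exact Or.inr h

/-- odd family, every leftover -/
theorem rem_cc_odd (hj : 6 ≤ j) {u : X j} (h1 : (1 : ZMod (2 * j + 1)) ∈ rotGrp u) {x : ZMod (2 * j + 1)} {c c' : X k}
    (hc : c.1 = ins u.1 (lf (bd3 x (x + 1) (x + 2)).1)) (hc' : c'.1 = ins u.1 (lf (bd3 x (x + 1) (x + 3)).1))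
    (hod : oddF j 3) {t : Cyc k} (ht : Rd t = ⟨j, cyc u⟩) (h2 : t ≠ cyc c) (h3 : t ≠ cyc c') :
    RemOK ⟨j, cyc u⟩ {t, cyc c, cyc c'} := by
  refine (rem_cc hj h1 hc hc' ht (fun _ => ⟨h2, h3⟩)).congr fun p _ => ?_
  constructor
  · rintro (h | h)
    · exact Or.inl h.1
    · exact Or.inr h
  · rintro (h | h)
    · exact Or.inl ⟨h, hod⟩
    · exact Or.inr h

/-- `C ≠ C'` -/
theorem cc_ne (hj : 6 ≤ j) {u : X j} (h1 : (1 : ZMod (2 * j + 1)) ∈ rotGrp u) {x : ZMod (2 * j + 1)} {c c' : X k}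
    (hc : c.1 = ins u.1 (lf (bd3 x (x + 1) (x + 2)).1)) (hc' : c'.1 = ins u.1 (lf (bd3 x (x + 1) (x + 3)).1)) :
    cyc c ≠ cyc c' := by
  have hk : j + pkn u.1 + 3 = k := by
    have h0 := word_phi hc
    rwa [(bd3 x (x + 1) (x + 2)).2] at h0
  obtain ⟨g, hg, F, hinj, hF, hR, hs, hH, hA⟩ := family_rem (by omega) u 3 hk
  obtain rfl := g_one h1 hk hg F hinj hF
  have e1 : F (vq x (2, 1)) = cyc c := by
    refine hF _ _ ?_
    rw [hc]
    simp only [Nat.cast_one, Nat.cast_ofNat]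
  have e2 : F (vq x (3, 1)) = cyc c' := by
    refine hF _ _ ?_
    rw [hc']
    simp only [Nat.cast_one, Nat.cast_ofNat]
  intro h
  rw [← e1, ← e2] at h
  have h2 := vq_inj x (R := 7) (by omega) (by decide) (by decide) (hinj h)
  exact absurd h2 (by decide)

/-- `C` and `C'` are joined by a hop -/
theorem cc_hop (hj : 6 ≤ j) {u : X j} {x : ZMod (2 * j + 1)} {c c' : X k}
    (hc : c.1 = ins u.1 (lf (bd3 x (x + 1) (x + 2)).1)) (hc' : c'.1 = ins u.1 (lf (bd3 x (x + 1) (x + 3)).1)) :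
    HopC (cyc c) (cyc c') := by
  have hk : j + pkn u.1 + 3 = k := by
    have h0 := word_phi hc
    rwa [(bd3 x (x + 1) (x + 2)).2] at h0
  refine ⟨j, by omega, u, (bd3 x (x + 1) (x + 2)).1, (bd3 x (x + 1) (x + 3)).1, by rw [(bd3 x (x + 1) (x + 2)).2]; exact hk,
    by rw [(bd3 x (x + 1) (x + 3)).2]; exact hk, hop_last _ _ _ _ (Or.inl (by ring)), ?_, ?_⟩
  · congr 1; exact Subtype.ext hc.symm
  · congr 1; exact Subtype.ext hc'.symm

/-- one soliton: all rotations -/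
theorem one_rot {q : ℕ} (hq : 1 ≤ q) (F : ZMod (2 * q + 1) → ℕ) (hk : q + pkn (pwX q).1 + ∑ x, F x = j) :
    (1 : ZMod (2 * j + 1)) ∈ rotGrp (phi (pwX q) F hk) :=
  ⟨_, (Ring1.full_turn hq F hk).1, (Ring1.full_turn hq F hk).2⟩

end Pool.OddHC
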