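import Mathlib

/-!
# Local change of a matching in the corner of the triangular lattice

Index set `ℕ × ℕ`: vertex `(i, a)`, `a ≤ i`, row `i`. `Ed`: the edges of the triangular lattice. `PM S μ`: `μ` is a perfect
matching of `S` by edges. `row_path`: row `r` and a subset `P` of row `r + 1` of the right parity is perfectly matched.
`rematch`: a matching `ι` of a graph which looks like the lattice in the rows `≤ R` can be changed inside the rows `≤ R` so
that the rows `≤ R - 2` (without the fixed set `T`) are matched as prescribed.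
-/

set_option autoImplicit false

namespace Pool.OddHC.Cor

open Finset

/-- the edges of the triangular lattice -/
def Ed (x y : ℕ × ℕ) : Prop :=
  (y.1 = x.1 ∧ (y.2 = x.2 + 1 ∨ x.2 = y.2 + 1)) ∨
    (y.1 = x.1 + 1 ∧ (y.2 = x.2 ∨ y.2 = x.2 + 1)) ∨
    (x.1 = y.1 + 1 ∧ (x.2 = y.2 ∨ x.2 = y.2 + 1))

instance : DecidableRel Ed := fun x y => by unfold Ed; infer_instance

theorem Ed.symm {x y : ℕ × ℕ} (h : Ed x y) : Ed y x := by
  unfold Ed at *
  omega

theorem Ed.ne {x y : ℕ × ℕ} (h : Ed x y) : x ≠ y := by
  rintro rfl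
  unfold Ed at h
  omega

/-- `μ` is a perfect matching of `S` -/
def PM (S : Finset (ℕ × ℕ)) (μ : ℕ × ℕ → ℕ × ℕ) : Prop :=
  ∀ x ∈ S, μ x ∈ S ∧ μ (μ x) = x ∧ Ed x (μ x)

theorem PM.empty : PM ∅ id := fun x hx => absurd hx (Finset.notMem_empty x)

theorem PM.union {S S' : Finset (ℕ × ℕ)} {μ μ' : ℕ × ℕ → ℕ × ℕ} (h : PM S μ) (h' : PM S' μ')
    (hd : Disjoint S S') : PM (S ∪ S') (fun x => if x ∈ S then μ x else μ' x) := by
  intro x hx
  rcases Finset.mem_union.1 hx with h1 | h1
  · have h2 := h x h1
    simp only [h1, if_true, h2.1]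
    exact ⟨Finset.mem_union_left _ h2.1, h2.2.1, h2.2.2⟩
  · have h3 : x ∉ S := fun h4 => Finset.disjoint_left.1 hd h4 h1
    have h2 := h' x h1
    have h4 : μ' x ∉ S := fun h5 => Finset.disjoint_left.1 hd h5 h2.1
    simp only [h3, if_false, h4]
    exact ⟨Finset.mem_union_right _ h2.1, h2.2.1, h2.2.2⟩

theorem PM.pair {x y : ℕ × ℕ} (h : Ed x y) : PM {x, y} (fun z => if z = x then y else x) := by
  intro z hz
  have hne : y ≠ x := h.ne.symm
  rcases Finset.mem_insert.1 hz with rfl | hz
  · simp only [if_true, hne, if_false]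
    exact ⟨by simp, trivial, h⟩
  · rw [Finset.mem_singleton] at hz
    subst hz
    simp only [hne, if_false, if_true]
    exact ⟨by simp, trivial, h.symm⟩

theorem PM.congr {S S' : Finset (ℕ × ℕ)} {μ : ℕ × ℕ → ℕ × ℕ} (h : PM S μ) (e : S = S') : PM S' μ := e ▸ h

/-- a perfectly matched set is even -/
theorem PM.even {S : Finset (ℕ × ℕ)} {μ : ℕ × ℕ → ℕ × ℕ} (h : PM S μ) : S.card % 2 = 0 := by
  have h1 : ∑ _x ∈ S, (1 : ZMod 2) = 0 := by
    refine Finset.sum_involution (fun x _ => μ x) ?_ ?_ ?_ ?_
    · intro x _; decide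
    · intro x hx _; exact (h x hx).2.2.ne.symm
    · intro x hx; exact (h x hx).1
    · intro x hx; exact (h x hx).2.1
  rw [Finset.sum_const, nsmul_eq_mul, mul_one, ZMod.natCast_eq_zero_iff] at h1
  omega

/-- row `r` from `s` on and the elements of `P` in row `r + 1` from `s` on -/
def RS (r s : ℕ) (P : Finset ℕ) : Finset (ℕ × ℕ) :=
  ((Finset.Icc s r).image fun a => (r, a)) ∪ ((P.filter fun a => s ≤ a).image fun a => (r + 1, a))

theorem mem_RS {r s : ℕ} {P : Finset ℕ} {x : ℕ × ℕ} : x ∈ RS r s P ↔
    (x.1 = r ∧ s ≤ x.2 ∧ x.2 ≤ r) ∨ (x.1 = r + 1 ∧ x.2 ∈ P ∧ s ≤ x.2) := by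
  obtain ⟨i, a⟩ := x
  unfold RS
  simp only [Finset.mem_union, Finset.mem_image, Finset.mem_Icc, Finset.mem_filter, Prod.mk.injEq]
  constructor
  · rintro (⟨b, h1, rfl, rfl⟩ | ⟨b, h1, rfl, rfl⟩)
    · exact Or.inl ⟨rfl, h1⟩
    · exact Or.inr ⟨rfl, h1⟩
  · rintro (⟨rfl, h1⟩ | ⟨rfl, h1⟩)
    · exact Or.inl ⟨a, h1, rfl, rfl⟩
    · exact Or.inr ⟨a, h1, rfl, rfl⟩

/-- **row `r` with a covered part `P` of row `r + 1`** -/
theorem row_path (r : ℕ) : ∀ (n s : ℕ), s + n = r + 1 → ∀ P : Finset ℕ, (∀ a ∈ P, s ≤ a ∧ a ≤ r + 1) →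
    P.card % 2 = n % 2 → ∃ μ, PM (RS r s P) μ := by
  intro n
  induction n using Nat.strong_induction_on with
  | _ n ih =>
    intro s hs P hP hc
    rcases Nat.eq_zero_or_pos n with h0 | h0
    · subst h0
      have h1 : P = ∅ := by
        by_contra h2
        obtain ⟨a, ha⟩ := Finset.nonempty_iff_ne_empty.2 h2
        have h3 : P = {r + 1} := by
          ext b
          rw [Finset.mem_singleton]
          constructor
          · intro hb; have := hP b hb; omega
          · rintro rfl
            have := hP a ha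
            have h4 : a = r + 1 := by omega
            rw [h4] at ha
            exact ha
        rw [h3, Finset.card_singleton] at hc
        omega
      subst h1
      refine ⟨id, PM.empty.congr ?_⟩
      symm
      rw [Finset.eq_empty_iff_forall_notMem]
      intro x hx
      rw [mem_RS] at hx
      rcases hx with h2 | h2
      · omega
      · exact absurd h2.2.1 (Finset.notMem_empty _)
    · by_cases c1 : s ∈ P
      · -- `s` over `s`
        obtain ⟨μ, hμ⟩ := ih (n - 1) (by omega) (s + 1) (by omega) (P.erase s) (by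
          intro a ha
          rw [Finset.mem_erase] at ha
          have := hP a ha.2
          omega) (by
          rw [Finset.card_erase_of_mem c1]
          have := Finset.card_pos.2 ⟨s, c1⟩
          omega)
        have he : Ed (r, s) (r + 1, s) := by unfold Ed; simp
        refine ⟨_, ((PM.pair he).union hμ ?_).congr ?_⟩
        · rw [Finset.disjoint_left]
          intro x hx hx'
          rw [mem_RS, Finset.mem_erase] at hx'
          simp only [Finset.mem_insert, Finset.mem_singleton] at hx
          rcases hx with rfl | rfl <;> simp at hx'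
        · ext x
          rw [Finset.mem_union, mem_RS, mem_RS, Finset.mem_erase]
          obtain ⟨i, a⟩ := x
          simp only [Finset.mem_insert, Finset.mem_singleton, Prod.mk.injEq]
          constructor
          · rintro ((⟨rfl, rfl⟩ | ⟨rfl, rfl⟩) | (⟨rfl, h1⟩ | ⟨rfl, h1⟩))
            · left; omega
            · right; exact ⟨rfl, c1, le_refl _⟩
            · left; omega
            · right; exact ⟨rfl, h1.1.2, by omega⟩
          · rintro (⟨rfl, h1⟩ | ⟨rfl, h1, h2⟩)
            · by_cases h3 : a = s
              · left; left; exact ⟨rfl, h3⟩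
              · right; left; exact ⟨rfl, by omega, by omega⟩
            · by_cases h3 : a = s
              · left; right; exact ⟨rfl, h3⟩
              · right; right; exact ⟨rfl, ⟨h3, h1⟩, by omega⟩
      · by_cases c2 : s + 1 ∈ P
        · obtain ⟨μ, hμ⟩ := ih (n - 1) (by omega) (s + 1) (by omega) (P.erase (s + 1)) (by
            intro a ha
            rw [Finset.mem_erase] at ha
            have := hP a ha.2
            refine ⟨?_, this.2⟩
            rcases Nat.lt_or_ge s a with h | h
            · exact h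
            · exfalso
              have h4 : a = s := by omega
              exact c1 (h4 ▸ ha.2)) (by
            rw [Finset.card_erase_of_mem c2]
            have := Finset.card_pos.2 ⟨_, c2⟩
            omega)
          have he : Ed (r, s) (r + 1, s + 1) := by unfold Ed; simp
          refine ⟨_, ((PM.pair he).union hμ ?_).congr ?_⟩
          · rw [Finset.disjoint_left]
            intro x hx hx'
            rw [mem_RS, Finset.mem_erase] at hx'
            simp only [Finset.mem_insert, Finset.mem_singleton] at hx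
            rcases hx with rfl | rfl <;> simp at hx'
          · ext x
            rw [Finset.mem_union, mem_RS, mem_RS, Finset.mem_erase]
            obtain ⟨i, a⟩ := x
            simp only [Finset.mem_insert, Finset.mem_singleton, Prod.mk.injEq]
            constructor
            · rintro ((⟨rfl, rfl⟩ | ⟨rfl, rfl⟩) | (⟨rfl, h1⟩ | ⟨rfl, h1⟩))
              · left; omega
              · right; exact ⟨rfl, c2, by omega⟩
              · left; omega
              · right; exact ⟨rfl, h1.1.2, by omega⟩
            · rintro (⟨rfl, h1⟩ | ⟨rfl, h1, h2⟩)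
              · by_cases h3 : a = s
                · left; left; exact ⟨rfl, h3⟩
                · right; left; exact ⟨rfl, by omega, by omega⟩
              · by_cases h3 : a = s + 1
                · left; right; exact ⟨rfl, h3⟩
                · right; right
                  refine ⟨rfl, ⟨h3, h1⟩, ?_⟩
                  rcases Nat.lt_or_ge s a with h | h
                  · exact h
                  · exfalso
                    have h4 : a = s := by omega
                    exact c1 (h4 ▸ h1)
        · -- `s` and `s + 1` in row `r`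
          have hn : 2 ≤ n := by
            by_contra h3
            have h4 : n = 1 := by omega
            subst h4
            have h5 : P = ∅ := by
              rw [Finset.eq_empty_iff_forall_notMem]
              intro a ha
              have := hP a ha
              have h6 : a = s ∨ a = s + 1 := by omega
              rcases h6 with rfl | rfl
              · exact c1 ha
              · exact c2 ha
            rw [h5, Finset.card_empty] at hc
            omega
          have hbig : ∀ a ∈ P, s + 2 ≤ a := by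
            intro a ha
            have := hP a ha
            by_contra h3
            have h6 : a = s ∨ a = s + 1 := by omega
            rcases h6 with rfl | rfl
            · exact c1 ha
            · exact c2 ha
          obtain ⟨μ, hμ⟩ := ih (n - 2) (by omega) (s + 2) (by omega) P (by
            intro a ha
            exact ⟨hbig a ha, (hP a ha).2⟩) (by omega)
          have he : Ed (r, s) (r, s + 1) := by unfold Ed; simp
          refine ⟨_, ((PM.pair he).union hμ ?_).congr ?_⟩
          · rw [Finset.disjoint_left]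
            intro x hx hx'
            rw [mem_RS] at hx'
            simp only [Finset.mem_insert, Finset.mem_singleton] at hx
            rcases hx with rfl | rfl <;> simp at hx' 
          · ext x
            rw [Finset.mem_union, mem_RS, mem_RS]
            obtain ⟨i, a⟩ := x
            simp only [Finset.mem_insert, Finset.mem_singleton, Prod.mk.injEq]
            constructor
            · rintro ((⟨rfl, rfl⟩ | ⟨rfl, rfl⟩) | (⟨rfl, h1⟩ | ⟨rfl, h1⟩))
              · left; omega
              · left; omega
              · left; omega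
              · right; exact ⟨rfl, h1.1, by omega⟩
            · rintro (⟨rfl, h1⟩ | ⟨rfl, h1, h2⟩)
              · by_cases h3 : a = s
                · left; left; exact ⟨rfl, h3⟩
                · by_cases h4 : a = s + 1
                  · left; right; exact ⟨rfl, h4⟩
                  · right; left; exact ⟨rfl, by omega, by omega⟩
              · right; right
                exact ⟨rfl, h1, hbig a h1⟩

/-- the rows `< R` -/
def Rows (R : ℕ) : Finset (ℕ × ℕ) := (Finset.range R).biUnion fun i => (Finset.range (i + 1)).image fun a => (i, a)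

theorem mem_Rows {R : ℕ} {x : ℕ × ℕ} : x ∈ Rows R ↔ x.1 < R ∧ x.2 ≤ x.1 := by
  obtain ⟨i, a⟩ := x
  unfold Rows
  simp only [Finset.mem_biUnion, Finset.mem_range, Finset.mem_image, Prod.mk.injEq]
  constructor
  · rintro ⟨i', h1, a', h2, rfl, rfl⟩
    exact ⟨h1, by omega⟩
  · rintro ⟨h1, h2⟩
    exact ⟨i, h1, a, by omega, rfl, rfl⟩

/-- **LOCAL CHANGE OF A MATCHING.** Rows `≤ r + 1`; rows `< r` (without the fixed set `T`) are matched by `μ₀` -/
theorem rematch {V : Type*} (adj : V → V → Prop) (v : ℕ × ℕ → V) (r : ℕ)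
    (hinj : ∀ x ∈ Rows (r + 2), ∀ y ∈ Rows (r + 2), v x = v y → x = y)
    (hE : ∀ x ∈ Rows (r + 2), ∀ y ∈ Rows (r + 2), Ed x y → adj (v x) (v y))
    (hN : ∀ x ∈ Rows (r + 1), ∀ y, adj (v x) y → ∃ z ∈ Rows (r + 2), y = v z)
    (T : Finset (ℕ × ℕ)) (μ0 : ℕ × ℕ → ℕ × ℕ) (h0 : PM (Rows r \ T) μ0)
    (ι : V → V) (h1 : ∀ x, ι (ι x) = x) (h2 : ∀ x, ι x = x ∨ adj x (ι x))
    (hT : ∀ x ∈ Rows (r + 1), ι (v x) = v x ↔ x ∈ T) (hTr : T ⊆ Rows r) :
    ∃ ι' : V → V, (∀ x, ι' (ι' x) = x) ∧ (∀ x, ι' x = x ∨ adj x (ι' x)) ∧ (∀ x, ι' x = x ↔ ι x = x) ∧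
      ∀ x ∈ Rows r \ T, ι' (v x) = v (μ0 x) := by
  classical
  -- the covered part of the last row
  obtain ⟨P, hP⟩ : ∃ P : Finset ℕ, ∀ a, a ∈ P ↔ a ≤ r + 1 ∧ ∃ x ∈ Rows (r + 1), ι (v (r + 1, a)) = v x := by
    let Q : ℕ → Prop := fun a => ∃ x ∈ Rows (r + 1), ι (v (r + 1, a)) = v x
    refine ⟨(Finset.range (r + 2)).filter Q, fun a => ?_⟩
    rw [Finset.mem_filter, Finset.mem_range]
    constructor
    · rintro ⟨h3, h4⟩; exact ⟨by omega, h4⟩
    · rintro ⟨h3, h4⟩; exact ⟨by omega, h4⟩
  set S : Finset (ℕ × ℕ) := (Rows r \ T) ∪ RS r 0 P with hS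
  have hdis : Disjoint (Rows r \ T) (RS r 0 P) := by
    rw [Finset.disjoint_left]
    intro x hx hx'
    rw [Finset.mem_sdiff, mem_Rows] at hx
    rw [mem_RS] at hx'
    omega
  have hSm : ∀ x, x ∈ S ↔ (x ∈ Rows (r + 1) ∧ x ∉ T) ∨ (x.1 = r + 1 ∧ x.2 ∈ P) := by
    intro x
    rw [hS, Finset.mem_union, Finset.mem_sdiff, mem_Rows, mem_RS, mem_Rows]
    constructor
    · rintro (h3 | h3 | h3)
      · left; exact ⟨by omega, h3.2⟩
      · left
        refine ⟨by omega, fun h4 => ?_⟩
        have := mem_Rows.1 (hTr h4)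
        omega
      · right; exact ⟨h3.1, h3.2.1⟩
    · rintro (h3 | h3)
      · by_cases h4 : x.1 = r
        · right; left; omega
        · left; exact ⟨by omega, h3.2⟩
      · right; right; exact ⟨h3.1, h3.2, by omega⟩
  have hSR : ∀ x ∈ S, x ∈ Rows (r + 2) := by
    intro x hx
    rw [hSm] at hx
    rw [mem_Rows]
    rcases hx with ⟨h3, _⟩ | ⟨h3, h4⟩
    · rw [mem_Rows] at h3; omega
    · have := ((hP _).1 h4).1; omega
  -- `ι` preserves `S`
  have hι : ∀ x ∈ S, ∃ y ∈ S, ι (v x) = v y ∧ y ≠ x := by
    intro x hx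
    have hxS := hx
    rw [hSm] at hx
    rcases hx with ⟨h3, h4⟩ | ⟨h3, h4⟩
    · have h5 : ι (v x) ≠ v x := fun h6 => h4 ((hT x h3).1 h6)
      obtain ⟨z, hz, h6⟩ := hN x h3 _ ((h2 (v x)).resolve_left h5)
      refine ⟨z, ?_, h6, fun h7 => h5 (by rw [h6, h7])⟩
      rw [hSm]
      rw [mem_Rows] at hz
      by_cases h7 : z.1 = r + 1
      · right
        refine ⟨h7, (hP _).2 ⟨by omega, x, h3, ?_⟩⟩
        have h8 : (r + 1, z.2) = z := by rw [← h7]
        rw [h8, ← h6, h1]
      · left
        have h8 : z ∈ Rows (r + 1) := mem_Rows.2 ⟨by omega, hz.2⟩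
        refine ⟨h8, fun h9 => ?_⟩
        have h10 := (hT z h8).2 h9
        rw [← h6, h1] at h10
        exact h5 h10.symm
    · obtain ⟨h5, y, hy, h6⟩ := (hP _).1 h4
      have h7 : (r + 1, x.2) = x := by rw [← h3]
      rw [h7] at h6
      refine ⟨y, ?_, h6, ?_⟩
      · rw [hSm]
        left
        refine ⟨hy, fun h8 => ?_⟩
        have h9 := (hT y hy).2 h8
        rw [← h6, h1] at h9
        have h10 : x = y := hinj x (hSR x hxS) y (by rw [mem_Rows] at hy ⊢; omega) (by rw [h9, h6])
        rw [← h10, mem_Rows] at hy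
        omega
      · rintro rfl
        rw [mem_Rows] at hy
        omega
  choose! f hf1 hf2 hf3 using hι
  have hff : ∀ x ∈ S, f (f x) = x := by
    intro x hx
    apply hinj _ (hSR _ (hf1 _ (hf1 _ hx))) _ (hSR _ hx)
    rw [← hf2 _ (hf1 _ hx), ← hf2 _ hx, h1]
  have hcard : S.card % 2 = 0 := by
    have h3 : ∑ _x ∈ S, (1 : ZMod 2) = 0 := by
      refine Finset.sum_involution (fun x _ => f x) ?_ ?_ ?_ ?_
      · intro x _; decide
      · intro x hx _; exact hf3 x hx
      · intro x hx; exact hf1 x hx
      · intro x hx; exact hff x hx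
    rw [Finset.sum_const, nsmul_eq_mul, mul_one, ZMod.natCast_eq_zero_iff] at h3
    omega
  have hcR : (RS r 0 P).card = (r + 1) + P.card := by
    unfold RS
    rw [Finset.card_union_of_disjoint, Finset.card_image_of_injective, Finset.card_image_of_injective,
      Nat.card_Icc, Finset.filter_true_of_mem]
    · omega
    · intro a _; omega
    · intro a b h; exact (Prod.mk.inj h).2
    · intro a b h; exact (Prod.mk.inj h).2
    · rw [Finset.disjoint_left]
      intro x hx hx'
      simp only [Finset.mem_image] at hx hx'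
      obtain ⟨a, _, rfl⟩ := hx
      obtain ⟨b, _, hb⟩ := hx'
      have := (Prod.mk.inj hb).1
      omega
  have hpar : P.card % 2 = (r + 1) % 2 := by
    rw [hS, Finset.card_union_of_disjoint hdis, hcR] at hcard
    have := h0.even
    omega
  obtain ⟨μ1, h3⟩ := row_path r (r + 1) 0 (by omega) P (by
    intro a ha
    exact ⟨by omega, ((hP a).1 ha).1⟩) hpar
  have h4 := h0.union h3 hdis
  set μ := fun x => if x ∈ Rows r \ T then μ0 x else μ1 x with hμ
  rw [← hS] at h4
  -- the new matching
  have key : ∀ x ∈ S, ∀ y ∈ S, v x = v y → x = y := fun x hx y hy h => hinj x (hSR x hx) y (hSR y hy) h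
  let A : V → Prop := fun y => ∃ x ∈ S, v x = y
  have hAι : ∀ y, ¬ A y → ¬ A (ι y) := by
    rintro y hy ⟨x, hx, h5⟩
    apply hy
    refine ⟨f x, hf1 x hx, ?_⟩
    rw [← hf2 x hx, h5, h1]
  let ι' : V → V := fun y => if h : A y then v (μ h.choose) else ι y
  have hin : ∀ x ∈ S, ι' (v x) = v (μ x) := by
    intro x hx
    have hA : A (v x) := ⟨x, hx, rfl⟩
    have h5 : hA.choose = x := key _ hA.choose_spec.1 _ hx hA.choose_spec.2
    simp only [ι', hA, dif_pos, h5]
  have hout : ∀ y, ¬ A y → ι' y = ι y := by
    intro y hy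
    simp only [ι', hy, dif_neg, not_false_iff]
  refine ⟨ι', ?_, ?_, ?_, ?_⟩
  · intro y
    by_cases hy : A y
    · obtain ⟨x, hx, rfl⟩ := hy
      rw [hin x hx, hin _ (h4 x hx).1, (h4 x hx).2.1]
    · rw [hout y hy, hout _ (hAι y hy), h1]
  · intro y
    by_cases hy : A y
    · obtain ⟨x, hx, rfl⟩ := hy
      right
      rw [hin x hx]
      exact hE x (hSR x hx) _ (hSR _ (h4 x hx).1) (h4 x hx).2.2
    · rw [hout y hy]
      exact h2 y
  · intro y
    by_cases hy : A y
    · obtain ⟨x, hx, rfl⟩ := hy
      rw [hin x hx, hf2 x hx]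
      constructor
      · intro h5
        exact absurd (key _ (h4 x hx).1 _ hx h5) (h4 x hx).2.2.ne.symm
      · intro h5
        exact absurd (key _ (hf1 x hx) _ hx h5) (hf3 x hx)
    · rw [hout y hy]
  · intro x hx
    have hxS : x ∈ S := by rw [hS]; exact Finset.mem_union_left _ hx
    rw [hin x hxS, hμ]
    simp only [hx, if_true]

end Pool.OddHC.Cor
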