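import Pool.Agent.Work.MP_8f87b2_h86.Corner
import Pool.Agent.Work.MP_8f87b2_h3.Ends2

/-!
# Three beads on a ring: the edge `{x, x + 1, x + 2} - {x, x + 1, x + 3}` can be prescribed

`near_cc`: `n ≥ 13` odd, all rotations (`g = 1`): every hop matching with at most one vertex left out (not `C`, `C'`) can be
changed so that `C = {x, x+1, x+2}` is matched with `C' = {x, x+1, x+3}` and the left out vertex is the same.
-/

set_option autoImplicit false

namespace Pool.OddHC.Cor

open Finset Pool.OddHop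

/-- look up in a list of pairs -/
def look : List ((ℕ × ℕ) × (ℕ × ℕ)) → ℕ × ℕ → ℕ × ℕ
  | [], x => x
  | (a, b) :: L, x => if x = a then b else if x = b then a else look L x

instance (S : Finset (ℕ × ℕ)) (μ : ℕ × ℕ → ℕ × ℕ) : Decidable (PM S μ) := by
  unfold PM; infer_instance

/-- rows `0 .. 3` -/
theorem table4 : ∃ μ, PM (Rows 4 \ ∅) μ ∧ μ (2, 1) = (3, 1) :=
  ⟨look [((2, 1), (3, 1)), ((0, 0), (1, 0)), ((1, 1), (2, 2)), ((2, 0), (3, 0)), ((3, 2), (3, 3))], by decide, by decide⟩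

/-- rows `0 .. 4` without one vertex -/
theorem table5 (t : ℕ × ℕ) (ht : t ∈ Rows 5) (h1 : t ≠ (2, 1)) (h2 : t ≠ (3, 1)) :
    ∃ μ, PM (Rows 5 \ {t}) μ ∧ μ (2, 1) = (3, 1) := by
  obtain ⟨i, a⟩ := t
  rw [mem_Rows] at ht
  obtain ⟨hi, ha⟩ := ht
  simp only at hi ha
  interval_cases i
  · interval_cases a
    exact ⟨look [((2, 1), (3, 1)), ((1, 0), (1, 1)), ((2, 0), (3, 0)), ((2, 2), (3, 2)), ((3, 3), (4, 4)), ((4, 0), (4, 1)),
      ((4, 2), (4, 3))], by decide, by decide⟩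
  · interval_cases a
    · exact ⟨look [((2, 1), (3, 1)), ((0, 0), (1, 1)), ((2, 0), (3, 0)), ((2, 2), (3, 2)), ((3, 3), (4, 4)), ((4, 0), (4, 1)),
        ((4, 2), (4, 3))], by decide, by decide⟩
    · exact ⟨look [((2, 1), (3, 1)), ((0, 0), (1, 0)), ((2, 0), (3, 0)), ((2, 2), (3, 2)), ((3, 3), (4, 4)), ((4, 0), (4, 1)),
        ((4, 2), (4, 3))], by decide, by decide⟩
  · interval_cases a
    · exact ⟨look [((2, 1), (3, 1)), ((0, 0), (1, 0)), ((1, 1), (2, 2)), ((3, 0), (4, 0)), ((3, 2), (3, 3)), ((4, 1), (4, 2)),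
        ((4, 3), (4, 4))], by decide, by decide⟩
    · exact absurd rfl h1
    · exact ⟨look [((2, 1), (3, 1)), ((0, 0), (1, 1)), ((1, 0), (2, 0)), ((3, 0), (4, 0)), ((3, 2), (3, 3)), ((4, 1), (4, 2)),
        ((4, 3), (4, 4))], by decide, by decide⟩
  · interval_cases a
    · exact ⟨look [((2, 1), (3, 1)), ((0, 0), (1, 1)), ((1, 0), (2, 0)), ((2, 2), (3, 2)), ((3, 3), (4, 4)), ((4, 0), (4, 1)),
        ((4, 2), (4, 3))], by decide, by decide⟩
    · exact absurd rfl h2
    · exact ⟨look [((2, 1), (3, 1)), ((0, 0), (1, 0)), ((1, 1), (2, 2)), ((2, 0), (3, 0)), ((3, 3), (4, 4)), ((4, 0), (4, 1)),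
        ((4, 2), (4, 3))], by decide, by decide⟩
    · exact ⟨look [((2, 1), (3, 1)), ((0, 0), (1, 0)), ((1, 1), (2, 2)), ((2, 0), (3, 0)), ((3, 2), (4, 2)), ((4, 0), (4, 1)),
        ((4, 3), (4, 4))], by decide, by decide⟩
  · interval_cases a
    · exact ⟨look [((2, 1), (3, 1)), ((0, 0), (1, 0)), ((1, 1), (2, 2)), ((2, 0), (3, 0)), ((3, 2), (3, 3)), ((4, 1), (4, 2)),
        ((4, 3), (4, 4))], by decide, by decide⟩
    · exact ⟨look [((2, 1), (3, 1)), ((0, 0), (1, 1)), ((1, 0), (2, 0)), ((2, 2), (3, 2)), ((3, 0), (4, 0)), ((3, 3), (4, 4)),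
        ((4, 2), (4, 3))], by decide, by decide⟩
    · exact ⟨look [((2, 1), (3, 1)), ((0, 0), (1, 0)), ((1, 1), (2, 2)), ((2, 0), (3, 0)), ((3, 2), (3, 3)), ((4, 0), (4, 1)),
        ((4, 3), (4, 4))], by decide, by decide⟩
    · exact ⟨look [((2, 1), (3, 1)), ((0, 0), (1, 0)), ((1, 1), (2, 2)), ((2, 0), (3, 0)), ((3, 2), (4, 2)), ((3, 3), (4, 4)),
        ((4, 0), (4, 1))], by decide, by decide⟩
    · exact ⟨look [((2, 1), (3, 1)), ((0, 0), (1, 0)), ((1, 1), (2, 2)), ((2, 0), (3, 0)), ((3, 2), (3, 3)), ((4, 0), (4, 1)),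
        ((4, 2), (4, 3))], by decide, by decide⟩

/-! ### Three beads -/

variable {n : ℕ} [NeZero n]

/-- beads at `x`, `y`, `z` -/
def bd3 (x y z : ZMod n) : Ms n 3 :=
  ⟨fun w => (if x = w then 1 else 0) + (if y = w then 1 else 0) + (if z = w then 1 else 0), by
    rw [sum_add_distrib, sum_add_distrib]
    simp⟩

theorem bd3_apply (x y z w : ZMod n) : (bd3 x y z).1 w =
    (if x = w then 1 else 0) + (if y = w then 1 else 0) + (if z = w then 1 else 0) := rfl

theorem bd3_swap12 (x y z : ZMod n) : bd3 x y z = bd3 y x z :=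
  Subtype.ext (by funext w; rw [bd3_apply, bd3_apply]; omega)

theorem bd3_swap23 (x y z : ZMod n) : bd3 x y z = bd3 x z y :=
  Subtype.ext (by funext w; rw [bd3_apply, bd3_apply]; omega)

theorem hop_last (x y z z' : ZMod n) (h : z' = z + 1 ∨ z = z' + 1) : Hop (bd3 x y z).1 (bd3 x y z').1 :=
  ⟨z, z', h, fun w => by rw [bd3_apply, bd3_apply]; omega⟩

theorem hop_mid (x y y' z : ZMod n) (h : y' = y + 1 ∨ y = y' + 1) : Hop (bd3 x y z).1 (bd3 x y' z).1 := by
  rw [bd3_swap23 x y z, bd3_swap23 x y' z]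
  exact hop_last _ _ _ _ h

theorem hop_fst (x x' y z : ZMod n) (h : x' = x + 1 ∨ x = x' + 1) : Hop (bd3 x y z).1 (bd3 x' y z).1 := by
  rw [bd3_swap12 x y z, bd3_swap12 x' y z]
  exact hop_mid _ _ _ _ h

variable (n) in
/-- the classes for all rotations -/
abbrev Qn : Type := Quotient (msSetoid (n := n) 3 (one_dvd n))

theorem rel_iff (a b : Ms n 3) : (msSetoid (n := n) 3 (one_dvd n)) a b ↔ ∃ t : ZMod n, ∀ x, b.1 (x + t) = a.1 x := by
  constructor
  · rintro ⟨t, _, h⟩; exact ⟨t, h⟩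
  · rintro ⟨t, h⟩; exact ⟨t, Subsingleton.elim _ _, h⟩

/-- rotation -/
theorem mk_rot (x y z t : ZMod n) : (Quotient.mk (msSetoid (n := n) 3 (one_dvd n)) (bd3 x y z)) =
    Quotient.mk _ (bd3 (x + t) (y + t) (z + t)) := by
  apply Quotient.sound
  change (msSetoid (n := n) 3 (one_dvd n)) _ _
  rw [rel_iff]
  refine ⟨t, fun w => ?_⟩
  rw [bd3_apply, bd3_apply]
  simp only [add_left_inj]

/-- the lattice point `(i, a)` -/
def vq (x0 : ZMod n) (p : ℕ × ℕ) : Qn n :=
  Quotient.mk _ (bd3 x0 (x0 + (p.2 : ZMod n)) (x0 + (p.1 : ZMod n)))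

theorem vq_of (x0 c : ZMod n) (i a : ℕ) {y z : ZMod n} (hy : y = c + (a : ZMod n)) (hz : z = c + (i : ZMod n)) :
    (Quotient.mk _ (bd3 c y z) : Qn n) = vq x0 (i, a) := by
  subst hy hz
  unfold vq
  rw [mk_rot c (c + (a : ZMod n)) (c + (i : ZMod n)) (x0 - c)]
  simp only
  congr 2 <;> ring

theorem HopQ.symm' {g m : ℕ} {hg : g ∣ n} {q q' : Quotient (msSetoid m hg)} (h : HopQ hg q q') : HopQ hg q' q := by
  obtain ⟨a, a', h1, h2, h3⟩ := h
  exact ⟨a', a, h2, h1, h3.symm⟩

/-- the edges of the lattice are hops -/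
theorem vq_ed (x0 : ZMod n) {x y : ℕ × ℕ} (h : Ed x y) : HopQ (one_dvd n) (vq x0 x) (vq x0 y) := by
  obtain ⟨i, a⟩ := x
  obtain ⟨i', a'⟩ := y
  have key1 : ∀ i a : ℕ, HopQ (one_dvd n) (vq x0 (i, a)) (vq x0 (i, a + 1)) := fun i a =>
    ⟨_, _, rfl, rfl, hop_mid _ _ _ _ (Or.inl (by simp only; push_cast; ring))⟩
  have key2 : ∀ i a : ℕ, HopQ (one_dvd n) (vq x0 (i, a)) (vq x0 (i + 1, a)) := fun i a =>
    ⟨_, _, rfl, rfl, hop_last _ _ _ _ (Or.inl (by simp only; push_cast; ring))⟩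
  have key3 : ∀ i a : ℕ, HopQ (one_dvd n) (vq x0 (i, a)) (vq x0 (i + 1, a + 1)) := by
    intro i a
    have h1 : vq x0 (i + 1, a + 1) = Quotient.mk _ (bd3 (x0 - 1) (x0 + (a : ZMod n)) (x0 + (i : ZMod n))) :=
      (vq_of x0 (x0 - 1) (i + 1) (a + 1) (by push_cast; ring) (by push_cast; ring)).symm
    rw [h1]
    exact ⟨_, _, rfl, rfl, hop_fst _ _ _ _ (Or.inr (by ring))⟩
  unfold Ed at h
  simp only at h
  rcases h with ⟨rfl, rfl | rfl⟩ | ⟨rfl, rfl | rfl⟩ | ⟨rfl, rfl | rfl⟩
  · exact key1 _ _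
  · exact HopQ.symm' (key1 _ _)
  · exact key2 _ _
  · exact key3 _ _
  · exact HopQ.symm' (key2 _ _)
  · exact HopQ.symm' (key3 _ _)

/-- **the neighbours of a lattice point** -/
theorem vq_nb (hn : 2 ≤ n) (x0 : ZMod n) {r : ℕ} {x : ℕ × ℕ} (hx : x ∈ Rows (r + 1)) (q : Qn n)
    (h : HopQ (one_dvd n) (vq x0 x) q) : ∃ z ∈ Rows (r + 2), q = vq x0 z := by
  obtain ⟨i, a⟩ := x
  rw [mem_Rows] at hx
  obtain ⟨hi, ha⟩ := hx
  simp only at hi ha
  obtain ⟨b, b', h1, rfl, h3⟩ := h
  have h1' : (msSetoid (n := n) 3 (one_dvd n)) b (bd3 x0 (x0 + (a : ZMod n)) (x0 + (i : ZMod n))) := Quotient.exact h1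
  rw [rel_iff] at h1'
  obtain ⟨t, ht⟩ := h1'
  set X : ZMod n := x0 - t with hX
  have hb : b = bd3 X (X + (a : ZMod n)) (X + (i : ZMod n)) := by
    apply Subtype.ext
    funext w
    rw [← ht w, bd3_apply, bd3_apply]
    have e1 : (x0 = w + t) ↔ (X = w) := by rw [hX, sub_eq_iff_eq_add]
    have e2 : (x0 + (a : ZMod n) = w + t) ↔ (X + (a : ZMod n) = w) := by
      rw [hX]
      constructor
      · intro h; linear_combination h
      · intro h; linear_combination h
    have e3 : (x0 + (i : ZMod n) = w + t) ↔ (X + (i : ZMod n) = w) := by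
      rw [hX]
      constructor
      · intro h; linear_combination h
      · intro h; linear_combination h
    simp only [e1, e2, e3]
  subst hb
  obtain ⟨p, p', hp, hw⟩ := h3
  have hne : p' ≠ p := by
    have : Fact (1 < n) := ⟨by omega⟩
    rcases hp with h | h
    · rw [h]; intro h5; exact one_ne_zero (add_eq_left.1 h5)
    · rw [h]; intro h5; exact one_ne_zero (add_eq_left.1 h5.symm)
  have hp3 : p = X ∨ p = X + (a : ZMod n) ∨ p = X + (i : ZMod n) := by
    by_contra hcon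
    push Not at hcon
    have h5 := hw p
    rw [bd3_apply, if_neg hcon.1.symm, if_neg hcon.2.1.symm, if_neg hcon.2.2.symm, if_neg hne, if_pos rfl] at h5
    omega
  have hb' : ∀ y z : ZMod n, bd3 X (X + (a : ZMod n)) (X + (i : ZMod n)) = bd3 p y z → b' = bd3 p' y z := by
    intro y z h5
    rw [h5] at hw
    apply Subtype.ext
    funext w
    have h6 := hw w
    rw [bd3_apply] at h6 ⊢
    omega
  rcases hp3 with h5 | h5 | h5
  · -- the first bead
    have h6 := hb' _ _ (by rw [h5])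
    rcases hp with h7 | h7
    · rcases Nat.eq_zero_or_pos a with h8 | h8
      · rcases Nat.eq_zero_or_pos i with h9 | h9
        · -- `{0,0,0} → {0,0,1}`
          subst h8 h9
          refine ⟨(1, 0), by rw [mem_Rows]; omega, ?_⟩
          rw [h6, bd3_swap12, bd3_swap23, h7, h5]
          exact vq_of x0 _ 1 0 (by push_cast; ring) (by push_cast; ring)
        · subst h8
          refine ⟨(i, 1), by rw [mem_Rows]; simp only; omega, ?_⟩
          rw [h6, bd3_swap12, h7, h5]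
          exact vq_of x0 _ i 1 (by push_cast; ring) (by push_cast; ring)
      · obtain ⟨a', rfl⟩ : ∃ a', a = a' + 1 := ⟨a - 1, by omega⟩
        obtain ⟨i', rfl⟩ : ∃ i', i = i' + 1 := ⟨i - 1, by omega⟩
        refine ⟨(i', a'), by rw [mem_Rows]; simp only; omega, ?_⟩
        rw [h6, h7, h5]
        exact vq_of x0 _ i' a' (by push_cast; ring) (by push_cast; ring)
    · refine ⟨(i + 1, a + 1), by rw [mem_Rows]; simp only; omega, ?_⟩
      rw [h6]
      have h8 : X = p' + 1 := by rw [← h7, h5]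
      rw [h8]
      exact vq_of x0 _ (i + 1) (a + 1) (by push_cast; ring) (by push_cast; ring)
  · -- the second bead
    have h6 := hb' _ _ (by rw [h5, bd3_swap12])
    rcases hp with h7 | h7
    · by_cases h8 : a = i
      · subst h8
        refine ⟨(a + 1, a), by rw [mem_Rows]; simp only; omega, ?_⟩
        rw [h6, bd3_swap12, bd3_swap23, h7, h5]
        exact vq_of x0 _ (a + 1) a (by push_cast; ring) (by push_cast; ring)
      · refine ⟨(i, a + 1), by rw [mem_Rows]; simp only; omega, ?_⟩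
        rw [h6, bd3_swap12, h7, h5]
        exact vq_of x0 _ i (a + 1) (by push_cast; ring) (by push_cast; ring)
    · rcases Nat.eq_zero_or_pos a with h8 | h8
      · subst h8
        refine ⟨(i + 1, 1), by rw [mem_Rows]; simp only; omega, ?_⟩
        have h9 : X = p' + 1 := by rw [← h7, h5]; push_cast; ring
        rw [h6, h9]
        exact vq_of x0 _ (i + 1) 1 (by push_cast; ring) (by push_cast; ring)
      · obtain ⟨a', rfl⟩ : ∃ a', a = a' + 1 := ⟨a - 1, by omega⟩
        refine ⟨(i, a'), by rw [mem_Rows]; simp only; omega, ?_⟩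
        have h9 : p' = X + (a' : ZMod n) := by
          have h10 : X + ((a' + 1 : ℕ) : ZMod n) = p' + 1 := by rw [← h7, h5]
          push_cast at h10
          linear_combination -h10
        rw [h6, bd3_swap12, h9]
        exact vq_of x0 _ i a' rfl rfl
  · -- the third bead
    have h6 := hb' _ _ (by rw [h5, bd3_swap23, bd3_swap12])
    rcases hp with h7 | h7
    · refine ⟨(i + 1, a), by rw [mem_Rows]; simp only; omega, ?_⟩
      rw [h6, bd3_swap12, bd3_swap23, h7, h5]
      exact vq_of x0 _ (i + 1) a (by push_cast; ring) (by push_cast; ring)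
    · rcases Nat.eq_zero_or_pos i with h8 | h8
      · subst h8
        obtain rfl : a = 0 := by omega
        refine ⟨(1, 1), by rw [mem_Rows]; simp only; omega, ?_⟩
        have h9 : X = p' + 1 := by rw [← h7, h5]; push_cast; ring
        rw [h6, h9]
        exact vq_of x0 _ 1 1 (by push_cast; ring) (by push_cast; ring)
      · obtain ⟨i', rfl⟩ : ∃ i', i = i' + 1 := ⟨i - 1, by omega⟩
        have h9 : p' = X + (i' : ZMod n) := by
          have h10 : X + ((i' + 1 : ℕ) : ZMod n) = p' + 1 := by rw [← h7, h5]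
          push_cast at h10
          linear_combination -h10
        by_cases h11 : a = i' + 1
        · subst h11
          refine ⟨(i' + 1, i'), by rw [mem_Rows]; simp only; omega, ?_⟩
          rw [h6, bd3_swap12, h9]
          exact vq_of x0 _ (i' + 1) i' rfl rfl
        · refine ⟨(i', a), by rw [mem_Rows]; simp only; omega, ?_⟩
          rw [h6, bd3_swap12, bd3_swap23, h9]
          exact vq_of x0 _ i' a rfl rfl

/-- the lattice points of the rows `< R` are different if `2 R ≤ n + 1` -/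
theorem vq_inj (x0 : ZMod n) {R : ℕ} (hR : 2 * R ≤ n + 1) {x y : ℕ × ℕ} (hx : x ∈ Rows R) (hy : y ∈ Rows R)
    (h : vq x0 x = vq x0 y) : x = y := by
  obtain ⟨i, a⟩ := x
  obtain ⟨i', a'⟩ := y
  rw [mem_Rows] at hx hy
  obtain ⟨hi, ha⟩ := hx
  obtain ⟨hi', ha'⟩ := hy
  simp only at hi ha hi' ha'
  have h1 : (msSetoid (n := n) 3 (one_dvd n)) (bd3 x0 (x0 + (a : ZMod n)) (x0 + (i : ZMod n)))
    (bd3 x0 (x0 + (a' : ZMod n)) (x0 + (i' : ZMod n))) := Quotient.exact h
  rw [rel_iff] at h1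
  obtain ⟨t, ht⟩ := h1
  -- `t` and `- t` are small
  have h2 : ∃ u : ℕ, u < R ∧ t = (u : ZMod n) := by
    have h3 := ht x0
    rw [bd3_apply, bd3_apply, if_pos (rfl : x0 = x0)] at h3
    by_contra hcon
    push Not at hcon
    have c0 : ¬ (x0 = x0 + t) := fun h5 => hcon 0 (by omega) (by
      rw [Nat.cast_zero]; exact (add_eq_left.1 h5.symm))
    have c1 : ¬ (x0 + (a' : ZMod n) = x0 + t) := fun h5 => hcon a' (by omega) (add_left_cancel h5).symm
    have c2 : ¬ (x0 + (i' : ZMod n) = x0 + t) := fun h5 => hcon i' (by omega) (add_left_cancel h5).symm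
    rw [if_neg c0, if_neg c1, if_neg c2] at h3
    omega
  have h2' : ∃ u : ℕ, u < R ∧ -t = (u : ZMod n) := by
    have h3 := ht (x0 - t)
    rw [sub_add_cancel, bd3_apply, bd3_apply, if_pos (rfl : x0 = x0)] at h3
    by_contra hcon
    push Not at hcon
    have c0 : ¬ (x0 = x0 - t) := fun h5 => hcon 0 (by omega) (by
      rw [Nat.cast_zero]; linear_combination -h5)
    have c1 : ¬ (x0 + (a : ZMod n) = x0 - t) := fun h5 => hcon a (by omega) (by linear_combination -h5)
    have c2 : ¬ (x0 + (i : ZMod n) = x0 - t) := fun h5 => hcon i (by omega) (by linear_combination -h5)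
    rw [if_neg c0, if_neg c1, if_neg c2] at h3
    omega
  obtain ⟨u, hu, hu2⟩ := h2
  obtain ⟨u', hu', hu2'⟩ := h2'
  have h3 : ((u + u' : ℕ) : ZMod n) = 0 := by
    rw [Nat.cast_add, ← hu2, ← hu2']; ring
  rw [ZMod.natCast_eq_zero_iff] at h3
  have h4 : u + u' = 0 := Nat.eq_zero_of_dvd_of_lt h3 (by omega)
  have ht0 : t = 0 := by
    rw [hu2, show u = 0 by omega, Nat.cast_zero]
  subst ht0
  have hc : ∀ s u : ℕ, s < R → u < R → ((x0 + (u : ZMod n) = x0 + (s : ZMod n)) ↔ u = s) := by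
    intro s u hs hu
    constructor
    · intro h5
      have h6 := add_left_cancel h5
      rw [ZMod.natCast_eq_natCast_iff'] at h6
      rwa [Nat.mod_eq_of_lt (by omega), Nat.mod_eq_of_lt (by omega)] at h6
    · rintro rfl; rfl
  have key : ∀ s : ℕ, s < R → ((if a' = s then 1 else 0) + (if i' = s then 1 else 0) : ℕ) =
      (if a = s then 1 else 0) + (if i = s then 1 else 0) := by
    intro s hs
    have h5 := ht (x0 + (s : ZMod n))
    rw [add_zero, bd3_apply, bd3_apply] at h5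
    simp only [hc s a' hs (by omega), hc s i' hs hi', hc s a hs (by omega), hc s i hs hi] at h5
    omega
  have k1 := key a (by omega)
  have k2 := key i (by omega)
  have k4 := key i' (by omega)
  have e1 : i ≤ i' := by
    by_contra hlt
    have c1 : ¬ a' = i := by omega
    have c2 : ¬ i' = i := by omega
    rw [if_neg c1, if_neg c2, if_pos (rfl : i = i)] at k2
    omega
  have e2 : i' ≤ i := by
    by_contra hlt
    have c1 : ¬ a = i' := by omega
    have c2 : ¬ i = i' := by omega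
    rw [if_neg c1, if_neg c2, if_pos (rfl : i' = i')] at k4
    omega
  obtain rfl : i = i' := by omega
  rw [if_pos (rfl : a = a)] at k1
  have e3 : a' = a := by
    by_contra hne
    rw [if_neg hne] at k1
    omega
  rw [e3]

/-- **THE EDGE `C - C'` CAN BE PRESCRIBED**, `C = {x0, x0+1, x0+2}`, `C' = {x0, x0+1, x0+3}` -/
theorem near_cc (hn : 13 ≤ n) (x0 : ZMod n) (ι : Qn n → Qn n) (h1 : ∀ q, ι (ι q) = q)
    (h2 : ∀ q, ι q = q ∨ HopQ (one_dvd n) q (ι q)) (h3 : ∀ q q', ι q = q → ι q' = q' → q = q')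
    (hC : ι (vq x0 (2, 1)) ≠ vq x0 (2, 1)) (hC' : ι (vq x0 (3, 1)) ≠ vq x0 (3, 1)) :
    ∃ ι' : Qn n → Qn n, (∀ q, ι' (ι' q) = q) ∧ (∀ q, ι' q = q ∨ HopQ (one_dvd n) q (ι' q)) ∧
      (∀ q, ι' q = q ↔ ι q = q) ∧ ι' (vq x0 (2, 1)) = vq x0 (3, 1) := by
  by_cases ht : ∃ t ∈ Rows 5, ι (vq x0 t) = vq x0 t
  · obtain ⟨t, ht, htf⟩ := ht
    obtain ⟨μ, hμ, hμ2⟩ := table5 t ht (by rintro rfl; exact hC htf) (by rintro rfl; exact hC' htf)
    obtain ⟨ι', k1, k2, k3, k4⟩ := rematch (HopQ (one_dvd n)) (vq x0) 5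
      (fun x hx y hy h => vq_inj x0 (by omega) hx hy h) (fun x _ y _ h => vq_ed x0 h)
      (fun x hx y h => vq_nb (by omega) x0 hx y h) {t} μ hμ ι h1 h2 (by
        intro x hx
        rw [Finset.mem_singleton]
        constructor
        · intro h
          exact vq_inj x0 (R := 7) (by omega) (by rw [mem_Rows] at hx ⊢; omega) (by rw [mem_Rows] at ht ⊢; omega)
            (h3 _ _ h htf)
        · rintro rfl; exact htf) (by
        intro x hx
        rw [Finset.mem_singleton] at hx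
        rw [hx]; exact ht)
    refine ⟨ι', k1, k2, k3, ?_⟩
    rw [k4 (2, 1), hμ2]
    rw [Finset.mem_sdiff, Finset.mem_singleton]
    exact ⟨by decide, fun h => hC (by rw [h]; exact htf)⟩
  · push Not at ht
    obtain ⟨μ, hμ, hμ2⟩ := table4
    obtain ⟨ι', k1, k2, k3, k4⟩ := rematch (HopQ (one_dvd n)) (vq x0) 4
      (fun x hx y hy h => vq_inj x0 (by omega) hx hy h) (fun x _ y _ h => vq_ed x0 h)
      (fun x hx y h => vq_nb (by omega) x0 hx y h) ∅ μ hμ ι h1 h2 (by
        intro x hx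
        constructor
        · intro h; exact absurd h (ht x hx)
        · intro h; exact absurd h (Finset.notMem_empty _)) (Finset.empty_subset _)
    refine ⟨ι', k1, k2, k3, ?_⟩
    rw [k4 (2, 1) (by decide), hμ2]

end Pool.OddHC.Cor
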