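import Pool.Agent.Work.MP_8f87b2_h86.EJ
import Pool.Agent.Work.MP_8f87b2_h18.NSx

/-!
# MP_8f87b2_co: type Ef in the classes `(k-5, 4, 1)` and `(k-6, 5, 1)`

Every hop pair has an E triple with a good word: the phases of a pair over the two solitons `a < b` are found from the `T^2` orbit
`[a][b], ([a][b-1]), .., ([b-1][a]), [b][a]`; the star moves by `-1` in every step of `T^2`, and by `-1-2a` from `[b][a]` to `[a][b]`.
-/

set_option autoImplicit false

namespace Pool.OddHC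

open Finset Equiv BinaryTree Multiset Pool.OddHop Pool.Agent.Work.MP_8f87b2_co

variable {k j : ℕ}

namespace EJ

/-- the first maxima of `x` and of `T x` -/
theorem FM2 {x : X k} (hx : x.1 ≠ .nil) :
    ∃ a c : List Bool, H1.FM x.1 a (c ++ false :: wd (Tsq.sq x.1).2) ∧
      H1.FM (TT x).1 (c.map not) ((wd (Tsq.sq x.1).2).map not ++ false :: a.map not) := by
  obtain ⟨a, c, h1, h2, h3, h4, h5, h6, h7⟩ := Tsq.sq_spec x.1 hx
  have f1 : H1.FM x.1 a (c ++ false :: wd (Tsq.sq x.1).2) := ⟨h1, h3, h4⟩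
  have hT : wd (TT x).1 = c.map not ++ true :: ((wd (Tsq.sq x.1).2).map not ++ false :: a.map not) := by
    rw [f1.wdT]
    simp
  have hh : Tsq.ht (TT x).1 = Tsq.ht x.1 := by
    rw [H1.ht_eq, H1.ht_eq, ht_eq, ht_eq, H1.cont_TT]
  refine ⟨a, c, f1, ⟨hT, ?_, ?_⟩⟩
  · intro m
    have hS := wd_take (Tsq.sq x.1).1 (a.length + 2 + m)
    rw [h2] at hS
    have e1 : (true :: (a ++ false :: c)).take (a.length + 2 + m) = true :: (a ++ false :: c.take m) := by
      rw [show a.length + 2 + m = (a.length + 1 + m) + 1 by omega, List.take_succ_cons, List.take_append,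
        List.take_of_length_le (by omega)]
      congr 2
      rw [show a.length + 1 + m - a.length = m + 1 by omega, List.take_succ_cons]
    rw [e1] at hS
    simp only [List.count_cons, List.count_append] at hS
    rw [hh, ← List.map_take, Tsq.count_not_true, Tsq.count_not_false]
    simp at hS
    omega
  · rw [hh, Tsq.count_not_true, Tsq.count_not_false]
    omega

/-- the star in two steps -/
theorem nv_two {x : X k} (hx : x.1 ≠ .nil) : nv x + nv (TT x) + 2 * (Tsq.sq x.1).2.numNodes = 2 * k := by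
  obtain ⟨a, c, f1, f2⟩ := FM2 hx
  rw [NSx.nv_FM f1, NSx.nv_FM f2]
  have h := congrArg List.length f1.eq
  rw [wd_length, X_num] at h
  simp [wd_length] at h ⊢
  omega

/-- some power of `T` brings the tree `t` to `t'` and the star by `d` -/
def Rl (j : ℕ) (t t' : BinaryTree Unit) (d : ZMod (2 * j + 1)) : Prop :=
  ∀ x : X j, x.1 = t → ∃ n : ℕ, ((TT ^ n) x).1 = t' ∧ sp x n = d

theorem Rl.refl (t : BinaryTree Unit) : Rl j t t 0 := fun _ hx => ⟨0, hx, rfl⟩

theorem Rl.trans {t t' t'' : BinaryTree Unit} {d d' : ZMod (2 * j + 1)} (h : Rl j t t' d) (h' : Rl j t' t'' d') :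
    Rl j t t'' (d + d') := by
  intro x hx
  obtain ⟨n, h1, h2⟩ := h x hx
  obtain ⟨m, h3, h4⟩ := h' _ h1
  refine ⟨n + m, ?_, ?_⟩
  · rw [add_comm, pow_add, Equiv.Perm.mul_apply]
    exact h3
  · rw [sp_add, h2, h4]

/-- one step of `T^2` -/
theorem Rl.sq {t S B : BinaryTree Unit} (ht : t ≠ .nil) (hs : Tsq.sq t = (S, B)) :
    Rl j t (app B S) (-1 - 2 * (B.numNodes : ZMod (2 * j + 1))) := by
  rintro x rfl
  refine ⟨2, ?_, ?_⟩
  · change (TT (TT x)).1 = _
    rw [Tsq.TT_sq x ht, hs]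
  · have h1 := nv_two ht
    rw [hs] at h1
    have h7 : ∀ x : X j, ((nv x : ℕ) : ZMod (2 * j + 1)) = Vo x := fun x => ZMod.natCast_zmod_val _
    have h2 : sp x 2 = Vo x + Vo (TT x) := by
      change ((0 : ZMod (2 * j + 1)) + Vo ((TT ^ 0) x)) + Vo ((TT ^ 1) x) = _
      rw [zero_add, pow_zero, pow_one]
      rfl
    have h3 := congrArg (Nat.cast : ℕ → ZMod (2 * j + 1)) h1
    have h6 : ((2 * j + 1 : ℕ) : ZMod (2 * j + 1)) = 0 := ZMod.natCast_self _
    push_cast at h3 h6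
    rw [h7, h7] at h3
    rw [h2]
    linear_combination h3 + h6

/-- `((..(t)..))` -/
def nst : ℕ → BinaryTree Unit → BinaryTree Unit
  | 0, t => t
  | i + 1, t => nst i t △ .nil

theorem nst_ne {t : BinaryTree Unit} (h : t ≠ .nil) : ∀ i, nst i t ≠ .nil
  | 0 => h
  | i + 1 => by change nst i t △ .nil ≠ .nil; simp

theorem sq_ch : ∀ {c : ℕ}, 1 ≤ c → Tsq.sq (H1.ch c) = (H1.ch c, .nil)
  | 1, _ => rfl
  | c + 2, _ => by
    change Tsq.sq (H1.ch (c + 1) △ .nil) = _
    have hne : H1.ch (c + 1) ≠ .nil := by change H1.ch c △ .nil ≠ .nil; simp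
    rw [Tsq.sq_ge hne (by change 0 ≤ _; omega), sq_ch (by omega)]
    rfl

theorem ht_ch : ∀ c, Tsq.ht (H1.ch c) = c
  | 0 => rfl
  | c + 1 => by
    change Tsq.ht (H1.ch c △ .nil) = _
    rw [Tsq.ht_node, ht_ch c]
    change max (c + 1) 0 = _
    omega

theorem sq_nst {t S : BinaryTree Unit} (ht : t ≠ .nil) (hs : Tsq.sq t = (S, .nil)) :
    ∀ i, Tsq.sq (nst i t) = (nst i S, .nil)
  | 0 => hs
  | i + 1 => by
    change Tsq.sq (nst i t △ .nil) = _
    rw [Tsq.sq_ge (nst_ne ht i) (by change 0 ≤ _; omega), sq_nst ht hs i]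
    rfl

variable {a b c d i m : ℕ}

/-- `((..([a][c])..))` -/
theorem step_A (ha : 1 ≤ a) (hc : a ≤ c) :
    Rl j (nst i (app (H1.ch a) (H1.ch (c + 1)))) (nst (i + 1) (app (H1.ch a) (H1.ch c))) (-1) := by
  obtain ⟨a, rfl⟩ : ∃ a', a = a' + 1 := ⟨a - 1, by omega⟩
  have h0 : Tsq.sq (app (H1.ch (a + 1)) (H1.ch (c + 1))) = (app (H1.ch (a + 1)) (H1.ch c) △ .nil, .nil) := by
    change Tsq.sq (H1.ch a △ H1.ch (c + 1)) = _
    rw [Tsq.sq_lt (Xx := H1.ch c) (Y := .nil) (by rw [ht_ch, ht_ch]; omega) (by rw [sq_ch (by omega)]; rfl),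
      sq_ch (by omega)]
    rfl
  have hne : app (H1.ch (a + 1)) (H1.ch (c + 1)) ≠ .nil := by
    change H1.ch a △ H1.ch (c + 1) ≠ .nil
    simp
  have h1 := Rl.sq (j := j) (nst_ne hne i) (sq_nst hne h0 i)
  have e : nst i (app (H1.ch (a + 1)) (H1.ch c) △ .nil) = nst (i + 1) (app (H1.ch (a + 1)) (H1.ch c)) := by
    clear h0 h1 hne
    induction i with
    | zero => rfl
    | succ i ih =>
      change nst i _ △ .nil = _
      rw [ih]
      rfl
  rw [e] at h1
  have e2 : (-1 - 2 * ((BinaryTree.nil : BinaryTree Unit).numNodes : ZMod (2 * j + 1))) = -1 := by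
    change (-1 - 2 * ((0 : ℕ) : ZMod (2 * j + 1))) = -1
    push_cast
    ring
  rw [e2] at h1
  exact h1

theorem sq_B0 (hc : 2 ≤ c) (hac : a ≤ c) : Tsq.sq (app (H1.ch c) (H1.ch a)) = (H1.ch c, H1.ch a) := by
  obtain ⟨c, rfl⟩ : ∃ c', c = c' + 1 := ⟨c - 1, by omega⟩
  change Tsq.sq (H1.ch c △ H1.ch a) = _
  have hne : H1.ch c ≠ .nil := by
    obtain ⟨c, rfl⟩ : ∃ c', c = c' + 1 := ⟨c - 1, by omega⟩
    change H1.ch c △ .nil ≠ .nil
    simp
  rw [Tsq.sq_ge hne (by rw [ht_ch, ht_ch]; omega), sq_ch (by omega)]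
  rfl

/-- `((..([c][a])..))` -/
theorem step_B (hc : 2 ≤ c) (hac : a ≤ c) :
    Rl j (nst (i + 1) (app (H1.ch c) (H1.ch a))) (nst i (app (H1.ch (c + 1)) (H1.ch a))) (-1) := by
  have hne0 : app (H1.ch c) (H1.ch a) ≠ .nil := by
    obtain ⟨c, rfl⟩ : ∃ c', c = c' + 1 := ⟨c - 1, by omega⟩
    change H1.ch c △ H1.ch a ≠ .nil
    simp
  have hne : (app (H1.ch c) (H1.ch a) △ .nil : BinaryTree Unit) ≠ .nil := by simp
  have h0 : Tsq.sq (app (H1.ch c) (H1.ch a) △ .nil) = (app (H1.ch (c + 1)) (H1.ch a), .nil) := by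
    rw [Tsq.sq_ge hne0 (by change 0 ≤ _; omega), sq_B0 hc hac]
    rfl
  have h1 := Rl.sq (j := j) (nst_ne hne i) (sq_nst hne h0 i)
  have e : nst i (app (H1.ch c) (H1.ch a) △ .nil) = nst (i + 1) (app (H1.ch c) (H1.ch a)) := by
    clear h0 h1 hne hne0
    induction i with
    | zero => rfl
    | succ i ih =>
      change nst i _ △ .nil = _
      rw [ih]
      rfl
  rw [e] at h1
  have e2 : (-1 - 2 * ((BinaryTree.nil : BinaryTree Unit).numNodes : ZMod (2 * j + 1))) = -1 := by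
    change (-1 - 2 * ((0 : ℕ) : ZMod (2 * j + 1))) = -1
    push_cast
    ring
  rw [e2] at h1
  exact h1

/-- `[c][a] > [a][c]` -/
theorem step_C (hc : 2 ≤ c) (hac : a ≤ c) :
    Rl j (app (H1.ch c) (H1.ch a)) (app (H1.ch a) (H1.ch c)) (-1 - 2 * (a : ZMod (2 * j + 1))) := by
  have hne : app (H1.ch c) (H1.ch a) ≠ .nil := by
    obtain ⟨c, rfl⟩ : ∃ c', c = c' + 1 := ⟨c - 1, by omega⟩
    change H1.ch c △ H1.ch a ≠ .nil
    simp
  have h1 := Rl.sq (j := j) hne (sq_B0 hc hac)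
  rwa [H1.ch_num] at h1

/-- the words of the orbit: `0 <= m <= 2 d` -/
def W (a d m : ℕ) : BinaryTree Unit :=
  if m ≤ d then nst m (app (H1.ch a) (H1.ch (a + d - m))) else nst (2 * d - m) (app (H1.ch (a + m - d)) (H1.ch a))

theorem W_succ (ha : 2 ≤ a) (hm : m < 2 * d) : Rl j (W a d m) (W a d (m + 1)) (-1) := by
  unfold W
  rcases Nat.lt_trichotomy m d with h | h | h
  · rw [if_pos h.le, if_pos (by omega)]
    have := step_A (j := j) (a := a) (c := a + d - (m + 1)) (i := m) (by omega) (by omega)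
    rwa [show a + d - (m + 1) + 1 = a + d - m by omega] at this
  · subst h
    rw [if_pos (le_refl m), if_neg (by omega)]
    have := step_B (j := j) (a := a) (c := a) (i := 2 * m - (m + 1)) (by omega) (le_refl a)
    rwa [show 2 * m - (m + 1) + 1 = m by omega, show a + 1 = a + (m + 1) - m by omega,
      show (app (H1.ch a) (H1.ch a)) = app (H1.ch a) (H1.ch (a + m - m)) by rw [Nat.add_sub_cancel]] at this
  · rw [if_neg (by omega), if_neg (by omega)]
    have := step_B (j := j) (a := a) (c := a + m - d) (i := 2 * d - (m + 1)) (by omega) (by omega)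
    rwa [show 2 * d - (m + 1) + 1 = 2 * d - m by omega, show a + m - d + 1 = a + (m + 1) - d by omega] at this

theorem W_add (ha : 2 ≤ a) : ∀ e, m + e ≤ 2 * d → Rl j (W a d m) (W a d (m + e)) (-(e : ZMod (2 * j + 1))) := by
  intro e
  induction e with
  | zero =>
    intro _
    rw [Nat.cast_zero, neg_zero]
    exact Rl.refl _
  | succ e ih =>
    intro h
    have h1 := (ih (by omega)).trans (W_succ ha (show m + e < 2 * d by omega))
    have e1 : (-(e : ZMod (2 * j + 1)) + -1) = -((e + 1 : ℕ) : ZMod (2 * j + 1)) := by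
      push_cast
      ring
    rw [e1] at h1
    exact h1

theorem W_zero : W a d 0 = app (H1.ch a) (H1.ch (a + d)) := by
  unfold W
  rw [if_pos (Nat.zero_le _)]
  rfl

theorem W_last (hd : 1 ≤ d) : W a d (2 * d) = app (H1.ch (a + d)) (H1.ch a) := by
  unfold W
  rw [if_neg (by omega), Nat.sub_self, show a + 2 * d - d = a + d by omega]
  rfl

/-- the step from the last to the first word -/
theorem W_wrap (ha : 2 ≤ a) (hd : 1 ≤ d) : Rl j (W a d (2 * d)) (W a d 0) (-1 - 2 * (a : ZMod (2 * j + 1))) := by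
  rw [W_zero, W_last hd]
  exact step_C (by omega) (by omega)

/-- one loop -/
theorem W_loop (ha : 2 ≤ a) (hd : 1 ≤ d) (hj : j = a + (a + d)) (hm : m ≤ 2 * d) :
    Rl j (W a d m) (W a d m) (2 * (a : ZMod (2 * j + 1))) := by
  have h1 := W_add (j := j) (a := a) (d := d) (m := m) ha (2 * d - m) (by omega)
  rw [show m + (2 * d - m) = 2 * d by omega] at h1
  have h2 := W_add (j := j) (a := a) (d := d) (m := 0) ha m (by omega)
  rw [Nat.zero_add] at h2
  have h3 := (h1.trans (W_wrap ha hd)).trans h2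
  have h6 : ((2 * j + 1 : ℕ) : ZMod (2 * j + 1)) = 0 := ZMod.natCast_self _
  have e : (-((2 * d - m : ℕ) : ZMod (2 * j + 1)) + (-1 - 2 * (a : ZMod (2 * j + 1))) + -(m : ZMod (2 * j + 1))) =
      2 * (a : ZMod (2 * j + 1)) := by
    have h7 : ((2 * d - m : ℕ) : ZMod (2 * j + 1)) = 2 * (d : ZMod (2 * j + 1)) - m := by
      rw [Nat.cast_sub hm]
      push_cast
      ring
    rw [h7]
    have h8 : (2 * ((a : ZMod (2 * j + 1)) + (a + d)) + 1) = 0 := by
      have h9 : ((2 * j + 1 : ℕ) : ZMod (2 * j + 1)) = 2 * ((a : ZMod (2 * j + 1)) + (a + d)) + 1 := by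
        have : (j : ZMod (2 * j + 1)) = (a : ZMod (2 * j + 1)) + (a + d) := by
          have := congrArg (Nat.cast : ℕ → ZMod (2 * j + 1)) hj
          push_cast at this
          exact this
        push_cast
        rw [this]
      rw [← h9]
      exact h6
    linear_combination -h8
  rw [e] at h3
  exact h3

theorem W_loops (ha : 2 ≤ a) (hd : 1 ≤ d) (hj : j = a + (a + d)) (hm : m ≤ 2 * d) (t : ℕ) :
    Rl j (W a d m) (W a d m) (2 * (a : ZMod (2 * j + 1)) * (t : ZMod (2 * j + 1))) := by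
  induction t with
  | zero =>
    rw [Nat.cast_zero, mul_zero]
    exact Rl.refl _
  | succ t ih =>
    have h := ih.trans (W_loop ha hd hj hm)
    have e : 2 * (a : ZMod (2 * j + 1)) * (t : ZMod (2 * j + 1)) + 2 * (a : ZMod (2 * j + 1)) =
        2 * (a : ZMod (2 * j + 1)) * ((t + 1 : ℕ) : ZMod (2 * j + 1)) := by
      push_cast
      ring
    rw [e] at h
    exact h

/-- **other phases**: from the word `m` to the word `m + e` with the star at the same place, if `e = 2 a t` in `Z/(2j+1)` -/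
theorem W_phase (ha : 2 ≤ a) (hd : 1 ≤ d) (hj : j = a + (a + d)) {t e u : ℕ} (hm : m + e ≤ 2 * d)
    (he : 2 * a * t = e + (2 * j + 1) * u) : Rl j (W a d m) (W a d (m + e)) 0 := by
  have h := (W_loops (j := j) ha hd hj (show m ≤ 2 * d by omega) t).trans (W_add (j := j) ha e hm)
  have h1 := congrArg (Nat.cast : ℕ → ZMod (2 * j + 1)) he
  have h6 : ((2 * j + 1 : ℕ) : ZMod (2 * j + 1)) = 0 := ZMod.natCast_self _
  rw [Nat.cast_add, Nat.cast_mul (2 * j + 1), h6, zero_mul, add_zero] at h1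
  push_cast at h1
  rw [h1, add_neg_cancel] at h
  exact h

/-- from the last word -/
theorem W_phase' (ha : 2 ≤ a) (hd : 1 ≤ d) (hj : j = a + (a + d)) {t e u : ℕ} (hm : e ≤ 2 * d)
    (he : 2 * a * t = e + (2 * a + 1) + (2 * j + 1) * u) : Rl j (W a d (2 * d)) (W a d e) 0 := by
  have h := ((W_wrap (j := j) ha hd).trans (W_loops (j := j) ha hd hj (show 0 ≤ 2 * d by omega) t)).trans
    (W_add (j := j) ha e (by omega))
  rw [Nat.zero_add] at h
  have h1 := congrArg (Nat.cast : ℕ → ZMod (2 * j + 1)) he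
  have h6 : ((2 * j + 1 : ℕ) : ZMod (2 * j + 1)) = 0 := ZMod.natCast_self _
  rw [Nat.cast_add, Nat.cast_mul (2 * j + 1), h6, zero_mul, add_zero] at h1
  push_cast at h1
  have e1 : (-1 - 2 * (a : ZMod (2 * j + 1)) + 2 * (a : ZMod (2 * j + 1)) * (t : ZMod (2 * j + 1)) +
      -(e : ZMod (2 * j + 1))) = 0 := by
    linear_combination h1
  rw [e1] at h
  exact h

end EJ

end Pool.OddHC
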