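import Pool.Agent.Work.MP_8f87b2_h86.RemCC

/-!
# Even families `F(U, 3)`: removal of `{P, Y, C, C'}`

`rem_even_gen`: even family, all rotations: for every perfect matching `μ` of the rows `< r` of the lattice of the classes
`{x, x + a, x + i}` every subset closed under `μ` can be removed. `rem_PYCC` (`6 ≤ j`), `rem_PYCC'` (`8 ≤ j`): the pile
`P = {x, x, x}`, the near pile `Y = {x, x, x + 1}` resp. `Y' = {x, x, x - 1}`, `C = {x, x+1, x+2}`, `C' = {x, x+1, x+3}`.
-/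

set_option autoImplicit false

namespace Pool.OddHC

open Finset BinaryTree Multiset Pool.OddHop Cor

variable {j k : ℕ}

/-- the T-cycles `{x, x + a, x + i}`, `(i, a) ∈ S`, over `u` -/
def LatS (u : X j) (S : Finset (ℕ × ℕ)) : Set (Cyc k) :=
  {c | ∃ p ∈ S, ∃ (x : ZMod (2 * j + 1)) (w : X k),
    w.1 = ins u.1 (lf (bd3 x (x + (p.2 : ZMod (2 * j + 1))) (x + (p.1 : ZMod (2 * j + 1)))).1) ∧ c = cyc w}

/-- **even families, general form** -/
theorem rem_even_gen {r : ℕ} (hj : r + 1 ≤ j) (hr : 1 ≤ r) {u : X j} (h1 : (1 : ZMod (2 * j + 1)) ∈ rotGrp u)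
    (hk : j + pkn u.1 + 3 = k) (hev : ¬ oddF j 3) {μ : ℕ × ℕ → ℕ × ℕ} (hμ : PM (Rows r) μ) {S : Finset (ℕ × ℕ)}
    (hS : S ⊆ Rows r) (hSμ : ∀ p ∈ S, μ p ∈ S) : RemOK ⟨j, cyc u⟩ (LatS (k := k) u S) := by
  classical
  obtain ⟨g, hg, F, hinj, hF, hR, hs, hH, hA⟩ := family_rem (by omega) u 3 hk
  obtain rfl := g_one h1 hk hg F hinj hF
  obtain ⟨ι, k1, k2, k3⟩ := near_prescribed (n := 2 * j + 1) (m := 3) ⟨j, rfl⟩ hg (by omega) (by omega)
    (vq (0 : ZMod (2 * j + 1)) (0, 0))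
  have hq : Odd (Nat.card (Quotient (msSetoid (n := 2 * j + 1) 3 hg))) ↔ oddF j 3 := quot_odd j 3 hg
  rw [hq] at k3
  have nofix : ∀ q, ι q ≠ q := fun q h => hev ((k3 q).1 h).2
  obtain ⟨ι', m1, m2, m3, m4⟩ := rematch (HopQ (one_dvd (2 * j + 1))) (vq (0 : ZMod (2 * j + 1))) r
    (fun x hx y hy h => vq_inj 0 (by omega) hx hy h) (fun x _ y _ h => vq_ed 0 h)
    (fun x hx y h => vq_nb (by omega) 0 hx y h) ∅ μ (hμ.congr (by simp)) ι k1 k2 (by
      intro x hx
      constructor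
      · intro h; exact absurd h (nofix _)
      · intro h; exact absurd h (Finset.notMem_empty _)) (Finset.empty_subset _)
  have m4' : ∀ x ∈ Rows r, ι' (vq 0 x) = vq 0 (μ x) := fun x hx => m4 x (by simpa using hx)
  obtain ⟨B, hB⟩ : ∃ B : Qn (2 * j + 1) → Prop, ∀ q, B q ↔ ∃ p ∈ S, q = vq 0 p := ⟨_, fun _ => Iff.rfl⟩
  have hBι : ∀ q, B q → B (ι' q) := by
    intro q hq
    rw [hB] at hq ⊢
    obtain ⟨p, hp, rfl⟩ := hq
    exact ⟨μ p, hSμ p hp, m4' p (hS hp)⟩
  have hBι' : ∀ q, ¬ B q → ¬ B (ι' q) := by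
    intro q hq h
    apply hq
    have := hBι _ h
    rwa [m1] at this
  refine RemOK.congr (hA HopC (fun q => if B q then q else ι' q) ?_ ?_) ?_
  · intro q
    by_cases hq : B q
    · simp only [hq, if_true]
    · simp only [hq, if_false, hBι' q hq, m1]
  · intro q
    by_cases hq : B q
    · left; simp only [hq, if_true]
    · simp only [hq, if_false]
      rcases m2 q with h | h
      · exact Or.inl h
      · exact Or.inr (hH _ _ h)
  · intro p _
    constructor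
    · rintro ⟨q, rfl, hq⟩
      by_cases hq' : B q
      · rw [hB] at hq'
        obtain ⟨s, hs', rfl⟩ := hq'
        have h0 : ∀ y : Ms (2 * j + 1) 3, j + pkn u.1 + ∑ z, y.1 z = k := by
          intro y
          rw [y.2]
          exact hk
        exact ⟨s, hs', 0, phi u _ (h0 (bd3 0 (0 + (s.2 : ZMod (2 * j + 1))) (0 + (s.1 : ZMod (2 * j + 1))))), rfl,
          hF _ _ rfl⟩
      · simp only [hq', if_false] at hq
        exact absurd ((m3 q).1 hq) (nofix q)
    · rintro ⟨s, hs', x, w, hw, rfl⟩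
      refine ⟨vq x s, hF _ _ hw, ?_⟩
      have e : vq x s = vq (0 : ZMod (2 * j + 1)) s := by
        unfold vq
        rw [mk_rot x (x + (s.2 : ZMod (2 * j + 1))) (x + (s.1 : ZMod (2 * j + 1))) (-x)]
        congr 2 <;> ring
      have : B (vq x s) := by
        rw [hB]
        exact ⟨s, hs', e⟩
      simp only [this, if_true]

/-- the matching of the rows `0 .. 3` -/
def muA : ℕ × ℕ → ℕ × ℕ :=
  look [((2, 1), (3, 1)), ((0, 0), (1, 0)), ((1, 1), (2, 2)), ((2, 0), (3, 0)), ((3, 2), (3, 3))]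

theorem muA_pm : PM (Rows 4) muA := by
  unfold muA
  decide

/-- the matching of the rows `0 .. 6` -/
def muB : ℕ × ℕ → ℕ × ℕ :=
  look [((0, 0), (1, 1)), ((1, 0), (2, 0)), ((2, 1), (3, 1)), ((2, 2), (3, 2)), ((3, 0), (4, 0)), ((3, 3), (4, 4)),
    ((4, 1), (4, 2)), ((4, 3), (5, 3)), ((5, 0), (5, 1)), ((5, 2), (6, 2)), ((5, 4), (5, 5)), ((6, 0), (6, 1)),
    ((6, 3), (6, 4)), ((6, 5), (6, 6))]

theorem muB_pm : PM (Rows 7) muB := by
  unfold muB
  decide

section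

variable {u : X j} {x y z t : ZMod (2 * j + 1)} {P Y C C' : X k}

theorem lat4 {b : ℕ} (hP : P.1 = ins u.1 (lf (bd3 x x x).1))
    (hY : Y.1 = ins u.1 (lf (bd3 y (y + (b : ZMod (2 * j + 1))) (y + 1)).1))
    (hC : C.1 = ins u.1 (lf (bd3 z (z + 1) (z + 2)).1)) (hC' : C'.1 = ins u.1 (lf (bd3 t (t + 1) (t + 3)).1))
    (h1 : (1 : ZMod (2 * j + 1)) ∈ rotGrp u) :
    LatS (k := k) u {(0, 0), (1, b), (2, 1), (3, 1)} = {cyc P, cyc Y, cyc C, cyc C'} := by
  have hk : j + pkn u.1 + 3 = k := by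
    have h0 := word_phi hC
    rwa [(bd3 z (z + 1) (z + 2)).2] at h0
  have rot : ∀ (a b c s : ZMod (2 * j + 1)) (w w' : X k), w.1 = ins u.1 (lf (bd3 a b c).1) →
      w'.1 = ins u.1 (lf (bd3 (a + s) (b + s) (c + s)).1) → cyc w = cyc w' := by
    intro a b c s w w' hw hw'
    have h2 : -s ∈ rotGrp u := by
      have h3 : ∀ n : ℕ, (n : ZMod (2 * j + 1)) ∈ rotGrp u := by
        intro n
        have := (rotGrp u).nsmul_mem h1 n
        rwa [nsmul_one] at this
      have := h3 (-s).val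
      rwa [ZMod.natCast_zmod_val] at this
    obtain ⟨i, h3, h4⟩ := mem_rotGrp.1 h2
    have e1 : w = phi u (bd3 a b c).1 (by rw [(bd3 a b c).2]; exact hk) := Subtype.ext hw
    have e2 : w' = phi u (bd3 (a + s) (b + s) (c + s)).1 (by rw [(bd3 (a + s) (b + s) (c + s)).2]; exact hk) :=
      Subtype.ext hw'
    rw [e1, e2, cyc_eq, same_iff]
    refine ⟨i, h3, ?_⟩
    funext v
    rw [h4, bd3_apply, bd3_apply]
    have e3 : ∀ d : ZMod (2 * j + 1), (d + s = v) ↔ (d = v + -s) := by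
      intro d
      constructor
      · intro h; linear_combination h
      · intro h; linear_combination h
    simp only [e3]
  ext c
  constructor
  · rintro ⟨p, hp, x', w, hw, rfl⟩
    simp only [Finset.mem_insert, Finset.mem_singleton] at hp
    rcases hp with rfl | rfl | rfl | rfl
    · left
      simp only [Nat.cast_zero, add_zero] at hw
      exact rot _ _ _ (x - x') _ _ hw (by rw [hP]; simp)
    · right; left
      simp only [Nat.cast_one] at hw
      refine rot _ _ _ (y - x') _ _ hw ?_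
      rw [hY]
      congr 4 <;> ring
    · right; right; left
      simp only [Nat.cast_one, Nat.cast_ofNat] at hw
      refine rot _ _ _ (z - x') _ _ hw ?_
      rw [hC]
      congr 4 <;> ring
    · right; right; right
      simp only [Nat.cast_one, Nat.cast_ofNat] at hw
      refine rot _ _ _ (t - x') _ _ hw ?_
      rw [hC']
      congr 4 <;> ring
  · rintro (rfl | rfl | rfl | rfl)
    · exact ⟨(0, 0), by simp, x, P, by simpa using hP, rfl⟩
    · exact ⟨(1, b), by simp, y, Y, by simpa using hY, rfl⟩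
    · exact ⟨(2, 1), by simp, z, C, by simpa using hC, rfl⟩
    · exact ⟨(3, 1), by simp, t, C', by simpa using hC', rfl⟩

/-- **`RemOK {P, Y, C, C'}`**, `P = {x, x, x}`, `Y = {y, y, y + 1}`, even family, `6 ≤ j` -/
theorem rem_PYCC (hj : 6 ≤ j) (h1 : (1 : ZMod (2 * j + 1)) ∈ rotGrp u) (hP : P.1 = ins u.1 (lf (bd3 x x x).1))
    (hY : Y.1 = ins u.1 (lf (bd3 y y (y + 1)).1))
    (hC : C.1 = ins u.1 (lf (bd3 z (z + 1) (z + 2)).1)) (hC' : C'.1 = ins u.1 (lf (bd3 t (t + 1) (t + 3)).1))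
    (hev : ¬ oddF j 3) : RemOK ⟨j, cyc u⟩ {cyc P, cyc Y, cyc C, cyc C'} := by
  have hk : j + pkn u.1 + 3 = k := by
    have h0 := word_phi hC
    rwa [(bd3 z (z + 1) (z + 2)).2] at h0
  rw [← lat4 (b := 0) (y := y) hP (by rw [hY]; simp) hC hC' h1]
  exact rem_even_gen (r := 4) (by omega) (by omega) h1 hk hev muA_pm (by decide) (by decide)

/-- **`RemOK {P, Y', C, C'}`**, `P = {x, x, x}`, `Y' = {y, y, y - 1}`, even family, `8 ≤ j` -/
theorem rem_PYCC' (hj : 8 ≤ j) (h1 : (1 : ZMod (2 * j + 1)) ∈ rotGrp u) (hP : P.1 = ins u.1 (lf (bd3 x x x).1))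
    (hY : Y.1 = ins u.1 (lf (bd3 y y (y - 1)).1))
    (hC : C.1 = ins u.1 (lf (bd3 z (z + 1) (z + 2)).1)) (hC' : C'.1 = ins u.1 (lf (bd3 t (t + 1) (t + 3)).1))
    (hev : ¬ oddF j 3) : RemOK ⟨j, cyc u⟩ {cyc P, cyc Y, cyc C, cyc C'} := by
  have hk : j + pkn u.1 + 3 = k := by
    have h0 := word_phi hC
    rwa [(bd3 z (z + 1) (z + 2)).2] at h0
  rw [← lat4 (b := 1) (y := y - 1) hP (by
    rw [hY, bd3_swap23, bd3_swap12]
    congr 4 <;> push_cast <;> ring) hC hC' h1]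
  exact rem_even_gen (r := 7) (by omega) (by omega) h1 hk hev muB_pm (by decide) (by decide)

end

end Pool.OddHC
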